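import Pool.Agent.L7h82.VV.Cut
import Pool.Agent.W709.QAT.Fin
import Pool.Agent.N566.VV.Knots
import Pool.Agent.H835R2.Knot.Front

/-!
# The Kashaev invariants of odd colour of all knots, and Vassiliev invariants
-/

set_option autoImplicit false

namespace Pool.Agent.L7h82.VV

open Pool.Agent.H835R2.Knot (Word Front IsKnot Isotopic IsInvariant DegreeLE)
open Pool.Agent.W709.QAT (Diag jones)
open Pool.Agent.N566.VV (ColE Col ev rt Same Separated Grow GrowC exact_eq norm_eq)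
open Finset Filter Topology

/-- the Kashaev invariant of colour `N`, `N` odd -/
noncomputable def kash (D : Word) (N : ℕ) : ℂ :=
  ev (fun N v => jones N (cut D) v) (expo D Front.empty) N

lemma knot_ne {D : Word} (h : IsKnot D) : D ≠ [] := by
  rintro rfl
  have := h.2
  simp [Pool.Agent.H835R2.Knot.comps] at this

lemma cont_jones (T : Diag) {N : ℕ} (hN : Odd N) : ContinuousAt (jones N T) (rt N) :=
  Pool.Agent.W709.QAT.cont T N hN.pos

lemma kash_of {D : Word} (hD : IsKnot D) {g : ℕ → ℂ → ℂ} {c : ℤ} (hg : ColE D g c) {N : ℕ}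
    (hN : Odd N) (hc : ContinuousAt (g N) (rt N)) : ev g c N = kash D N :=
  exact_eq hD hD (fun _ _ _ _ => rfl) hg (colE_all hD.1 (knot_ne hD)) hN hc (cont_jones _ hN)

lemma col_of {D : Word} {g : ℕ → ℂ → ℂ} {c : ℤ} (h : ColE D g c) : Col D g :=
  fun N hN => ⟨_, h N hN⟩

lemma norm_kash {D : Word} {N : ℕ} : ‖kash D N‖ = ‖jones N (cut D) (rt N)‖ := by
  unfold kash ev
  rw [norm_mul, norm_zpow, Pool.Agent.N566.VV.rt_norm, one_zpow, one_mul]

lemma norm_of {D : Word} (hD : IsKnot D) {g : ℕ → ℂ → ℂ} (hg : Col D g) {N : ℕ}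
    (hN : Odd N) (hc : ContinuousAt (g N) (rt N)) : ‖g N (rt N)‖ = ‖kash D N‖ := by
  rw [norm_kash]
  exact norm_eq hD hD (fun _ _ _ _ => rfl) hg (col_of (colE_all hD.1 (knot_ne hD))) hN hc
    (cont_jones _ hN)

theorem kash_same {D E : Word} (hD : IsKnot D) (hE : IsKnot E) (h : Same D E) {N : ℕ}
    (hN : Odd N) : kash D N = kash E N :=
  exact_eq hD hE h (colE_all hD.1 (knot_ne hD)) (colE_all hE.1 (knot_ne hE)) hN
    (cont_jones _ hN) (cont_jones _ hN)

theorem kash_iso {D E : Word} (hD : IsKnot D) (h : Isotopic D E) {N : ℕ} (hN : Odd N) :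
    kash D N = kash E N :=
  kash_same hD ((Pool.Agent.H835R2.Knot.isotopic_knot h).1 hD) (fun _ _ hw _ => hw D E hD h) hN

theorem kash_not_sep {D E : Word} (hD : IsKnot D) (hE : IsKnot E) (h : ¬ Separated D E) {N : ℕ}
    (hN : Odd N) : kash D N = kash E N := by
  refine kash_same hD hE (fun n w hw hd => ?_) hN
  by_contra hne
  exact h ⟨n, w, hw, hd, hne⟩

/-- the exponential growth rate, times `2 π`, of the Kashaev invariants of odd colour -/
def GrowR (D : Word) (V : ℝ) : Prop := IsKnot D ∧ (∀ᶠ k : ℕ in atTop, kash D (2 * k + 1) ≠ 0) ∧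
  Tendsto (fun k : ℕ => 2 * Real.pi * (Real.log ‖kash D (2 * k + 1)‖ / ((2 * k + 1 : ℕ) : ℝ))) atTop
    (𝓝 V)

/-- an upper bound of the growth rate -/
def UpB (D : Word) (B : ℝ) : Prop := IsKnot D ∧ ∀ ε : ℝ, 0 < ε → ∀ᶠ k : ℕ in atTop,
  2 * Real.pi * (Real.log ‖kash D (2 * k + 1)‖ / ((2 * k + 1 : ℕ) : ℝ)) ≤ B + ε

lemma odd_atTop : Tendsto (fun k : ℕ => 2 * k + 1) atTop atTop := by
  refine tendsto_atTop_mono (fun k => ?_) tendsto_id
  show k ≤ 2 * k + 1
  omega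

theorem growR_unique {D E : Word} {V W : ℝ} (hD : GrowR D V) (hE : GrowR E W) (h : V ≠ W) :
    Separated D E := by
  by_contra hn
  refine h (tendsto_nhds_unique hD.2.2 (hE.2.2.congr fun k => ?_))
  rw [kash_not_sep hD.1 hE.1 hn ⟨k, rfl⟩]

theorem sep_of_upB {D E : Word} {B W : ℝ} (hD : UpB D B) (hE : GrowR E W) (h : B < W) :
    Separated D E := by
  by_contra hn
  have h1 := hD.2 ((W - B) / 2) (by linarith)
  have h2 : W ≤ B + (W - B) / 2 := by
    refine le_of_tendsto hE.2.2 ?_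
    filter_upwards [h1] with k hk
    rwa [← kash_not_sep hD.1 hE.1 hn ⟨k, rfl⟩]
  linarith

lemma growR_iso {D E : Word} {V : ℝ} (hD : GrowR D V) (h : Isotopic D E) : GrowR E V := by
  refine ⟨(Pool.Agent.H835R2.Knot.isotopic_knot h).1 hD.1, ?_, ?_⟩
  · filter_upwards [hD.2.1] with k hk
    rwa [← kash_iso hD.1 h ⟨k, rfl⟩]
  · exact hD.2.2.congr fun k => by rw [kash_iso hD.1 h ⟨k, rfl⟩]

lemma upB_iso {D E : Word} {B : ℝ} (hD : UpB D B) (h : Isotopic D E) : UpB E B := by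
  refine ⟨(Pool.Agent.H835R2.Knot.isotopic_knot h).1 hD.1, fun ε hε => ?_⟩
  filter_upwards [hD.2 ε hε] with k hk
  rwa [← kash_iso hD.1 h ⟨k, rfl⟩]

lemma growR_upB {D : Word} {V : ℝ} (h : GrowR D V) : UpB D V := by
  refine ⟨h.1, fun ε hε => ?_⟩
  exact (h.2.2.eventually (gt_mem_nhds (by linarith : V < V + ε))).mono fun k hk => hk.le

/-- if the growth rate is positive, then the invariants are not zero -/
lemma growR_pos {D : Word} {V : ℝ} (hD : IsKnot D) (hV : 0 < V)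
    (h : Tendsto (fun k : ℕ => 2 * Real.pi * (Real.log ‖kash D (2 * k + 1)‖ /
      ((2 * k + 1 : ℕ) : ℝ))) atTop (𝓝 V)) : GrowR D V := by
  refine ⟨hD, ?_, h⟩
  filter_upwards [h.eventually (lt_mem_nhds hV)] with k hk h0
  rw [h0] at hk
  simp at hk

theorem growR_of_grow {D : Word} {V : ℝ} (hV : 0 < V) (h : Grow D V) : GrowR D V := by
  obtain ⟨D₀, g, h1, h2, h3, h4, h5⟩ := h
  refine growR_iso (growR_pos h1 hV ?_) h2
  refine (h5.comp odd_atTop).congr fun k => ?_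
  simp only [Function.comp_apply]
  rw [norm_of h1 h3 ⟨k, rfl⟩ (h4 _ ⟨k, rfl⟩)]

/-! ### the unknot -/

lemma col_circle0 : ColE Pool.Agent.H835R2.Knot.circle (fun _ _ => 1) 0 := by
  intro N hN u hu σ
  have ha : Pool.Agent.H550R3.Jones.Adm N (u ^ 2) :=
    ⟨pow_ne_zero 2 hu.1, fun k hk _ => hu.2 k hk⟩
  rw [zero_mul, zpow_zero, one_mul, mul_one]
  show Pool.Agent.N566.VV.Bl (Pool.Agent.N566.VV.datJ N (u ^ 2)) 0
    (Pool.Agent.N566.VV.Dl (Pool.Agent.N566.VV.datJ N (u ^ 2)) 0 fun _ => 1) σ = _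
  unfold Pool.Agent.N566.VV.Bl Pool.Agent.N566.VV.Dl Pool.Agent.N566.VV.qd
  refine Finset.sum_congr rfl fun x _ => ?_
  have h1 : Pool.Agent.N566.VV.insS 0 x ((Pool.Agent.N566.VV.datJ N (u ^ 2)).rev x) σ 0 = x := rfl
  have h2 : Pool.Agent.N566.VV.insS 0 x ((Pool.Agent.N566.VV.datJ N (u ^ 2)).rev x) σ (0 + 1) =
    (Pool.Agent.N566.VV.datJ N (u ^ 2)).rev x := rfl
  rw [h1, h2, if_pos rfl, mul_one]
  exact Pool.Agent.N566.VV.kap_ratio hN ha x

lemma knot_circle : IsKnot Pool.Agent.H835R2.Knot.circle := by decide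

lemma kash_circle {N : ℕ} (hN : Odd N) : kash Pool.Agent.H835R2.Knot.circle N = 1 := by
  rw [← kash_of knot_circle col_circle0 hN continuousAt_const]
  simp [ev]

lemma growR_circle : GrowR Pool.Agent.H835R2.Knot.circle 0 := by
  refine ⟨knot_circle, Eventually.of_forall fun k => ?_, ?_⟩
  · rw [kash_circle ⟨k, rfl⟩]
    exact one_ne_zero
  · refine tendsto_const_nhds.congr fun k => ?_
    rw [kash_circle ⟨k, rfl⟩]
    simp

end Pool.Agent.L7h82.VV
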