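import Pool.Agent.L7h82.VV.CloD
import Pool.Agent.L7h82.VV.Kash

/-!
# The values of closures of (1,1)-tangles and of connected sums
-/

set_option autoImplicit false

namespace Pool.Agent.L7h82.VV

open Pool.Agent.H550R3.Jones (br brf Adm crossP crossN Gen irr tens WM IsInt W)
open Pool.Agent.W709.QAT (Diag run jones kap cup cap)
open Pool.Agent.H835R2.Knot (Word Front IsKnot Isotopic)
open Pool.Agent.N566.VV (val datJ qd ColE opD)
open Finset Matrix

/-- the operator of the word depends only on one strand, and does not touch further strands to the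
right -/
structure One (T : Word) : Prop where
  ext : ∀ {N : ℕ} (v : ℂ) (f g : List (Fin N) → ℂ), (∀ z, f [z] = g [z]) → ∀ x,
    run N v (trW T) f [x] = run N v (trW T) g [x]
  pass : ∀ {N : ℕ} (v : ℂ) (f : List (Fin N) → ℂ) (x : Fin N) (r : List (Fin N)),
    run N v (trW T) f (x :: r) = run N v (trW T) (fun t => f (t ++ r)) [x]

lemma trW_app (w w' : Word) : trW (w ++ w') = trW w' ++ trW w := by
  unfold trW
  rw [List.map_append, List.reverse_append]

lemma one_of {b : Bool} {T : Word} (h : IsTangle b T) : One T where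
  ext v f g hfg x := run_ext T (oneStrand b) h.1 f g (fun t ht => by
    rw [h.2] at ht
    obtain ⟨z, rfl⟩ := List.length_eq_one_iff.1 ht
    exact hfg z) [x] rfl
  pass v f x r := run_pass r T (oneStrand b) h.1 f [x] rfl

lemma one_app {T₁ T₂ : Word} (h₁ : One T₁) (h₂ : One T₂) : One (T₁ ++ T₂) where
  ext v f g hfg x := by
    rw [trW_app, run_app, run_app]
    exact h₁.ext v _ _ (fun z => h₂.ext v f g hfg z) x
  pass v f x r := by
    rw [trW_app, run_app, run_app, h₁.pass]
    exact h₁.ext v _ _ (fun z => h₂.pass v f z r) x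

/-- expansion of the value of a (1,1)-tangle -/
lemma one_run {T : Word} (h : One T) {N : ℕ} {u : ℂ} (hu : Gen u) (f : List (Fin N) → ℂ)
    (x : Fin N) : Pool.Agent.W709.QAT.run N (u ^ 2) (trW T) f [x] =
      f [x] * jones N (trW T) (u ^ 2) := by
  have h1 : Pool.Agent.W709.QAT.run N (u ^ 2) (trW T) f [x] =
      Pool.Agent.W709.QAT.run N (u ^ 2) (trW T) (fun t => ∑ z : Fin N, f [z] *
        (fun (z : Fin N) (t : List (Fin N)) => if t = [z] then (1 : ℂ) else 0) z t) [x] := by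
    refine h.ext _ _ _ (fun z => ?_) x
    rw [sum_eq_single z]
    · simp
    · intro y _ hy
      simp [Ne.symm hy]
    · simp
  rw [h1, run_sum]
  have h2 : ∀ z : Fin N, Pool.Agent.W709.QAT.run N (u ^ 2) (trW T)
      (fun t : List (Fin N) => if t = [z] then (1 : ℂ) else 0) [x] =
        if x = z then jones N (trW T) (u ^ 2) else 0 := fun z => ent_scalar hu (trW T) x z
  simp only [h2]
  rw [sum_eq_single x]
  · simp
  · intro y _ hy
    rw [if_neg (Ne.symm hy), mul_zero]
  · simp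

lemma jones_app {T₁ T₂ : Word} (h₁ : One T₁) {N : ℕ} (hN : 0 < N) {u : ℂ} (hu : Gen u) :
    jones N (trW (T₁ ++ T₂)) (u ^ 2) = jones N (trW T₁) (u ^ 2) * jones N (trW T₂) (u ^ 2) := by
  have h : ∀ T : Word, jones N (trW T) (u ^ 2) = Pool.Agent.W709.QAT.run N (u ^ 2) (trW T)
      (fun s => if s = [⟨0, hN⟩] then 1 else 0) [⟨0, hN⟩] := by
    intro T
    unfold jones
    rw [dif_pos hN]
  rw [h, trW_app, run_app, one_run h₁ hu, ← h T₂, mul_comm]

/-- the values of the closures -/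
theorem colE_closure {b : Bool} {T : Word} (hT : One T)
    (hD : Pool.Agent.H835R2.Knot.Closed (closure b T)) :
    ColE (closure b T) (fun N v => jones N (trW T) v) (expo (closure b T) Front.empty) := by
  intro N hN u hu σ
  have hv : u ^ 2 ≠ 0 := pow_ne_zero 2 hu.1
  have ha : Adm N (u ^ 2) := ⟨hv, fun k hk _ => hu.2 k hk⟩
  have h1 := opD_run hN hv σ (fun _ => 1) _ Front.empty [] hD.1 rfl
  rw [join_nil] at h1
  have h2 : val (datJ N (u ^ 2)) (closure b T) σ =
      opD (datJ N (u ^ 2)) (closure b T) Front.empty (fun _ => 1) σ := rfl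
  rw [h2, h1]
  congr 1
  have h3 : trW (closure b T) = (trW [.death 0] ++ trW T) ++ [trP (.birth 0 b)] := by
    unfold closure
    rw [trW_cons, trW_app]
  rw [h3, run_app, run_app, run_one]
  set R : List (Fin N) → ℂ := Pool.Agent.W709.QAT.run N (u ^ 2) (trW T)
    (Pool.Agent.W709.QAT.run N (u ^ 2) (trW [.death 0]) fun _ => 1) with hR
  have h4 : (trP (.birth 0 b)).act N (u ^ 2) R [] =
      ∑ x : Fin N, (kap N (u ^ 2) (Fin.rev x : Fin N))⁻¹ * R [x, Fin.rev x] := by
    show ∑ p : Fin N × Fin N, cap N (u ^ 2) p * R ([].take 0 ++ p.1 :: p.2 :: [].drop 0) = _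
    exact sum_cap (u ^ 2) fun x y => R [x, y]
  rw [h4]
  have h5 : ∀ x : Fin N, R [x, Fin.rev x] = kap N (u ^ 2) x * jones N (trW T) (u ^ 2) := by
    intro x
    rw [hR, hT.pass, one_run hT hu]
    congr 1
    show cup N (u ^ 2) (x, Fin.rev x) * 1 = _
    rw [cup_rev, if_pos rfl, mul_one]
  unfold qd
  rw [sum_mul]
  refine sum_congr rfl fun x _ => ?_
  rw [h5, ← mul_assoc]
  congr 1
  have h9 := Pool.Agent.N566.VV.kap_ratio hN ha x
  rw [kap_kap, kap_kap] at h9
  exact h9

/-- the values of connected sums -/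
theorem colE_sum {b : Bool} {T₁ T₂ : Word} (h₁ : One T₁) (h₂ : One T₂)
    (hD : Pool.Agent.H835R2.Knot.Closed (closure b (T₁ ++ T₂))) :
    ColE (closure b (T₁ ++ T₂)) (fun N v => jones N (trW T₁) v * jones N (trW T₂) v)
      (expo (closure b (T₁ ++ T₂)) Front.empty) := by
  intro N hN u hu σ
  have h := colE_closure (one_app h₁ h₂) hD N hN u hu σ
  simp only [jones_app h₁ hN.pos hu] at h
  exact h

open Pool.Agent.N566.VV (ev rt) in
/-- the Kashaev invariants of connected sums, up to framing factors -/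
theorem kash_sum {D₁ D₂ D : Word} (h : IsSum D₁ D₂ D) : IsKnot D₁ ∧ IsKnot D₂ ∧ IsKnot D ∧
    ∃ c : ℤ, ∀ N : ℕ, Odd N →
      kash D N = rt N ^ (c * ((N : ℤ) ^ 2 - 1)) * (kash D₁ N * kash D₂ N) := by
  obtain ⟨b, T₁, T₂, t₁, t₂, k₁, i₁, k₂, i₂, k₃, i₃⟩ := h
  have o₁ := one_of t₁
  have o₂ := one_of t₂
  refine ⟨(Pool.Agent.H835R2.Knot.isotopic_knot i₁).1 k₁,
    (Pool.Agent.H835R2.Knot.isotopic_knot i₂).1 k₂,
    (Pool.Agent.H835R2.Knot.isotopic_knot i₃).1 k₃,
    expo (closure b (T₁ ++ T₂)) Front.empty - expo (closure b T₁) Front.empty -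
      expo (closure b T₂) Front.empty, fun N hN => ?_⟩
  rw [← kash_iso k₁ i₁ hN, ← kash_iso k₂ i₂ hN, ← kash_iso k₃ i₃ hN,
    ← kash_of k₁ (colE_closure o₁ k₁.1) hN (cont_jones _ hN),
    ← kash_of k₂ (colE_closure o₂ k₂.1) hN (cont_jones _ hN),
    ← kash_of k₃ (colE_sum o₁ o₂ k₃.1) hN ((cont_jones _ hN).mul (cont_jones _ hN))]
  unfold ev
  have hr := Pool.Agent.N566.VV.rt_ne N
  rw [sub_mul, sub_mul, zpow_sub₀ hr, zpow_sub₀ hr]
  have e1 := zpow_ne_zero (expo (closure b T₁) Front.empty * ((N : ℤ) ^ 2 - 1)) hr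
  have e2 := zpow_ne_zero (expo (closure b T₂) Front.empty * ((N : ℤ) ^ 2 - 1)) hr
  field_simp

end Pool.Agent.L7h82.VV
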