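import Pool.Agent.L7h82.VV.BraidD
import Pool.Agent.L7h82.VV.Clo

/-!
# The values of closures of braids
-/

set_option autoImplicit false

namespace Pool.Agent.L7h82.VV

open Pool.Agent.H550R3.Jones (br brf Adm crossP crossN Gen gen rep tail cjones)
open Pool.Agent.W709.QAT (Diag run jones kap cup cap)
open Pool.Agent.H835R2.Knot (Word Front)
open Pool.Agent.N566.VV (letW)
open Finset Matrix

/-- nested maxima -/
def birthsW (j m : ℕ) : Word := (List.range m).map fun i => .birth (j + i) true

/-- nested minima -/
def deathsW (j m : ℕ) : Word := ((List.range m).map fun i => .death (j + i)).reverse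

lemma births_succ (j m : ℕ) : birthsW j (m + 1) = .birth j true :: birthsW (j + 1) m := by
  unfold birthsW
  rw [List.range_succ_eq_map, List.map_cons, List.map_map]
  congr 1
  refine List.map_congr_left fun i _ => ?_
  simp only [Function.comp_apply]
  congr 1
  omega

lemma deaths_succ (j m : ℕ) : deathsW j (m + 1) = deathsW (j + 1) m ++ [.death j] := by
  unfold deathsW
  rw [List.range_succ_eq_map, List.map_cons, List.map_map, List.reverse_cons]
  congr 2
  refine List.map_congr_left fun i _ => ?_
  simp only [Function.comp_apply]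
  congr 1
  omega

lemma braidW_eq (n : ℕ) (w : List (ℕ × Bool)) :
    braidW n w = birthsW 0 (n + 1) ++ (w.map letW ++ deathsW 0 (n + 1)) := by
  unfold braidW birthsW deathsW
  simp only [zero_add]

section

variable {N : ℕ}

/-- the labels of the strands on the right -/
def mir (s : List (Fin N)) : List (Fin N) := (s.map Fin.rev).reverse

lemma mir_cons (a : Fin N) (s : List (Fin N)) : mir (a :: s) = mir s ++ [Fin.rev a] := by
  unfold mir
  rw [List.map_cons, List.reverse_cons]

lemma mir_length (s : List (Fin N)) : (mir s).length = s.length := by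
  unfold mir
  simp

lemma mir_inj {s t : List (Fin N)} (h : mir s = mir t) : s = t := by
  unfold mir at h
  exact List.map_injective_iff.2 Fin.rev_injective (List.reverse_injective h)

lemma run_births (v : ℂ) (R : List (Fin N) → ℂ) : ∀ (m j : ℕ) (p q : List (Fin N)),
    p.length = j → run N v (trW (birthsW j m)) R (p ++ q) =
      ∑ t : Fin m → Fin N, (∏ i, (kap N v (Fin.rev (t i) : Fin N))⁻¹) *
        R (p ++ List.ofFn t ++ (mir (List.ofFn t) ++ q)) := by
  intro m
  induction m with
  | zero =>
    intro j p q _
    simp [birthsW, trW, run, mir]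
  | succ m ih =>
    rintro j p q rfl
    rw [births_succ, trW_cons, run_app, run_one]
    have e : ∀ G : List (Fin N) → ℂ, (trP (.birth p.length true)).act N v G (p ++ q) =
        ∑ x : Fin N, (kap N v (Fin.rev x : Fin N))⁻¹ * G (p ++ x :: Fin.rev x :: q) := by
      intro G
      show ∑ a : Fin N × Fin N, cap N v a *
        G ((p ++ q).take p.length ++ a.1 :: a.2 :: (p ++ q).drop p.length) = _
      rw [List.take_left, List.drop_left]
      exact sum_cap v fun x y => G (p ++ x :: y :: q)
    rw [e, ← (Fin.consEquiv fun _ : Fin (m + 1) => Fin N).sum_comp, Fintype.sum_prod_type]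
    refine sum_congr rfl fun x _ => ?_
    have e2 : p ++ x :: Fin.rev x :: q = (p ++ [x]) ++ (Fin.rev x :: q) := by simp
    rw [e2, ih (p.length + 1) (p ++ [x]) (Fin.rev x :: q) (by simp), mul_sum]
    refine sum_congr rfl fun t _ => ?_
    simp only [Fin.consEquiv_apply, Fin.prod_univ_succ, Fin.cons_zero, Fin.cons_succ,
      List.ofFn_succ, mir_cons]
    rw [mul_assoc]
    congr 3
    simp

lemma run_deaths (v : ℂ) : ∀ (m j : ℕ) (F : List (Fin N) → ℂ) (p l r q : List (Fin N)),
    p.length = j → l.length = m → r.length = m →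
    run N v (trW (deathsW j m)) F (p ++ l ++ (r ++ q)) =
      (if r = mir l then (l.map fun a : Fin N => kap N v (a : ℕ)).prod else 0) * F (p ++ q) := by
  intro m
  induction m with
  | zero =>
    intro j F p l r q _ hl hr
    rw [List.length_eq_zero_iff] at hl hr
    subst hl hr
    simp [deathsW, trW, run, mir]
  | succ m ih =>
    rintro j F p l r q rfl hl hr
    obtain ⟨a, l, rfl⟩ := List.exists_cons_of_length_eq_add_one hl
    obtain ⟨r, b, rfl⟩ : ∃ (r' : List (Fin N)) (b : Fin N), r = r' ++ [b] := by
      refine ⟨r.dropLast, r.getLast (by rintro rfl; simp at hr), ?_⟩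
      rw [List.dropLast_append_getLast]
    simp only [List.length_cons, add_left_inj] at hl
    simp only [List.length_append, List.length_cons, List.length_nil, zero_add,
      add_left_inj] at hr
    rw [deaths_succ, trW_app, run_app]
    have e : p ++ a :: l ++ (r ++ [b] ++ q) = (p ++ [a]) ++ l ++ (r ++ (b :: q)) := by simp
    rw [e, ih (p.length + 1) _ (p ++ [a]) l r (b :: q) (by simp) hl hr]
    have e2 : run N v (trW [.death p.length]) F (p ++ [a] ++ b :: q) =
        cup N v (a, b) * F (p ++ q) := by
      show (match (p ++ [a] ++ b :: q).drop p.length with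
        | x :: y :: r => cup N v (x, y) * F ((p ++ [a] ++ b :: q).take p.length ++ r)
        | _ => 0) = _
      rw [List.append_assoc, List.take_left, List.drop_left]
      rfl
    rw [e2, mir_cons, cup_rev]
    by_cases h1 : r = mir l
    · by_cases h2 : b = Fin.rev a
      · rw [if_pos h1, if_pos h2, if_pos (by rw [h1, h2]), List.map_cons, List.prod_cons]
        ring
      · have h3 : ¬ (r ++ [b] = mir l ++ [Fin.rev a]) := by
          intro h
          have h4 := List.append_inj_right' h rfl
          exact h2 (by simpa using h4)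
        rw [if_neg h2, if_neg h3]
        ring
    · have h3 : ¬ (r ++ [b] = mir l ++ [Fin.rev a]) := fun h => h1 (List.append_inj_left' h rfl)
      rw [if_neg h1, if_neg h3]
      ring

/-- a crossing on the first strands -/
lemma act_gen (A : Matrix (Fin N × Fin N) (Fin N × Fin N) ℂ) {m k : ℕ} (hk : k + 1 < m)
    (G : List (Fin N) → ℂ) (s : Fin m → Fin N) (r : List (Fin N)) :
    (match (List.ofFn s ++ r).drop k with
      | a :: b :: q => ∑ p : Fin N × Fin N, A (a, b) p *
          G ((List.ofFn s ++ r).take k ++ p.1 :: p.2 :: q)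
      | _ => 0) = ∑ t : Fin m → Fin N, gen A m k s t * G (List.ofFn t ++ r) := by
  obtain ⟨l, t, a, b, h1, h2⟩ := split2 (s := List.ofFn s) (i := k) (by simp; omega)
  subst h2
  have ha : s ⟨l.length, by omega⟩ = a := by
    have h3 : (List.ofFn s)[l.length]? = some a := by
      rw [h1]
      simp
    rw [List.getElem?_ofFn] at h3
    rw [dif_pos (by omega)] at h3
    exact Option.some_injective _ h3
  have hb : s ⟨l.length + 1, hk⟩ = b := by
    have h3 : (List.ofFn s)[l.length + 1]? = some b := by
      rw [h1]
      simp
    rw [List.getElem?_ofFn] at h3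
    rw [dif_pos hk] at h3
    exact Option.some_injective _ h3
  have e1 : (List.ofFn s ++ r).drop l.length = a :: b :: (t ++ r) := by
    rw [h1, List.append_assoc, List.drop_left]
    simp
  have e2 : (List.ofFn s ++ r).take l.length = l := by
    rw [h1, List.append_assoc, List.take_left]
  rw [e1, e2]
  show ∑ p : Fin N × Fin N, A (a, b) p * G (l ++ p.1 :: p.2 :: (t ++ r)) = _
  set φ : Fin N × Fin N → (Fin m → Fin N) := fun p =>
    Function.update (Function.update s ⟨l.length, by omega⟩ p.1) ⟨l.length + 1, hk⟩ p.2 with hφ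
  have hne : (⟨l.length, by omega⟩ : Fin m) ≠ ⟨l.length + 1, hk⟩ := by
    intro h
    rw [Fin.mk.injEq] at h
    omega
  have f1 : ∀ p, φ p ⟨l.length, by omega⟩ = p.1 := by
    intro p
    simp only [hφ]
    rw [Function.update_of_ne hne, Function.update_self]
  have f2 : ∀ p, φ p ⟨l.length + 1, hk⟩ = p.2 := by
    intro p
    simp only [hφ]
    rw [Function.update_self]
  have f3 : ∀ p (j : Fin m), (j : ℕ) ≠ l.length → (j : ℕ) ≠ l.length + 1 → φ p j = s j := by
    intro p j hj hj'
    simp only [hφ]
    rw [Function.update_of_ne, Function.update_of_ne]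
    · intro h; exact hj (by rw [h])
    · intro h; exact hj' (by rw [h])
  have hinj : Function.Injective φ := by
    intro p q h
    have h3 := congrFun h ⟨l.length, by omega⟩
    have h4 := congrFun h ⟨l.length + 1, hk⟩
    rw [f1, f1] at h3
    rw [f2, f2] at h4
    exact Prod.ext h3 h4
  rw [← Finset.sum_subset (Finset.subset_univ (univ.image φ)), Finset.sum_image hinj.injOn]
  · refine sum_congr rfl fun p _ => ?_
    have g1 : gen A m l.length s (φ p) = A (a, b) p := by
      unfold gen
      rw [dif_pos hk, if_pos (fun j hj hj' => (f3 p j hj hj').symm), f1, f2, ha, hb]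
    have g2 : List.ofFn (φ p) = l ++ p.1 :: p.2 :: t := by
      apply List.ext_getElem
      · have := congrArg List.length h1
        simp at this ⊢
        omega
      · intro i hi hi'
        rw [List.getElem_ofFn]
        have h5 : ∀ (hi : i < (List.ofFn s).length), (List.ofFn s)[i] = (l ++ a :: b :: t)[i]'(by
            rw [← h1]; exact hi) := by
          intro hi
          simp only [h1]
        have him : i < m := by simpa using hi
        have h6 := h5 (by simpa using him)
        rw [List.getElem_ofFn] at h6
        rcases lt_trichotomy i l.length with h | h | h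
        · rw [f3 p _ (by simp; omega) (by simp; omega), h6, List.getElem_append_left h,
            List.getElem_append_left h]
        · subst h
          rw [f1]
          simp
        · rcases Nat.lt_or_ge (l.length + 1) i with h' | h'
          · rw [f3 p _ (by simp; omega) (by simp; omega), h6,
              List.getElem_append_right (by omega), List.getElem_append_right (by omega)]
            obtain ⟨e, he⟩ : ∃ e, i - l.length = e + 2 := ⟨i - l.length - 2, by omega⟩
            simp only [he, List.getElem_cons_succ]
          · have : i = l.length + 1 := by omega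
            subst this
            rw [f2]
            simp
    rw [g1, g2]
    simp
  · intro q _ hq
    rw [show gen A m l.length s q = 0 from ?_, zero_mul]
    unfold gen
    rw [dif_pos hk, if_neg]
    intro h
    apply hq
    rw [Finset.mem_image]
    refine ⟨(q ⟨l.length, by omega⟩, q ⟨l.length + 1, hk⟩), mem_univ _, ?_⟩
    funext j
    by_cases hj : (j : ℕ) = l.length
    · have : j = ⟨l.length, by omega⟩ := Fin.ext hj
      rw [this, f1]
    · by_cases hj' : (j : ℕ) = l.length + 1
      · have : j = ⟨l.length + 1, hk⟩ := Fin.ext hj'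
        rw [this, f2]
      · rw [f3 _ j hj hj', h j hj hj']

lemma run_letters (v : ℂ) (G : List (Fin N) → ℂ) {m : ℕ} (r : List (Fin N)) :
    ∀ w : List (ℕ × Bool), (∀ g ∈ w, g.1 + 1 < m) → ∀ s : Fin m → Fin N,
      run N v (trW (w.map letW)) G (List.ofFn s ++ r) =
        ∑ t : Fin m → Fin N, rep (crossP N v) (crossN N v) m w s t * G (List.ofFn t ++ r) := by
  intro w
  induction w with
  | nil =>
    intro _ s
    have e : rep (crossP N v) (crossN N v) m [] = 1 := rfl
    rw [e]
    simp only [Matrix.one_apply, ite_mul, one_mul, zero_mul]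
    rw [Finset.sum_ite_eq]
    simp [trW, run]
  | cons g w ih =>
    intro hw s
    have hg := hw g List.mem_cons_self
    have ih' := ih fun g' hg' => hw g' (List.mem_cons_of_mem _ hg')
    rw [List.map_cons, trW_cons, run_app, run_one]
    have e : ∀ R : List (Fin N) → ℂ, (trP (letW g)).act N v R (List.ofFn s ++ r) =
        ∑ t : Fin m → Fin N, gen (if g.2 then crossP N v else crossN N v) m g.1 s t *
          R (List.ofFn t ++ r) := by
      intro R
      rw [← act_gen _ hg R s r]
      obtain ⟨k, b⟩ := g
      have h : trP (letW (k, b)) = .twist k b 1 := by cases b <;> rfl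
      rw [h]
      simp only [Pool.Agent.W709.QAT.Piece.act, pow_one]
      rfl
    rw [e]
    have e2 : rep (crossP N v) (crossN N v) m (g :: w) =
        gen (if g.2 then crossP N v else crossN N v) m g.1 *
          rep (crossP N v) (crossN N v) m w := by
      unfold rep
      rw [List.map_cons, List.prod_cons]
    rw [e2]
    simp only [ih', Matrix.mul_apply, mul_sum, sum_mul]
    rw [sum_comm]
    exact sum_congr rfl fun t _ => sum_congr rfl fun t' _ => by ring

/-- the (1,1)-tangle of the closure of a braid is the partial trace -/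
theorem ent_braid (hN : Odd N) {v : ℂ} (hv : Adm N v) {n : ℕ} {w : List (ℕ × Bool)}
    (hw : ∀ g ∈ w, g.1 < n) (x y : Fin N) :
    ent v (cut (braidW n w)) x y = tail (fun z : Fin N => v ^ ((N : ℤ) - 1 - 2 * (z : ℕ))) n
      (rep (crossP N v) (crossN N v) (n + 1) w) x y := by
  have hkne : ∀ z : Fin N, kap N v z ≠ 0 := by
    intro z
    unfold kap
    refine mul_ne_zero (mul_ne_zero (pow_ne_zero _ (by norm_num)) (zpow_ne_zero _ hv.1)) ?_
    exact div_ne_zero (mul_ne_zero (Pool.Agent.N566.VV.brf_ne' hv z.2)
      (Pool.Agent.N566.VV.brf_ne' hv (by have := z.2; omega)))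
      (Pool.Agent.N566.VV.brf_ne' hv (by have := z.2; omega))
  have hratio : ∀ z : Fin N, (kap N v (Fin.rev z : Fin N))⁻¹ * kap N v z =
      v ^ ((N : ℤ) - 1 - 2 * (z : ℕ)) := by
    intro z
    have h9 := Pool.Agent.N566.VV.kap_ratio hN hv z
    rw [kap_kap, kap_kap] at h9
    exact h9
  have hcut : cut (braidW n w) = (trW (deathsW 0 (n + 1)) ++ trW (w.map letW)) ++
      trW (birthsW 1 n) ++ [.cap 1] := by
    rw [braidW_eq, births_succ]
    show trW (birthsW (0 + 1) n ++ (w.map letW ++ deathsW 0 (n + 1))) ++ [.cap 1] = _
    rw [trW_app, trW_app, zero_add]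
  unfold ent
  rw [hcut, run_app, run_one, run_app, run_app]
  set R : List (Fin N) → ℂ := run N v (trW (w.map letW)) (run N v (trW (deathsW 0 (n + 1)))
    fun s => if s = [y] then 1 else 0) with hR
  have h1 := sum_cap v fun z z' : Fin N => run N v (trW (birthsW 1 n)) R ([x, z, z'])
  refine h1.trans ?_
  have h2 : ∀ z : Fin N, run N v (trW (birthsW 1 n)) R [x, z, Fin.rev z] =
      if z = Fin.rev y then kap N v y * tail (fun z : Fin N => v ^ ((N : ℤ) - 1 - 2 * (z : ℕ))) n
        (rep (crossP N v) (crossN N v) (n + 1) w) x y else 0 := by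
    intro z
    have e1 : [x, z, Fin.rev z] = [x] ++ [z, Fin.rev z] := rfl
    rw [e1, run_births v R n 1 [x] [z, Fin.rev z] rfl]
    have e2 : ∀ t : Fin n → Fin N, R ([x] ++ List.ofFn t ++ (mir (List.ofFn t) ++
        [z, Fin.rev z])) = if z = Fin.rev y then
          rep (crossP N v) (crossN N v) (n + 1) w (Fin.cons x t) (Fin.cons y t) *
            (kap N v y * ∏ i, kap N v (t i)) else 0 := by
      intro t
      have e3 : [x] ++ List.ofFn t = List.ofFn (Fin.cons x t : Fin (n + 1) → Fin N) := by
        rw [List.ofFn_succ]
        simp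
      rw [e3, hR, run_letters v _ _ w (fun g hg => by have := hw g hg; omega)]
      have e4 : ∀ s : Fin (n + 1) → Fin N, run N v (trW (deathsW 0 (n + 1)))
          (fun s => if s = [y] then 1 else 0) (List.ofFn s ++ (mir (List.ofFn t) ++
            [z, Fin.rev z])) = if s = Fin.cons (Fin.rev z) t ∧ z = Fin.rev y then
              kap N v y * ∏ i, kap N v (t i) else 0 := by
        intro s
        have e5 : List.ofFn s ++ (mir (List.ofFn t) ++ [z, Fin.rev z]) =
            [] ++ List.ofFn s ++ ((mir (List.ofFn t) ++ [z]) ++ [Fin.rev z]) := by simp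
        rw [e5, run_deaths v (n + 1) 0 _ [] (List.ofFn s) (mir (List.ofFn t) ++ [z]) [Fin.rev z] rfl
          (by simp) (by simp [mir_length])]
        have e6 : mir (List.ofFn t) ++ [z] =
            mir (List.ofFn (Fin.cons (Fin.rev z) t : Fin (n + 1) → Fin N)) := by
          rw [List.ofFn_succ, mir_cons]
          simp
        have e7 : (mir (List.ofFn t) ++ [z] = mir (List.ofFn s)) ↔
            s = Fin.cons (Fin.rev z) t := by
          rw [e6]
          constructor
          · intro h
            exact (List.ofFn_injective (mir_inj h)).symm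
          · intro h
            rw [h]
        have e8 : (([] ++ [Fin.rev z] : List (Fin N)) = [y]) ↔ z = Fin.rev y := by
          simp only [List.nil_append, List.cons.injEq, and_true]
          constructor
          · intro h
            rw [← h, Fin.rev_rev]
          · intro h
            rw [h, Fin.rev_rev]
        by_cases c1 : s = Fin.cons (Fin.rev z) t
        · by_cases c2 : z = Fin.rev y
          · rw [if_pos (e7.2 c1), if_pos (e8.2 c2), if_pos ⟨c1, c2⟩, mul_one, c1,
              List.ofFn_succ, List.map_cons, List.prod_cons]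
            simp only [Fin.cons_zero, Fin.cons_succ, List.map_ofFn, List.prod_ofFn,
              Function.comp_apply]
            rw [c2, Fin.rev_rev]
          · have n1 : ¬ (([] ++ [Fin.rev z] : List (Fin N)) = [y]) := fun h => c2 (e8.1 h)
            have n2 : ¬ (s = Fin.cons (Fin.rev z) t ∧ z = Fin.rev y) := fun h => c2 h.2
            rw [if_neg n1, if_neg n2, mul_zero]
        · have n1 : ¬ (mir (List.ofFn t) ++ [z] = mir (List.ofFn s)) := fun h => c1 (e7.1 h)
          have n2 : ¬ (s = Fin.cons (Fin.rev z) t ∧ z = Fin.rev y) := fun h => c1 h.1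
          rw [if_neg n1, if_neg n2, zero_mul]
      simp only [e4]
      by_cases c2 : z = Fin.rev y
      · rw [if_pos c2, sum_eq_single (Fin.cons y t)]
        · rw [if_pos ⟨by rw [c2, Fin.rev_rev], c2⟩]
        · intro s _ hs
          rw [if_neg, mul_zero]
          rintro ⟨h, -⟩
          apply hs
          rw [h, c2, Fin.rev_rev]
        · simp
      · rw [if_neg c2]
        refine sum_eq_zero fun s _ => ?_
        rw [if_neg (fun h => c2 h.2), mul_zero]
    simp only [e2]
    by_cases c2 : z = Fin.rev y
    · simp only [if_pos c2]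
      unfold tail
      rw [mul_sum]
      refine sum_congr rfl fun t _ => ?_
      have e9 : ∏ i, v ^ ((N : ℤ) - 1 - 2 * ((t i : Fin N) : ℕ)) =
          (∏ i, (kap N v (Fin.rev (t i) : Fin N))⁻¹) * ∏ i, kap N v (t i) := by
        rw [← Finset.prod_mul_distrib]
        exact Finset.prod_congr rfl fun i _ => (hratio (t i)).symm
      rw [e9]
      ring
    · simp only [if_neg c2, mul_zero, Finset.sum_const_zero]
  simp only [h2]
  rw [sum_eq_single (Fin.rev y)]
  · rw [if_pos rfl, Fin.rev_rev, ← mul_assoc, inv_mul_cancel₀ (hkne y), one_mul]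
  · intro z _ hz
    rw [if_neg hz, mul_zero]
  · simp

/-- the coloured Jones polynomials of the closures of braids -/
theorem jones_braid (hN : Odd N) {v : ℂ} (hv : Adm N v) {n : ℕ} {w : List (ℕ × Bool)}
    (hw : ∀ g ∈ w, g.1 < n) : jones N (cut (braidW n w)) v = cjones N n w v := by
  have h := ent_braid hN hv hw ⟨0, hN.pos⟩ ⟨0, hN.pos⟩
  have h1 : jones N (cut (braidW n w)) v = ent v (cut (braidW n w)) ⟨0, hN.pos⟩ ⟨0, hN.pos⟩ := by
    unfold jones ent
    rw [dif_pos hN.pos]
  rw [h1, h]
  unfold cjones
  rw [dif_pos hN.pos]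

end

lemma adm_rt (N : ℕ) : Adm N (Pool.Agent.N566.VV.rt N) :=
  ⟨Pool.Agent.N566.VV.rt_ne N, fun k hk hkN => Pool.Agent.W613.QAT.br_rt k hk hkN⟩

theorem norm_kash_braid {n : ℕ} {w : List (ℕ × Bool)} (hw : ∀ g ∈ w, g.1 < n) {N : ℕ}
    (hN : Odd N) : ‖kash (braidW n w) N‖ = ‖cjones N n w (Pool.Agent.N566.VV.rt N)‖ := by
  rw [norm_kash, jones_braid hN (adm_rt N) hw]

end Pool.Agent.L7h82.VV
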