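import Pool.Agent.N566.VV.Defs

/-!
# Closures of braid words as sliced diagrams
-/

set_option autoImplicit false

namespace Pool.Agent.L7h82.VV

open Pool.Agent.H835R2.Knot (Word)
open Pool.Agent.N566.VV (letW)

/-- the closure of the braid word `w` on `n + 1` strands: the letter `(k, true)` is a crossing `pos k`,
the letter `(k, false)` a crossing `neg k`; the strands of the braid are directed downwards. -/
def braidW (n : ℕ) (w : List (ℕ × Bool)) : Word :=
  (List.range (n + 1)).map (fun i => .birth i true) ++
    (w.map letW ++ ((List.range (n + 1)).map fun i => .death i).reverse)

end Pool.Agent.L7h82.VV
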