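import Pool.Agent.H835R2.Knot.Defs

/-!
# Closures of (1,1)-tangle diagrams and connected sums

Sliced oriented diagrams as in `Pool.Agent.H835R2.Knot.Defs`.
-/

set_option autoImplicit false

namespace Pool.Agent.L7h82.VV

open Pool.Agent.H835R2.Knot (Word Front Fits run IsKnot Isotopic)

/-- one strand, directed downwards if `b = true` and upwards if `b = false` -/
def oneStrand (b : Bool) : Front := ⟨1, fun _ => b, fun p => p⟩

/-- `T` is a (1,1)-tangle diagram: there is one strand at the top (with the direction `b`) and one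
strand at the bottom. -/
def IsTangle (b : Bool) (T : Word) : Prop :=
  Fits T (oneStrand b) ∧ (run T (oneStrand b)).n = 1

/-- the closure of a (1,1)-tangle diagram, by a strand to its right -/
def closure (b : Bool) (T : Word) : Word := .birth 0 b :: (T ++ [.death 0])

/-- The knot `D` is a connected sum of the knots `D₁` and `D₂`: there are (1,1)-tangle diagrams `T₁`
and `T₂` such that `D₁`, `D₂` and `D` are isotopic to the closures of `T₁`, of `T₂` and of `T₁`
followed by `T₂`. -/
def IsSum (D₁ D₂ D : Word) : Prop :=
  ∃ (b : Bool) (T₁ T₂ : Word), IsTangle b T₁ ∧ IsTangle b T₂ ∧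
    IsKnot (closure b T₁) ∧ Isotopic (closure b T₁) D₁ ∧
    IsKnot (closure b T₂) ∧ Isotopic (closure b T₂) D₂ ∧
    IsKnot (closure b (T₁ ++ T₂)) ∧ Isotopic (closure b (T₁ ++ T₂)) D

end Pool.Agent.L7h82.VV
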