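import Pool.Agent.N566.VV.Stm4
import Pool.Agent.N768.VV.Ring
import Pool.Agent.N663.VV.TwE

/-!
# The value of a ring of tangles, with the exact framing factor (S_RINGE)

After `Pool.Agent.N768.VV.Ring` and `Pool.Agent.N663.VV.TwE`.
-/

set_option autoImplicit false

namespace Pool.Agent.L7h82.VV

open Pool.Agent.N566.VV Pool.Agent.H835R2.Knot
open Pool.Agent.H550R3.Jones (br brf Adm crossP crossN gen rep tail Gen)
open Pool.Agent.N768.VV (Op Op_mul Op_one Op_smul Op_gen opD_append plain_letW plain_birth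
  plain_death weight closeup tail_two fullTwists_lt)
open Pool.Agent.N663.VV (Rep)
open Finset

/-- a letter -/
theorem let_E (A : Front) (g : ℕ × Bool) : ∃ c : ℤ, ∀ N : ℕ, Odd N → ∀ v : ℂ, Adm N v →
    ∀ f : F (Fin N), opP (datJ N v) (letW g) A.dir f =
      v ^ (c * ((N : ℤ) ^ 2 - 1)) • Xl (if g.2 then crossP N v else crossN N v) g.1 f := by
  obtain ⟨i, b⟩ := g
  cases b with
  | true =>
    obtain ⟨c, hc⟩ := Rep.pos A i
    exact ⟨c, fun N hN v hv f => hc N hN v hv f⟩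
  | false =>
    obtain ⟨c, hc⟩ := Rep.neg A i
    exact ⟨c, fun N hN v hv f => hc N hN v hv f⟩

theorem mid1E (w : List (ℕ × Bool)) : (∀ g ∈ w, g.1 + 1 < 3) →
    ∀ (D : Word) (A : Front), D.map plain = w.map letW →
    ∃ c : ℤ, ∀ N : ℕ, Odd N → ∀ v : ℂ, Adm N v → ∀ f : F (Fin N),
      opD (datJ N v) D A f = v ^ (c * ((N : ℤ) ^ 2 - 1)) •
        Op (rep (crossP N v) (crossN N v) 3 w) f := by
  induction w with
  | nil =>
    intro _ D A hD
    rw [List.map_nil, List.map_eq_nil_iff] at hD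
    subst hD
    refine ⟨0, fun N _ v _ f => ?_⟩
    have h1 : rep (crossP N v) (crossN N v) 3 [] = 1 := rfl
    rw [h1, Op_one, zero_mul, zpow_zero, one_smul]
    rfl
  | cons g w ih =>
    intro hw D A hD
    rcases D with _ | ⟨p, D⟩
    · simp at hD
    rw [List.map_cons, List.map_cons, List.cons.injEq] at hD
    have hp := plain_letW hD.1
    subst hp
    obtain ⟨e1, he1⟩ := let_E A g
    obtain ⟨e2, he2⟩ := ih (fun g hg => hw g (List.mem_cons_of_mem _ hg)) D _ hD.2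
    refine ⟨e1 + e2, fun N hN v hv f => ?_⟩
    show opP (datJ N v) (letW g) A.dir (opD (datJ N v) D ((letW g).act A) f) = _
    rw [he2 N hN v hv, he1 N hN v hv]
    have h1 : rep (crossP N v) (crossN N v) 3 (g :: w) =
        gen (if g.2 then crossP N v else crossN N v) 3 g.1 * rep (crossP N v) (crossN N v) 3 w := by
      unfold rep
      rw [List.map_cons, List.prod_cons]
    rw [h1, Op_mul, ← Op_gen _ _ (hw g List.mem_cons_self), Op_smul, smul_smul, add_mul,
      zpow_add₀ hv.1]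

theorem mid2E (h : S_TWE) (ts : List (Tr × Tr)) :
    ∀ (D : Word) (A : Front),
    D.map plain = (ts.map fun p => tangleW 0 p.1 ++ tangleW 1 p.2).flatten →
    ∃ c : ℤ, ∀ N : ℕ, Odd N → ∀ v : ℂ, Adm N v → ∀ f : F (Fin N),
      opD (datJ N v) D A f = v ^ (c * ((N : ℤ) ^ 2 - 1)) • Op ((ts.map fun p =>
        gen (tangle N v p.1) 3 0 * gen (tangle N v p.2) 3 1).prod) f := by
  induction ts with
  | nil =>
    intro D A hD
    rw [List.map_nil, List.flatten_nil, List.map_eq_nil_iff] at hD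
    subst hD
    refine ⟨0, fun N _ v _ f => ?_⟩
    rw [List.map_nil, List.prod_nil, Op_one, zero_mul, zpow_zero, one_smul]
    rfl
  | cons p ts ih =>
    intro D A hD
    rw [List.map_cons, List.flatten_cons, List.map_eq_append_iff] at hD
    obtain ⟨D12, D3, rfl, hD12, hD3⟩ := hD
    rw [List.map_eq_append_iff] at hD12
    obtain ⟨D1, D2, rfl, hD1, hD2⟩ := hD12
    obtain ⟨e1, he1⟩ := h p.1 0 D1 A hD1
    obtain ⟨e2, he2⟩ := h p.2 1 D2 (run D1 A) hD2
    obtain ⟨e3, he3⟩ := ih D3 (run (D1 ++ D2) A) hD3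
    refine ⟨e1 + e2 + e3, fun N hN v hv f => ?_⟩
    rw [opD_append, opD_append, he3 N hN v hv, he2 N hN v hv, he1 N hN v hv, List.map_cons,
      List.prod_cons, Op_mul, Op_mul, ← Op_gen _ 0 (by norm_num), ← Op_gen _ 1 (by norm_num),
      Op_smul, Op_smul, Op_smul, smul_smul, smul_smul, add_mul, add_mul, zpow_add₀ hv.1,
      zpow_add₀ hv.1]

theorem s_ringe (h : S_TWE) : S_RINGE := by
  intro m ts D hD
  unfold ringW at hD
  rw [List.map_eq_append_iff] at hD
  obtain ⟨D1, D5, rfl, hD1, hD5⟩ := hD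
  rw [List.map_eq_append_iff] at hD1
  obtain ⟨D2, D3, rfl, hD2, hD3⟩ := hD1
  rw [List.map_eq_append_iff] at hD3
  obtain ⟨D4, D6, rfl, hD4, hD6⟩ := hD3
  obtain ⟨b0, b1, b2, rfl⟩ : ∃ b0 b1 b2, D2 = [.birth 0 b0, .birth 1 b1, .birth 2 b2] := by
    rcases D2 with _ | ⟨p0, _ | ⟨p1, _ | ⟨p2, _ | ⟨p3, D2⟩⟩⟩⟩
    · simp at hD2
    · simp at hD2
    · simp at hD2
    · simp only [List.map_cons, List.map_nil, List.cons.injEq, and_true] at hD2
      obtain ⟨b0, rfl⟩ := plain_birth hD2.1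
      obtain ⟨b1, rfl⟩ := plain_birth hD2.2.1
      obtain ⟨b2, rfl⟩ := plain_birth hD2.2.2
      exact ⟨b0, b1, b2, rfl⟩
    · simp at hD2
  obtain rfl : D5 = [.death 2, .death 1, .death 0] := by
    rcases D5 with _ | ⟨p0, _ | ⟨p1, _ | ⟨p2, _ | ⟨p3, D2⟩⟩⟩⟩
    · simp at hD5
    · simp at hD5
    · simp at hD5
    · simp only [List.map_cons, List.map_nil, List.cons.injEq, and_true] at hD5
      rw [plain_death hD5.1, plain_death hD5.2.1, plain_death hD5.2.2]
    · simp at hD5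
  obtain ⟨e1, he1⟩ := mid1E (fullTwists m) (fullTwists_lt m) D4
    (run [.birth 0 b0, .birth 1 b1, .birth 2 b2] Front.empty) hD4
  obtain ⟨e2, he2⟩ := mid2E h ts D6
    (run D4 (run [.birth 0 b0, .birth 1 b1, .birth 2 b2] Front.empty)) hD6
  refine ⟨e1 + e2, fun N hN v hv σ => ?_⟩
  have hval : val (datJ N v) ([.birth 0 b0, .birth 1 b1, .birth 2 b2] ++ (D4 ++ D6) ++
      [.death 2, .death 1, .death 0]) σ =
      Bl (datJ N v) 0 (Bl (datJ N v) 1 (Bl (datJ N v) 2 (v ^ ((e1 + e2) * ((N : ℤ) ^ 2 - 1)) •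
        Op (rep (crossP N v) (crossN N v) 3 (fullTwists m) *
          (ts.map fun p => gen (tangle N v p.1) 3 0 * gen (tangle N v p.2) 3 1).prod)
        (Dl (datJ N v) 2 (Dl (datJ N v) 1 (Dl (datJ N v) 0 (fun _ => 1))))))) σ := by
    unfold Pool.Agent.N566.VV.val
    rw [opD_append, opD_append, opD_append, he2 N hN v hv, he1 N hN v hv, Op_smul, smul_smul,
      ← zpow_add₀ hv.1, ← add_mul, ← Op_mul]
    rfl
  rw [hval, closeup (datJ N v) (fun x => Fin.rev_rev x)]
  congr 1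
  unfold ringM
  rw [tail_two]
  refine Finset.sum_congr rfl fun x0 _ => Finset.sum_congr rfl fun x1 _ =>
    Finset.sum_congr rfl fun x2 _ => ?_
  rw [weight hN hv, weight hN hv, weight hN hv]

theorem f_ringe : S_RINGE := s_ringe Pool.Agent.N663.VV.s_twe

end Pool.Agent.L7h82.VV
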