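import Pool.Agent.L7h82.VV.Clo

/-!
# The growth of the Kashaev invariants of connected sums
-/

set_option autoImplicit false

namespace Pool.Agent.L7h82.VV

open Pool.Agent.H835R2.Knot (Word Front IsKnot Isotopic)
open Pool.Agent.W709.QAT (jones)
open Pool.Agent.N566.VV (ColE ev rt rt_ne rt_norm Separated Grow GrowC exp_sq)
open Finset Filter Topology

/-! ### the growth rate -/

theorem growR_sum {D₁ D₂ D : Word} {V₁ V₂ : ℝ} (h₁ : GrowR D₁ V₁) (h₂ : GrowR D₂ V₂)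
    (h : IsSum D₁ D₂ D) : GrowR D (V₁ + V₂) := by
  obtain ⟨-, -, hD, c, hc⟩ := kash_sum h
  refine ⟨hD, ?_, ?_⟩
  · filter_upwards [h₁.2.1, h₂.2.1] with k a1 a2
    rw [hc _ ⟨k, rfl⟩]
    exact mul_ne_zero (zpow_ne_zero _ (rt_ne _)) (mul_ne_zero a1 a2)
  · refine (h₁.2.2.add h₂.2.2).congr' ?_
    filter_upwards [h₁.2.1, h₂.2.1] with k a1 a2
    rw [hc _ ⟨k, rfl⟩, norm_mul, norm_zpow, rt_norm, one_zpow, one_mul, norm_mul,
      Real.log_mul (norm_ne_zero_iff.2 a1) (norm_ne_zero_iff.2 a2)]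
    ring

/-! ### the complex growth rate -/

/-- the asymptotic behaviour of the Kashaev invariants of odd colour: the quotients of consecutive
values tend to `exp ((V + i C₁) / π)`, `C₁ ≡ C` modulo `π²` -/
def GrowX (D : Word) (V C : ℝ) : Prop := IsKnot D ∧ (∀ᶠ k : ℕ in atTop, kash D (2 * k + 1) ≠ 0) ∧
  ∃ C₁ : ℝ, (∃ n : ℤ, C₁ = C + n * Real.pi ^ 2) ∧
    Tendsto (fun k : ℕ => kash D (2 * (k + 1) + 1) / kash D (2 * k + 1)) atTop
      (𝓝 (Complex.exp ((V + Complex.I * C₁) / Real.pi)))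

lemma exp_half (z : ℂ) : Complex.exp (z / Real.pi) = Complex.exp (z / (2 * Real.pi)) ^ 2 := by
  rw [← Complex.exp_nat_mul]
  congr 1
  have hp : (Real.pi : ℂ) ≠ 0 := by exact_mod_cast Real.pi_ne_zero
  push_cast
  field_simp

theorem growX_unique {D E : Word} {V C W C' : ℝ} (hD : GrowX D V C) (hE : GrowX E W C')
    (h : V ≠ W ∨ ∀ k : ℤ, C ≠ C' + k * Real.pi ^ 2) : Separated D E := by
  by_contra hn
  obtain ⟨a1, a2, C₁, ⟨n₁, e₁⟩, a3⟩ := hD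
  obtain ⟨b1, b2, C₂, ⟨n₂, e₂⟩, b3⟩ := hE
  have h1 := tendsto_nhds_unique a3 (b3.congr fun k => by
    rw [kash_not_sep a1 b1 hn ⟨k, rfl⟩, kash_not_sep a1 b1 hn ⟨k + 1, rfl⟩])
  rw [exp_half, exp_half] at h1
  obtain ⟨h2, n, h3⟩ := exp_sq h1
  rcases h with h | h
  · exact h h2
  · apply h (n₂ - n₁ + 2 * n)
    rw [e₁, e₂] at h3
    push_cast
    linarith

theorem growX_of_growC {D : Word} {V C : ℝ} (h : GrowC D V C) : GrowX D V C := by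
  obtain ⟨D₀, g, c, h1, h2, h3, h4, h5, C₁, hC, h6⟩ := h
  have key : ∀ k : ℕ, ev g c (2 * k + 1) = kash D (2 * k + 1) := by
    intro k
    rw [kash_of h1 h3 ⟨k, rfl⟩ (h4 _ ⟨k, rfl⟩), kash_iso h1 h2 ⟨k, rfl⟩]
  refine ⟨(Pool.Agent.H835R2.Knot.isotopic_knot h2).1 h1, ?_, C₁, hC, ?_⟩
  · filter_upwards [odd_atTop.eventually h5] with k hk
    rwa [← key]
  · rw [exp_half, pow_two]
    have t1 := h6.comp odd_atTop
    have t2 := (h6.comp (tendsto_add_atTop_nat 1)).comp odd_atTop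
    refine (t2.mul t1).congr' ?_
    have t3 : ∀ᶠ k : ℕ in atTop, ev g c (2 * k + 1 + 1) ≠ 0 :=
      odd_atTop.eventually ((tendsto_add_atTop_nat 1).eventually h5)
    filter_upwards [t3] with k hk
    simp only [Function.comp_apply]
    rw [div_mul_div_cancel₀ hk, ← key, ← key]
    rfl

lemma fac_lim (c : ℤ) : Tendsto (fun k : ℕ => rt (2 * k + 1) ^ (c * (((2 * k + 1 : ℕ) : ℤ) ^ 2 - 1)))
    atTop (𝓝 ((-1) ^ c)) := by
  have h1 : ∀ k : ℕ, rt (2 * k + 1) ^ (c * (((2 * k + 1 : ℕ) : ℤ) ^ 2 - 1)) =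
      (-1) ^ c * Complex.exp (-(c * Real.pi * Complex.I) * (1 / ((2 * k + 1 : ℕ) : ℂ))) := by
    intro k
    have hk : ((2 * k + 1 : ℕ) : ℂ) ≠ 0 := by
      exact_mod_cast Nat.succ_ne_zero (2 * k)
    unfold rt
    rw [← Complex.exp_int_mul]
    have e : ((c * (((2 * k + 1 : ℕ) : ℤ) ^ 2 - 1) : ℤ) : ℂ) *
        (Real.pi * Complex.I / ((2 * k + 1 : ℕ) : ℂ)) =
        ((c * ((2 * k + 1 : ℕ) : ℤ) : ℤ) : ℂ) * (Real.pi * Complex.I) +
          -(c * Real.pi * Complex.I) * (1 / ((2 * k + 1 : ℕ) : ℂ)) := by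
      push_cast at hk ⊢
      field_simp
      ring
    rw [e, Complex.exp_add, Complex.exp_int_mul, Complex.exp_pi_mul_I]
    congr 1
    rw [mul_comm c, zpow_mul]
    congr 1
    rw [zpow_natCast]
    exact Odd.neg_one_pow ⟨k, rfl⟩
  have h2 : Tendsto (fun k : ℕ => (-1 : ℂ) ^ c *
      Complex.exp (-(c * Real.pi * Complex.I) * (1 / ((2 * k + 1 : ℕ) : ℂ)))) atTop
      (𝓝 ((-1) ^ c * Complex.exp (-(c * Real.pi * Complex.I) * 0))) := by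
    refine Tendsto.mul tendsto_const_nhds ?_
    refine (Complex.continuous_exp.tendsto _).comp ?_
    refine Tendsto.mul tendsto_const_nhds ?_
    exact (tendsto_one_div_atTop_nhds_zero_nat (𝕜 := ℂ)).comp odd_atTop
  rw [mul_zero, Complex.exp_zero, mul_one] at h2
  exact h2.congr fun k => (h1 k).symm

theorem growX_sum {D₁ D₂ D : Word} {V₁ V₂ C₁ C₂ : ℝ} (h₁ : GrowX D₁ V₁ C₁) (h₂ : GrowX D₂ V₂ C₂)
    (h : IsSum D₁ D₂ D) : GrowX D (V₁ + V₂) (C₁ + C₂) := by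
  obtain ⟨-, -, hD, c, hc⟩ := kash_sum h
  obtain ⟨a1, a2, A₁, ⟨n₁, e₁⟩, a3⟩ := h₁
  obtain ⟨b1, b2, A₂, ⟨n₂, e₂⟩, b3⟩ := h₂
  refine ⟨hD, ?_, A₁ + A₂, ⟨n₁ + n₂, ?_⟩, ?_⟩
  · filter_upwards [a2, b2] with k a1 a2
    rw [hc _ ⟨k, rfl⟩]
    exact mul_ne_zero (zpow_ne_zero _ (rt_ne _)) (mul_ne_zero a1 a2)
  · rw [e₁, e₂]
    push_cast
    ring
  · have f1 := fac_lim c
    have f2 := (fac_lim c).comp (tendsto_add_atTop_nat 1)
    have hm : ((-1 : ℂ) ^ c) ≠ 0 := zpow_ne_zero _ (by norm_num)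
    have f3 := (f2.div f1 hm).mul (a3.mul b3)
    rw [div_self hm, one_mul, ← Complex.exp_add] at f3
    have e : (V₁ + Complex.I * (A₁ : ℂ)) / Real.pi + (V₂ + Complex.I * (A₂ : ℂ)) / Real.pi =
        (((V₁ + V₂ : ℝ) : ℂ) + Complex.I * ((A₁ + A₂ : ℝ) : ℂ)) / Real.pi := by
      push_cast
      ring
    rw [e] at f3
    refine f3.congr fun k => ?_
    rw [hc _ ⟨k, rfl⟩, hc _ ⟨k + 1, rfl⟩, mul_div_mul_comm, mul_div_mul_comm]
    rfl

theorem growX_iso {D E : Word} {V C : ℝ} (hD : GrowX D V C) (h : Isotopic D E) : GrowX E V C := by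
  obtain ⟨a1, a2, A₁, e₁, a3⟩ := hD
  refine ⟨(Pool.Agent.H835R2.Knot.isotopic_knot h).1 a1, ?_, A₁, e₁, ?_⟩
  · filter_upwards [a2] with k hk
    rwa [← kash_iso a1 h ⟨k, rfl⟩]
  · exact a3.congr fun k => by rw [kash_iso a1 h ⟨k, rfl⟩, kash_iso a1 h ⟨k + 1, rfl⟩]

theorem growX_circle : GrowX Pool.Agent.H835R2.Knot.circle 0 0 := by
  refine ⟨knot_circle, growR_circle.2.1, 0, ⟨0, by simp⟩, ?_⟩
  refine tendsto_const_nhds.congr fun k => ?_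
  rw [kash_circle ⟨k, rfl⟩, kash_circle ⟨k + 1, rfl⟩]
  simp

end Pool.Agent.L7h82.VV
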