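import Pool.Agent.L7h82.VV.CompD
import Pool.Agent.L7h82.VV.RingC
import Pool.Agent.L7h82.VV.SumG

/-!
# Vassiliev invariants and the complex volumes of connected sums
-/

set_option autoImplicit false

namespace Pool.Agent.L7h82.VV

open Pool.Agent.H835R2.Knot (Word IsKnot Isotopic circle)
open Pool.Agent.N566.VV (Separated growC_arb complex_mono GrowC)

theorem composite_main : ∃ (K : ℕ) (M : ℕ → ℕ),
    (∀ D : Word, PolKnot K M D → ∃ V C : ℝ, PolComplexVolume K M D V C) ∧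
    ∀ (D : Word) (V C : ℝ), CompositeComplexVolume K M D V C → GrowX D V C := by
  obtain ⟨K₁, h1, -⟩ := growC_arb
  obtain ⟨K₂, M, h3, h4⟩ := pol_main
  refine ⟨max K₁ K₂, M, ?_, ?_⟩
  · rintro D ⟨m, ts, D₀, hok, hD, hk, hi⟩
    obtain ⟨V, C, h5⟩ := h3 m ts (polOk_mono (le_max_right _ _) hok)
    rcases hD with hD | hD
    · exact ⟨V, C, m, ts, D₀, hok, Or.inl ⟨hD, h5⟩, hk, hi⟩
    · exact ⟨V, -C, m, ts, D₀, hok, Or.inr ⟨hD, by rwa [neg_neg]⟩, hk, hi⟩
  · intro D V C h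
    induction h with
    | unknot D hi => exact growX_iso growX_circle hi
    | polyhedral D V C h =>
      obtain ⟨m, ts, D₀, hok, hD⟩ := h
      exact growX_of_growC (h4 D V C ⟨m, ts, D₀, polOk_mono (le_max_right _ _) hok, hD⟩)
    | arborescent D V C h =>
      rw [arbCV_iff] at h
      exact growX_of_growC (h1 D V C (complex_mono (le_max_left _ _) h))
    | sum D₁ D₂ D V₁ C₁ V₂ C₂ _ _ hs ih₁ ih₂ => exact growX_sum ih₁ ih₂ hs

end Pool.Agent.L7h82.VV
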