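import Pool.Agent.L7h82.VV.CloD
import Pool.Agent.L7h82.VV.RingD

/-!
# Complex volumes of connected sums

`closure`, `IsTangle`, `IsSum` in `Pool.Agent.L7h82.VV.CloD`; `PolComplexVolume`, `ArbComplexVolume`
in `Pool.Agent.L7h82.VV.RingD`.
-/

set_option autoImplicit false

namespace Pool.Agent.L7h82.VV

open Pool.Agent.H835R2.Knot (Word Isotopic circle)

/-- The connected sums of any number of knots of the classes `PolComplexVolume K M` (knots on Conway's
polyhedra `(2 k)*`) and `ArbComplexVolume K` (arborescent knots) and of unknots, in any order, with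
their complex volumes `V + i C` (`C` modulo `π²`): the sum of the complex volumes of the summands, which
are the hyperbolic pieces of the complement. -/
inductive CompositeComplexVolume (K : ℕ) (M : ℕ → ℕ) : Word → ℝ → ℝ → Prop
  | unknot (D : Word) : Isotopic circle D → CompositeComplexVolume K M D 0 0
  | polyhedral (D : Word) (V C : ℝ) : PolComplexVolume K M D V C →
      CompositeComplexVolume K M D V C
  | arborescent (D : Word) (V C : ℝ) : ArbComplexVolume K D V C →
      CompositeComplexVolume K M D V C
  | sum (D₁ D₂ D : Word) (V₁ C₁ V₂ C₂ : ℝ) : CompositeComplexVolume K M D₁ V₁ C₁ →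
      CompositeComplexVolume K M D₂ V₂ C₂ → IsSum D₁ D₂ D →
      CompositeComplexVolume K M D (V₁ + V₂) (C₁ + C₂)

end Pool.Agent.L7h82.VV
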