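import Pool.Agent.L7h82.VV.CovD
import Pool.Agent.L7h82.VV.SumG
import Pool.Agent.N561.COV.Fin4

/-!
# Upper bounds from vertex covers
-/

set_option autoImplicit false

namespace Pool.Agent.L7h82.VV

open Pool.Agent.H835R2.Knot (Word Front IsKnot Isotopic circle)
open Pool.Agent.N566.VV (rt rt_ne rt_norm Separated Grow col_arb)
open Finset Filter Topology
open Pool.Agent.TH563.UV.Arb (Tree jones kashaev root AngleTree IsAngle vol)
open Pool.Agent.TH563.UB.Arb (AddCircles edges octahedron Heavy ub_opt ub_all)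
open Pool.Agent.N561.ArbC

/-- an upper bound of the growth rate, for the invariants themselves -/
def UpE (D : Word) (B : ℝ) : Prop := IsKnot D ∧ ∀ ε : ℝ, 0 < ε → ∀ᶠ k : ℕ in atTop,
  ‖kash D (2 * k + 1)‖ ≤ Real.exp ((B / (2 * Real.pi) + ε) * ((2 * k + 1 : ℕ) : ℝ))

lemma upE_iso {D E : Word} {B : ℝ} (hD : UpE D B) (h : Isotopic D E) : UpE E B := by
  refine ⟨(Pool.Agent.H835R2.Knot.isotopic_knot h).1 hD.1, fun ε hε => ?_⟩
  filter_upwards [hD.2 ε hε] with k hk
  rwa [← kash_iso hD.1 h ⟨k, rfl⟩]

lemma upE_circle : UpE circle 0 := by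
  refine ⟨knot_circle, fun ε hε => Eventually.of_forall fun k => ?_⟩
  rw [kash_circle ⟨k, rfl⟩, norm_one]
  refine Real.one_le_exp ?_
  rw [zero_div, zero_add]
  positivity

lemma upE_sum {D₁ D₂ D : Word} {B₁ B₂ : ℝ} (h₁ : UpE D₁ B₁) (h₂ : UpE D₂ B₂)
    (h : IsSum D₁ D₂ D) : UpE D (B₁ + B₂) := by
  obtain ⟨-, -, hD, c, hc⟩ := kash_sum h
  refine ⟨hD, fun ε hε => ?_⟩
  filter_upwards [h₁.2 (ε / 2) (by positivity), h₂.2 (ε / 2) (by positivity)] with k a1 a2
  rw [hc _ ⟨k, rfl⟩, norm_mul, norm_zpow, rt_norm, one_zpow, one_mul, norm_mul]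
  refine (mul_le_mul a1 a2 (norm_nonneg _) (Real.exp_pos _).le).trans (le_of_eq ?_)
  rw [← Real.exp_add]
  congr 1
  ring

/-- separation by the growth rate -/
theorem sep_of_upE {D E : Word} {B W : ℝ} (hD : UpE D B) (hE : GrowR E W) (h : B < W) :
    Separated D E := by
  by_contra hn
  have hpi := Real.pi_pos
  have h1 := hD.2 ((W - B) / 2 / (2 * Real.pi)) (by
    have : 0 < W - B := by linarith
    positivity)
  have h2 : W ≤ B + (W - B) / 2 := by
    refine le_of_tendsto hE.2.2 ?_
    filter_upwards [h1, hE.2.1] with k hk h0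
    rw [kash_not_sep hD.1 hE.1 hn ⟨k, rfl⟩] at hk
    have h3 := Real.log_le_log (norm_pos_iff.2 h0) hk
    rw [Real.log_exp] at h3
    have hN : (0 : ℝ) < ((2 * k + 1 : ℕ) : ℝ) := by positivity
    have h4 : Real.log ‖kash E (2 * k + 1)‖ / ((2 * k + 1 : ℕ) : ℝ) ≤
        B / (2 * Real.pi) + (W - B) / 2 / (2 * Real.pi) := by
      rw [div_le_iff₀ hN]
      exact h3
    calc _ ≤ 2 * Real.pi * (B / (2 * Real.pi) + (W - B) / 2 / (2 * Real.pi)) :=
          mul_le_mul_of_nonneg_left h4 (by positivity)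
      _ = _ := by field_simp
  linarith

/-- the bound for one diagram -/
lemma upE_tree {D : Word} {t : Tree} {B : ℝ} (h : Arborescent D t)
    (hb : ∀ u : Tree, (u = t ∨ u = t.mirror) → (∀ N : ℕ, ContinuousAt (jones u N) (root N)) ∧
      ∀ e f : ℤ, ∀ ε : ℝ, 0 < ε → ∀ᶠ N : ℕ in atTop,
        ‖kashaev e f u N‖ ≤ Real.exp ((B / (2 * Real.pi) + ε) * N)) : UpE D B := by
  obtain ⟨-, u, D₀, hu, hp, hk, hi⟩ := h
  obtain ⟨hc, hl⟩ := hb u hu
  refine upE_iso ⟨hk, fun ε hε => ?_⟩ hi
  filter_upwards [odd_atTop.eventually (hl 0 0 ε hε)] with k hk'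
  rw [Pool.Agent.TH563.Z.Arb.norm_kashaev] at hk'
  rw [← norm_of hk (col_arb hp) ⟨k, rfl⟩ (hc _)]
  exact hk'

/-- the growth for one diagram -/
lemma growR_tree {D : Word} {t : Tree} {V : ℝ} (h : Arborescent D t) (hV : 0 < V)
    (hc : ∀ u : Tree, (u = t ∨ u = t.mirror) → ∀ N : ℕ, ContinuousAt (jones u N) (root N))
    (hb : ∀ u : Tree, (u = t ∨ u = t.mirror) → ∀ e f : ℤ,
      Tendsto (fun N : ℕ => 2 * Real.pi * (Real.log ‖kashaev e f u N‖ / N)) atTop (𝓝 V)) :
    GrowR D V := by
  obtain ⟨-, u, D₀, hu, hp, hk, hi⟩ := h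
  refine growR_iso (growR_pos hk hV ?_) hi
  refine ((hb u hu 0 0).comp odd_atTop).congr fun k => ?_
  simp only [Function.comp_apply]
  rw [Pool.Agent.TH563.Z.Arb.norm_kashaev, ← norm_of hk (col_arb hp) ⟨k, rfl⟩ (hc u hu _)]
  rfl

/-- the bounds of the class -/
theorem upE_cover {v : ℕ → ℤ → ℝ}
    (hv : ∀ s t : Tree, 1 ≤ t.children → AddCircles t s → VertexCover s →
      total v s ≤ 2 * octahedron * edges t ∧
      ∀ u : Tree, (u = t ∨ u = t.mirror) → (∀ N : ℕ, ContinuousAt (jones u N) (root N)) ∧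
      ∀ e f : ℤ, ∀ ε : ℝ, 0 < ε → ∀ᶠ N : ℕ in atTop,
        ‖kashaev e f u N‖ ≤ Real.exp ((total v s / (2 * Real.pi) + ε) * N))
    {D : Word} {B : ℝ} (h : CoverBound v D B) : UpE D B := by
  induction h with
  | unknot D hi => exact upE_iso upE_circle hi
  | tree D t s h1 h2 h3 => exact upE_tree h1 (hv s t h1.1 h2 h3).2
  | sum D₁ D₂ D B₁ B₂ _ _ hs ih₁ ih₂ => exact upE_sum ih₁ ih₂ hs

/-- the tree with circles at all vertices -/
def encircled : Tree → Tree
  | .single _ a => .single true a
  | .join t c => .join (encircled t) (encircled c)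

lemma encircled_circle (t : Tree) : (encircled t).circle = true := by
  induction t with
  | single b a => rfl
  | join t c iht _ => exact iht

lemma encircled_add (t : Tree) : AddCircles t (encircled t) := by
  induction t with
  | single b a => exact ⟨rfl, fun _ => rfl⟩
  | join t c iht ihc => exact ⟨iht, ihc⟩

lemma encircled_below (t : Tree) : VertexCoverBelow (encircled t) := by
  induction t with
  | single b a => trivial
  | join t c iht ihc => exact ⟨iht, ihc, Or.inl (encircled_circle c)⟩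

lemma encircled_cover (t : Tree) : VertexCover (encircled t) :=
  ⟨encircled_below t, Or.inl (encircled_circle t)⟩

lemma total_encircled (v : ℕ → ℤ → ℝ) (t : Tree) :
    total v (encircled t) = 2 * octahedron * edges t := by
  unfold total
  rw [if_pos (encircled_circle t), add_zero]
  induction t with
  | single b a => simp [encircled, totalBelow, edges]
  | join t c iht ihc =>
    show totalBelow v (encircled t) + totalBelow v (encircled c) +
      (if (encircled c).circle = true then (if (encircled t).circle = true then 2 * octahedron else 0)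
        else _) = 2 * octahedron * ((edges t + edges c + 1 : ℕ) : ℝ)
    rw [iht, ihc, if_pos (encircled_circle c), if_pos (encircled_circle t)]
    push_cast
    ring

/-- arborescent knots: the bound by the number of edges -/
lemma coverBound_edges (v : ℕ → ℤ → ℝ) {D : Word} {t : Tree} (h : Arborescent D t) :
    CoverBound v D (2 * octahedron * edges t) := by
  rw [← total_encircled v t]
  exact .tree D t _ h (encircled_add t) (encircled_cover t)

lemma heavy_mono {M M' : ℕ} (h : M ≤ M') : ∀ t : Tree, Heavy M' t → Heavy M t := by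
  intro t
  induction t with
  | single b a =>
    rintro (h1 | h1)
    · exact Or.inl h1
    · exact Or.inr (le_trans (by exact_mod_cast h) h1)
  | join t c iht ihc => exact fun h1 => ⟨iht h1.1, ihc h1.2⟩

lemma heavy_mirror {M : ℕ} : ∀ t : Tree, Heavy M t → Heavy M t.mirror := by
  intro t
  induction t with
  | single b a =>
    rintro (h1 | h1)
    · exact Or.inl h1
    · refine Or.inr ?_
      show (M : ℤ) ≤ |-a|
      rwa [abs_neg]
  | join t c iht ihc => exact fun h1 => ⟨iht h1.1, ihc h1.2⟩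

lemma edges_mirror (t : Tree) : edges t.mirror = edges t := by
  induction t with
  | single b a => rfl
  | join t c iht ihc =>
    show edges t.mirror + edges c.mirror + 1 = edges t + edges c + 1
    rw [iht, ihc]

lemma children_mirror (t : Tree) : t.mirror.children = t.children := by
  induction t with
  | single b a => rfl
  | join t c iht _ =>
    show t.mirror.children + 1 = t.children + 1
    rw [iht]

lemma octahedron_pos : 0 < octahedron := by
  have h := Pool.Agent.N561.COV.oct_bet
  have h1 := Pool.Agent.TH563.Z.J365.bet_pos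
  have h2 := Real.pi_pos
  have h3 : 0 < 2 * Real.pi * (2 * Pool.Agent.W711.HT.bet) := by positivity
  linarith

/-- **Vertex covers**: the main theorem -/
theorem cover_main : ∃ v : ℕ → ℤ → ℝ, (∀ (n : ℕ) (a : ℤ), v n (-a) = v n a) ∧
    (∀ (n : ℕ) (a : ℤ), 1 ≤ n → (Small n a ∨ Clasp n a) →
      IsGreatest {W : ℝ | ∃ y : AngleTree, y.tree = star a n ∧ IsAngle y ∧ vol y = W} (v n a)) ∧
    (∀ s t : Tree, 1 ≤ t.children → AddCircles t s → VertexCover s →
      total v s ≤ 2 * octahedron * edges t) ∧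
    (∀ (D E : Word) (B W : ℝ), CoverBound v D B → GrowR E W → B < W → Separated D E) ∧
    (∀ s : Tree, 1 ≤ s.children → Cover s →
      IsGreatest {W : ℝ | ∃ y : AngleTree, y.tree = s ∧ IsAngle y ∧ vol y = W} (total v s) ∧
      ∀ c : ℝ, 0 ≤ c → c < total v s → ∃ M : ℕ, ∀ t : Tree, Fills M s t →
        ∀ (D E : Word) (B : ℝ), CoverBound v D B → B ≤ c → Arborescent E t → Separated D E) ∧
    ∀ n : ℕ, ∃ M : ℕ, ∀ (t u : Tree) (D E : Word), Arborescent D t → Arborescent E u →
      Heavy M u → edges u ≤ n → edges t < edges u → Separated D E := by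
  obtain ⟨v, h0, h1, h2, h3⟩ := Pool.Agent.N561.COV.cov_wide
  have hup : ∀ {D : Word} {B : ℝ}, CoverBound v D B → UpE D B := fun h => upE_cover h2 h
  have hcont : ∀ u : Tree, 1 ≤ u.children → ∀ N : ℕ, ContinuousAt (jones u N) (root N) :=
    fun u hu => ((h2 _ u hu (encircled_add u) (encircled_cover u)).2 u (Or.inl rfl)).1
  refine ⟨v, h0, h1, fun s t a b c => (h2 s t a b c).1,
    fun D E B W hD hE hlt => sep_of_upE (hup hD) hE hlt, fun s hs hc => ⟨(h3 s hs hc).1,
    fun c hc0 hct => ?_⟩, fun n => ?_⟩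
  · obtain ⟨M, hM⟩ := (h3 s hs hc).2 ((total v s - c) / 2) (by linarith)
    refine ⟨M, fun t ht D E B hD hB hE => ?_⟩
    obtain ⟨V, -, hV, hlim⟩ := hM t ht
    have hVc : c < V := by linarith
    refine sep_of_upE (hup hD) (growR_tree hE (by linarith) (fun u hu N => ?_) hlim)
      (lt_of_le_of_lt hB hVc)
    refine hcont u ?_ N
    rcases hu with rfl | rfl
    · exact hE.1
    · rw [children_mirror]
      exact hE.1
  · have ho := octahedron_pos
    obtain ⟨M, hM⟩ := ub_opt (octahedron / (n + 1)) (by positivity)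
    refine ⟨M, fun t u D E hD hE hu hn hlt => ?_⟩
    obtain ⟨hc, u', E₀, hu', hp, hk, hi⟩ := hE
    have hc' : 1 ≤ u'.children := by
      rcases hu' with rfl | rfl
      · exact hc
      · rw [children_mirror]
        exact hc
    have hh : Heavy M u' := by
      rcases hu' with rfl | rfl
      · exact hu
      · exact heavy_mirror u hu
    have he : edges u' = edges u := by
      rcases hu' with rfl | rfl
      · rfl
      · exact edges_mirror u
    obtain ⟨V, hV, -, -, hlim⟩ := hM u' hc' hh
    rw [he] at hV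
    have h4 : (edges t : ℝ) + 1 ≤ edges u := by exact_mod_cast hlt
    have h5 : (edges u : ℝ) ≤ n := by exact_mod_cast hn
    have h6 : octahedron / (n + 1) * edges u < octahedron := by
      rw [div_mul_eq_mul_div, div_lt_iff₀ (by positivity)]
      nlinarith
    have h7 : 2 * octahedron * edges t < V := by nlinarith
    have hpos : 0 < V := lt_of_le_of_lt (by positivity) h7
    have hg : GrowR E₀ V := by
      refine growR_pos hk hpos ?_
      refine ((hlim 0 0).comp odd_atTop).congr fun k => ?_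
      simp only [Function.comp_apply]
      rw [Pool.Agent.TH563.Z.Arb.norm_kashaev, ← norm_of hk (col_arb hp) ⟨k, rfl⟩ (hcont u' hc' _)]
      rfl
    exact sep_of_upE (hup (coverBound_edges v hD)) (growR_iso hg hi) h7

end Pool.Agent.L7h82.VV
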