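import Pool.Agent.L7h82.VV.CloD
import Pool.Agent.N561.COV.ArbW
import Pool.Agent.N566.VV.Cls

/-!
# Arborescent knots and vertex covers: definitions
-/

set_option autoImplicit false

namespace Pool.Agent.L7h82.VV

open Pool.Agent.H835R2.Knot (Word IsKnot Isotopic circle)
open Pool.Agent.TH563.UV.Arb (Tree)
open Pool.Agent.TH563.UB.Arb (AddCircles)
open Pool.Agent.N561.ArbC (VertexCover total)

/-- `D` is a diagram of the arborescent knot of the weighted planar tree `t`, which has at least one
edge, or of its mirror image (with any orientation).  The weights are arbitrary. -/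
def Arborescent (D : Word) (t : Tree) : Prop :=
  1 ≤ t.children ∧ ∃ (u : Tree) (D₀ : Word), (u = t ∨ u = t.mirror) ∧
    D₀.map Pool.Agent.N566.VV.plain = Pool.Agent.N566.VV.treeW (Pool.Agent.N566.VV.arbTr u) ∧
    IsKnot D₀ ∧ Isotopic D₀ D

/-- Bounds for arborescent knots and their connected sums: `0` for the unknot; `total v s` for the
arborescent knots of the tree `t`, where `s` is obtained from `t` by adding crossing circles which form
a vertex cover; for a connected sum the sum of the bounds. -/
inductive CoverBound (v : ℕ → ℤ → ℝ) : Word → ℝ → Prop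
  | unknot (D : Word) : Isotopic circle D → CoverBound v D 0
  | tree (D : Word) (t s : Tree) : Arborescent D t → AddCircles t s → VertexCover s →
      CoverBound v D (total v s)
  | sum (D₁ D₂ D : Word) (B₁ B₂ : ℝ) : CoverBound v D₁ B₁ → CoverBound v D₂ B₂ →
      IsSum D₁ D₂ D → CoverBound v D (B₁ + B₂)

end Pool.Agent.L7h82.VV
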