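import Pool.Agent.L7h82.VV.Schur
import Pool.Agent.R807.Cut2
import Pool.Agent.N566.VV.Exact

/-!
# The values of all knot diagrams

Every closed sliced diagram `birth 0 :: w` (`Pool.Agent.H835R2.Knot`) is cut open at its top: the
(1,1)-tangle `birth 1 :: w`, read from bottom to top in the conventions of `Pool.Agent.W709.QAT`.
-/

set_option autoImplicit false

namespace Pool.Agent.L7h82.VV

open Pool.Agent.H550R3.Jones (br brf Adm crossP crossN Gen irr tens WM IsInt W)
open Pool.Agent.W709.QAT (Diag run jones kap cup cap)
open Pool.Agent.R807.Cut (Valid)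
open Pool.Agent.H835R2.Knot (Word Front)
open Pool.Agent.N566.VV (Dat F insS delS updS Bl Dl Xl opP opD val datJ fr qd ColE)
open Finset Matrix

/-- the piece in the conventions of `Pool.Agent.W709.QAT` -/
def trP : Pool.Agent.H835R2.Knot.Piece → Pool.Agent.W709.QAT.Piece
  | .birth i _ => .cap i
  | .death i => .cup i
  | .pos i => .twist i true 1
  | .neg i => .twist i false 1

/-- the word, read from bottom to top -/
def trW (w : Word) : Diag := (w.map trP).reverse

/-- the exponent of the framing factor of a word below the strands `A`: the crossings of strands with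
opposite directions, counted with signs -/
def expo : Word → Front → ℤ
  | [], _ => 0
  | p :: w, A => (match p with
      | .pos i => if A.dir i = A.dir (i + 1) then 0 else 1
      | .neg i => if A.dir i = A.dir (i + 1) then 0 else -1
      | _ => 0) + expo w (p.act A)

/-- the state with the labels `s` at the first places -/
def join {ι : Type} : List ι → (ℕ → ι) → ℕ → ι
  | [], ρ, p => ρ p
  | a :: _, _, 0 => a
  | _ :: s, ρ, p + 1 => join s ρ p

section

variable {ι : Type}

lemma join_nil (ρ : ℕ → ι) : join [] ρ = ρ := rfl

lemma ins_join (l t : List ι) (x y : ι) (ρ : ℕ → ι) :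
    insS l.length x y (join (l ++ t) ρ) = join (l ++ x :: y :: t) ρ := by
  funext p
  induction l generalizing p with
  | nil =>
    match p with
    | 0 => rfl
    | 1 => rfl
    | p + 2 => simp [insS, join]
  | cons a l ih =>
    match p with
    | 0 => simp [insS, join]
    | p + 1 =>
      have h := ih p
      simp only [List.cons_append, join]
      rw [← h]
      unfold insS
      simp only [List.length_cons]
      by_cases h1 : p < l.length
      · rw [if_pos (by omega), if_pos h1]
        rfl
      · rw [if_neg (by omega), if_neg h1]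
        by_cases h2 : p = l.length
        · rw [if_pos (by omega), if_pos h2]
        · rw [if_neg (by omega), if_neg h2]
          by_cases h3 : p = l.length + 1
          · rw [if_pos (by omega), if_pos h3]
          · rw [if_neg (by omega), if_neg h3]
            obtain ⟨q, rfl⟩ : ∃ q, p = q + 2 := ⟨p - 2, by omega⟩
            rfl

lemma join_at (l t : List ι) (x : ι) (ρ : ℕ → ι) : join (l ++ x :: t) ρ l.length = x := by
  induction l with
  | nil => rfl
  | cons a l ih => exact ih

lemma join_at1 (l t : List ι) (x y : ι) (ρ : ℕ → ι) :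
    join (l ++ x :: y :: t) ρ (l.length + 1) = y := by
  have := join_at (l ++ [x]) t y ρ
  simpa using this

lemma del_join (l t : List ι) (x y : ι) (ρ : ℕ → ι) :
    delS l.length (join (l ++ x :: y :: t) ρ) = join (l ++ t) ρ := by
  funext p
  induction l generalizing p with
  | nil => rfl
  | cons a l ih =>
    match p with
    | 0 => simp [delS, join]
    | p + 1 =>
      have h := ih p
      simp only [List.cons_append, join]
      rw [← h]
      unfold delS
      simp only [List.length_cons]
      by_cases h1 : p < l.length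
      · rw [if_pos (by omega), if_pos h1]
        rfl
      · rw [if_neg (by omega), if_neg h1]
        rfl

lemma upd_join (l t : List ι) (x y x' y' : ι) (ρ : ℕ → ι) :
    updS l.length x' y' (join (l ++ x :: y :: t) ρ) = join (l ++ x' :: y' :: t) ρ := by
  funext p
  induction l generalizing p with
  | nil =>
    match p with
    | 0 => rfl
    | 1 => rfl
    | p + 2 => simp [updS, join]
  | cons a l ih =>
    match p with
    | 0 => simp [updS, join]
    | p + 1 =>
      have h := ih p
      simp only [List.cons_append, join]
      rw [← h]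
      unfold updS
      simp only [List.length_cons]
      by_cases h1 : p = l.length
      · rw [if_pos (by omega), if_pos h1]
      · rw [if_neg (by omega), if_neg h1]
        by_cases h2 : p = l.length + 1
        · rw [if_pos (by omega), if_pos h2]
        · rw [if_neg (by omega), if_neg h2]
          rfl

end

/-! ### the operators of words -/

section

variable {N : ℕ}

lemma trW_cons (p : Pool.Agent.H835R2.Knot.Piece) (w : Word) : trW (p :: w) = trW w ++ [trP p] := by
  unfold trW
  rw [List.map_cons, List.reverse_cons]

lemma run_app (v : ℂ) (D E : Diag) (f : List (Fin N) → ℂ) :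
    run N v (D ++ E) f = run N v E (run N v D f) := by
  unfold run
  rw [List.foldl_append]

lemma run_one (v : ℂ) (P : Pool.Agent.W709.QAT.Piece) (f : List (Fin N) → ℂ) :
    run N v [P] f = P.act N v f := rfl

lemma fr_two {N : ℕ} (hN : Odd N) : 2 * fr N = (N : ℤ) ^ 2 - 1 := by
  obtain ⟨k, rfl⟩ := hN
  unfold fr
  have e : (((2 * k + 1 : ℕ) : ℤ) ^ 2 - 1) = 2 * (2 * (k : ℤ) ^ 2 + 2 * k) := by
    push_cast
    ring
  rw [e]
  omega

lemma sum_cap (v : ℂ) (h : Fin N → Fin N → ℂ) :
    ∑ p : Fin N × Fin N, cap N v p * h p.1 p.2 =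
      ∑ x : Fin N, (kap N v (Fin.rev x : Fin N))⁻¹ * h x (Fin.rev x) := by
  rw [Fintype.sum_prod_type]
  refine sum_congr rfl fun x _ => ?_
  rw [sum_eq_single (Fin.rev x)]
  · rw [cap_rev, if_pos rfl]
  · intro y _ hy
    rw [cap_rev, if_neg hy, zero_mul]
  · simp

lemma kap_kap (v : ℂ) (k : ℕ) : Pool.Agent.N566.VV.kap N v k = kap N v k := by
  unfold Pool.Agent.N566.VV.kap kap
  ring

lemma Xl_join (c : ℂ) (M : Matrix (Fin N × Fin N) (Fin N × Fin N) ℂ) (l t : List (Fin N))
    (a b : Fin N) (ρ : ℕ → Fin N) (h : F (Fin N)) :
    Xl (c • M) l.length h (join (l ++ a :: b :: t) ρ) =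
      c * ∑ p : Fin N × Fin N, M (a, b) p * h (join (l ++ p.1 :: p.2 :: t) ρ) := by
  unfold Xl
  rw [join_at, join_at1, mul_sum]
  refine sum_congr rfl fun p _ => ?_
  rw [upd_join, Matrix.smul_apply, smul_eq_mul]
  ring

lemma split1 {α : Type} {s : List α} {i : ℕ} (h : i ≤ s.length) :
    ∃ l t : List α, s = l ++ t ∧ l.length = i :=
  ⟨s.take i, s.drop i, (List.take_append_drop i s).symm, by rw [List.length_take]; omega⟩

lemma split2 {α : Type} {s : List α} {i : ℕ} (h : i + 2 ≤ s.length) :
    ∃ (l t : List α) (a b : α), s = l ++ a :: b :: t ∧ l.length = i := by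
  obtain ⟨l, t, h1, h2⟩ := split1 (show i ≤ s.length by omega)
  rcases t with _ | ⟨a, _ | ⟨b, t⟩⟩
  · rw [h1] at h; simp at h; omega
  · rw [h1] at h; simp at h; omega
  · exact ⟨l, t, a, b, h1, h2⟩

theorem opD_run (hN : Odd N) {v : ℂ} (hv : v ≠ 0) (ρ : ℕ → Fin N) (g : F (Fin N)) :
    ∀ (w : Word) (A : Front) (s : List (Fin N)), Pool.Agent.H835R2.Knot.Fits w A →
      s.length = A.n → opD (datJ N v) w A g (join s ρ) =
        v ^ (expo w A * ((N : ℤ) ^ 2 - 1)) * run N v (trW w) (fun t => g (join t ρ)) s := by
  intro w
  induction w with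
  | nil =>
    intro A s _ _
    simp [opD, expo, trW, run]
  | cons p w ih =>
    rintro A s ⟨hp, hw⟩ hs
    rw [trW_cons, run_app, run_one]
    have hop : opD (datJ N v) (p :: w) A g (join s ρ) =
        opP (datJ N v) p A.dir (opD (datJ N v) w (p.act A) g) (join s ρ) := rfl
    rw [hop]
    cases p with
    | birth i b =>
      have hi : i ≤ s.length := by
        rw [hs]
        exact hp
      obtain ⟨l, t, rfl, rfl⟩ := split1 hi
      have e1 : opP (datJ N v) (.birth l.length b) A.dir
          (opD (datJ N v) w ((Pool.Agent.H835R2.Knot.Piece.birth l.length b).act A) g)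
            (join (l ++ t) ρ) = ∑ x : Fin N, (kap N v (Fin.rev x : Fin N))⁻¹ *
          opD (datJ N v) w ((Pool.Agent.H835R2.Knot.Piece.birth l.length b).act A) g
            (join (l ++ x :: Fin.rev x :: t) ρ) := by
        show Bl (datJ N v) l.length _ _ = _
        unfold Bl
        refine sum_congr rfl fun x _ => ?_
        rw [ins_join]
        show (Pool.Agent.N566.VV.kap N v _)⁻¹ * _ = _
        rw [kap_kap]
        rfl
      rw [e1]
      have e2 : ∀ R : List (Fin N) → ℂ, (trP (.birth l.length b)).act N v R (l ++ t) =
          ∑ x : Fin N, (kap N v (Fin.rev x : Fin N))⁻¹ * R (l ++ x :: Fin.rev x :: t) := by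
        intro R
        show ∑ p : Fin N × Fin N, cap N v p *
          R ((l ++ t).take l.length ++ p.1 :: p.2 :: (l ++ t).drop l.length) = _
        rw [List.take_left, List.drop_left]
        exact sum_cap v fun x y => R (l ++ x :: y :: t)
      rw [e2, mul_sum]
      refine sum_congr rfl fun x _ => ?_
      rw [ih _ (l ++ x :: Fin.rev x :: t) hw (by
        show _ = A.n + 2
        rw [← hs]
        simp
        omega)]
      have e3 : expo (.birth l.length b :: w) A =
          expo w ((Pool.Agent.H835R2.Knot.Piece.birth l.length b).act A) := by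
        show 0 + _ = _
        rw [zero_add]
      rw [e3]
      ring
    | death i =>
      have hi : i + 2 ≤ s.length := by
        rw [hs]
        exact hp.1
      obtain ⟨l, t, x, y, rfl, rfl⟩ := split2 hi
      have e1 : opP (datJ N v) (.death l.length) A.dir
          (opD (datJ N v) w ((Pool.Agent.H835R2.Knot.Piece.death l.length).act A) g)
            (join (l ++ x :: y :: t) ρ) = cup N v (x, y) *
          opD (datJ N v) w ((Pool.Agent.H835R2.Knot.Piece.death l.length).act A) g
            (join (l ++ t) ρ) := by
        show Dl (datJ N v) l.length _ _ = _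
        unfold Dl
        rw [join_at, join_at1, del_join, cup_rev]
        show (if y = Fin.rev x then Pool.Agent.N566.VV.kap N v x * _ else 0) = _
        rw [kap_kap]
        split_ifs
        · rfl
        · rw [zero_mul]
      rw [e1]
      have e2 : ∀ R : List (Fin N) → ℂ, (trP (.death l.length)).act N v R (l ++ x :: y :: t) =
          cup N v (x, y) * R (l ++ t) := by
        intro R
        show (match (l ++ x :: y :: t).drop l.length with
          | a :: b :: r => cup N v (a, b) * R ((l ++ x :: y :: t).take l.length ++ r)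
          | _ => 0) = _
        rw [List.take_left, List.drop_left]
      rw [e2, ih _ (l ++ t) hw (by
        show _ = A.n - 2
        rw [← hs]
        simp
        omega)]
      have e3 : expo (.death l.length :: w) A =
          expo w ((Pool.Agent.H835R2.Knot.Piece.death l.length).act A) := by
        show 0 + _ = _
        rw [zero_add]
      rw [e3]
      ring
    | pos i =>
      have hi : i + 2 ≤ s.length := by
        rw [hs]
        exact hp
      obtain ⟨l, t, x, y, rfl, rfl⟩ := split2 hi
      have e2 : ∀ R : List (Fin N) → ℂ, (trP (.pos l.length)).act N v R (l ++ x :: y :: t) =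
          ∑ p : Fin N × Fin N, crossP N v (x, y) p * R (l ++ p.1 :: p.2 :: t) := by
        intro R
        show (match (l ++ x :: y :: t).drop l.length with
          | a :: b :: r => ∑ p : Fin N × Fin N, ((if true then crossP N v else crossN N v) ^ 1)
              (a, b) p * R ((l ++ x :: y :: t).take l.length ++ p.1 :: p.2 :: r)
          | _ => 0) = _
        rw [List.take_left, List.drop_left]
        simp
      rw [e2]
      show ((if A.dir l.length = A.dir (l.length + 1) then (datJ N v).k else (datJ N v).k') •
        Xl (v ^ fr N • crossP N v) l.length _) (join (l ++ x :: y :: t) ρ) = _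
      rw [Pi.smul_apply, Xl_join, smul_eq_mul, mul_sum, mul_sum, mul_sum]
      refine sum_congr rfl fun p _ => ?_
      rw [ih _ (l ++ p.1 :: p.2 :: t) hw (by
        show _ = A.n
        rw [← hs]
        simp)]
      have e3 : expo (.pos l.length :: w) A = (if A.dir l.length = A.dir (l.length + 1) then 0
          else 1) + expo w ((Pool.Agent.H835R2.Knot.Piece.pos l.length).act A) := rfl
      have e4 : (if A.dir l.length = A.dir (l.length + 1) then (datJ N v).k else (datJ N v).k') *
          v ^ fr N = v ^ ((if A.dir l.length = A.dir (l.length + 1) then (0 : ℤ) else 1) *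
            ((N : ℤ) ^ 2 - 1)) := by
        split_ifs
        · show v ^ (-fr N) * v ^ fr N = _
          rw [← zpow_add₀ hv]
          simp
        · show v ^ (fr N) * v ^ fr N = _
          rw [← zpow_add₀ hv, ← fr_two hN]
          congr 1
          ring
      rw [e3, add_mul, zpow_add₀ hv, ← e4]
      ring
    | neg i =>
      have hi : i + 2 ≤ s.length := by
        rw [hs]
        exact hp
      obtain ⟨l, t, x, y, rfl, rfl⟩ := split2 hi
      have e2 : ∀ R : List (Fin N) → ℂ, (trP (.neg l.length)).act N v R (l ++ x :: y :: t) =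
          ∑ p : Fin N × Fin N, crossN N v (x, y) p * R (l ++ p.1 :: p.2 :: t) := by
        intro R
        show (match (l ++ x :: y :: t).drop l.length with
          | a :: b :: r => ∑ p : Fin N × Fin N, ((if false then crossP N v else crossN N v) ^ 1)
              (a, b) p * R ((l ++ x :: y :: t).take l.length ++ p.1 :: p.2 :: r)
          | _ => 0) = _
        rw [List.take_left, List.drop_left]
        simp
      rw [e2]
      show ((if A.dir l.length = A.dir (l.length + 1) then (datJ N v).k' else (datJ N v).k) •
        Xl (v ^ (-fr N) • crossN N v) l.length _) (join (l ++ x :: y :: t) ρ) = _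
      rw [Pi.smul_apply, Xl_join, smul_eq_mul, mul_sum, mul_sum, mul_sum]
      refine sum_congr rfl fun p _ => ?_
      rw [ih _ (l ++ p.1 :: p.2 :: t) hw (by
        show _ = A.n
        rw [← hs]
        simp)]
      have e3 : expo (.neg l.length :: w) A = (if A.dir l.length = A.dir (l.length + 1) then 0
          else -1) + expo w ((Pool.Agent.H835R2.Knot.Piece.neg l.length).act A) := rfl
      have e4 : (if A.dir l.length = A.dir (l.length + 1) then (datJ N v).k' else (datJ N v).k) *
          v ^ (-fr N) = v ^ ((if A.dir l.length = A.dir (l.length + 1) then (0 : ℤ) else -1) *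
            ((N : ℤ) ^ 2 - 1)) := by
        split_ifs
        · show v ^ (fr N) * v ^ (-fr N) = _
          rw [← zpow_add₀ hv]
          simp
        · show v ^ (-fr N) * v ^ (-fr N) = _
          rw [← zpow_add₀ hv, ← fr_two hN]
          congr 1
          ring
      rw [e3, add_mul, zpow_add₀ hv, ← e4]
      ring

/-! ### locality -/

lemma act_ext {v : ℂ} {p : Pool.Agent.H835R2.Knot.Piece} {A : Front} (hp : p.Fits A)
    {R R' : List (Fin N) → ℂ} (h : ∀ t : List (Fin N), t.length = (p.act A).n → R t = R' t)
    {s : List (Fin N)} (hs : s.length = A.n) :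
    (trP p).act N v R s = (trP p).act N v R' s := by
  cases p with
  | birth i b =>
    refine sum_congr rfl fun q _ => ?_
    rw [h]
    show _ = A.n + 2
    rw [← hs]
    have : i ≤ s.length := by rw [hs]; exact hp
    simp
    omega
  | death i =>
    obtain ⟨l, t, x, y, rfl, rfl⟩ := split2 (show i + 2 ≤ s.length by rw [hs]; exact hp.1)
    simp only [trP, Pool.Agent.W709.QAT.Piece.act]
    rw [List.take_left, List.drop_left]
    simp only
    rw [h]
    show _ = A.n - 2
    rw [← hs]
    simp
    omega
  | pos i =>
    obtain ⟨l, t, x, y, rfl, rfl⟩ := split2 (show i + 2 ≤ s.length by rw [hs]; exact hp)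
    simp only [trP, Pool.Agent.W709.QAT.Piece.act]
    rw [List.take_left, List.drop_left]
    simp only
    refine sum_congr rfl fun q _ => ?_
    rw [h]
    show _ = A.n
    rw [← hs]
    simp
  | neg i =>
    obtain ⟨l, t, x, y, rfl, rfl⟩ := split2 (show i + 2 ≤ s.length by rw [hs]; exact hp)
    simp only [trP, Pool.Agent.W709.QAT.Piece.act]
    rw [List.take_left, List.drop_left]
    simp only
    refine sum_congr rfl fun q _ => ?_
    rw [h]
    show _ = A.n
    rw [← hs]
    simp

lemma act_pass {v : ℂ} {p : Pool.Agent.H835R2.Knot.Piece} {A : Front} (hp : p.Fits A)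
    (R : List (Fin N) → ℂ) {s : List (Fin N)} (hs : s.length = A.n) (r : List (Fin N)) :
    (trP p).act N v R (s ++ r) = (trP p).act N v (fun t => R (t ++ r)) s := by
  cases p with
  | birth i b =>
    obtain ⟨l, t, rfl, rfl⟩ := split1 (show i ≤ s.length by rw [hs]; exact hp)
    simp only [trP, Pool.Agent.W709.QAT.Piece.act, List.append_assoc, List.take_left,
      List.drop_left, List.cons_append]
  | death i =>
    obtain ⟨l, t, x, y, rfl, rfl⟩ := split2 (show i + 2 ≤ s.length by rw [hs]; exact hp.1)
    simp only [trP, Pool.Agent.W709.QAT.Piece.act, List.append_assoc, List.take_left,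
      List.drop_left, List.cons_append]
  | pos i =>
    obtain ⟨l, t, x, y, rfl, rfl⟩ := split2 (show i + 2 ≤ s.length by rw [hs]; exact hp)
    simp only [trP, Pool.Agent.W709.QAT.Piece.act, List.append_assoc, List.take_left,
      List.drop_left, List.cons_append]
  | neg i =>
    obtain ⟨l, t, x, y, rfl, rfl⟩ := split2 (show i + 2 ≤ s.length by rw [hs]; exact hp)
    simp only [trP, Pool.Agent.W709.QAT.Piece.act, List.append_assoc, List.take_left,
      List.drop_left, List.cons_append]

lemma run_ext {v : ℂ} : ∀ (w : Word) (A : Front), Pool.Agent.H835R2.Knot.Fits w A →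
    ∀ f g : List (Fin N) → ℂ,
      (∀ t : List (Fin N), t.length = (Pool.Agent.H835R2.Knot.run w A).n → f t = g t) →
      ∀ s : List (Fin N), s.length = A.n → run N v (trW w) f s = run N v (trW w) g s := by
  intro w
  induction w with
  | nil => intro A _ f g h s hs; exact h s hs
  | cons p w ih =>
    rintro A ⟨hp, hw⟩ f g h s hs
    rw [trW_cons, run_app, run_one, run_app, run_one]
    exact act_ext hp (ih _ hw f g h) hs

lemma run_pass {v : ℂ} (r : List (Fin N)) : ∀ (w : Word) (A : Front),
    Pool.Agent.H835R2.Knot.Fits w A → ∀ (f : List (Fin N) → ℂ) (s : List (Fin N)),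
      s.length = A.n → run N v (trW w) f (s ++ r) = run N v (trW w) (fun t => f (t ++ r)) s := by
  intro w
  induction w with
  | nil => intro A _ f s _; rfl
  | cons p w ih =>
    rintro A ⟨hp, hw⟩ f s hs
    rw [trW_cons, run_app, run_one, run_app, run_one, act_pass hp _ hs]
    exact act_ext hp (fun t ht => ih _ hw f t ht) hs

lemma valid_trW (j : ℕ) : ∀ (w : Word) (A : Front), Pool.Agent.H835R2.Knot.Fits w A →
    Valid ((Pool.Agent.H835R2.Knot.run w A).n + j) (trW w) (A.n + j) := by
  intro w
  induction w with
  | nil => intro A _; rfl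
  | cons p w ih =>
    rintro A ⟨hp, hw⟩
    have h := ih _ hw
    unfold Valid at h ⊢
    rw [trW_cons, List.foldl_append]
    show List.foldl _ (List.foldl _ (some ((Pool.Agent.H835R2.Knot.run w (p.act A)).n + j)) _) _ = _
    rw [h]
    show (trP p).strands ((p.act A).n + j) = some (A.n + j)
    cases p with
    | birth i b =>
      have h1 : i ≤ A.n := hp
      show (if i + 2 ≤ A.n + 2 + j then some (A.n + 2 + j - 2) else none) = _
      rw [if_pos (by omega)]
      congr 1
      omega
    | death i =>
      have h1 : i + 2 ≤ A.n := hp.1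
      show (if i ≤ A.n - 2 + j then some (A.n - 2 + j + 2) else none) = _
      rw [if_pos (by omega)]
      congr 1
      omega
    | pos i =>
      have h1 : i + 2 ≤ A.n := hp
      show (if i + 2 ≤ A.n + j then some (A.n + j) else none) = _
      rw [if_pos (by omega)]
    | neg i =>
      have h1 : i + 2 ≤ A.n := hp
      show (if i + 2 ≤ A.n + j then some (A.n + j) else none) = _
      rw [if_pos (by omega)]

/-! ### closed diagrams -/

/-- the (1,1)-tangle obtained by cutting a closed diagram open at its top (without the first piece,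
which has to be a maximum), from bottom to top -/
def cut : Word → Diag
  | [] => []
  | _ :: w => trW w ++ [.cap 1]

lemma closed_form {D : Word} (hD : Pool.Agent.H835R2.Knot.Closed D) (hne : D ≠ []) :
    ∃ (b : Bool) (w : Word), D = .birth 0 b :: w ∧
      Pool.Agent.H835R2.Knot.Fits w
        ((Pool.Agent.H835R2.Knot.Piece.birth 0 b).act Front.empty) ∧
      (Pool.Agent.H835R2.Knot.run w
        ((Pool.Agent.H835R2.Knot.Piece.birth 0 b).act Front.empty)).n = 0 := by
  rcases D with _ | ⟨p, w⟩
  · exact absurd rfl hne
  · obtain ⟨⟨hp, hw⟩, h0⟩ := hD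
    cases p with
    | birth i b =>
      have hi : i = 0 := Nat.le_zero.1 hp
      subst hi
      exact ⟨b, w, rfl, hw, h0⟩
    | death i => exact absurd hp.1 (by simp [Front.empty])
    | pos i =>
      have : i + 2 ≤ 0 := hp
      omega
    | neg i =>
      have : i + 2 ≤ 0 := hp
      omega

lemma cut_closed {D : Word} (hD : Pool.Agent.H835R2.Knot.Closed D) (hne : D ≠ []) :
    Pool.Agent.W709.QAT.Closed (cut D) := by
  obtain ⟨b, w, rfl, hw, h0⟩ := closed_form hD hne
  have h := valid_trW 1 w _ hw
  rw [h0] at h
  unfold Valid at h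
  show List.foldl _ (some 1) (trW w ++ [.cap 1]) = some 1
  rw [List.foldl_append]
  show List.foldl _ (List.foldl _ (some (0 + 1)) (trW w)) _ = _
  rw [h]
  rfl

/-- **The values of all closed diagrams.** -/
theorem colE_all {D : Word} (hD : Pool.Agent.H835R2.Knot.Closed D) (hne : D ≠ []) :
    ColE D (fun N v => jones N (cut D) v) (expo D Front.empty) := by
  obtain ⟨b, w, rfl, hw, h0⟩ := closed_form hD hne
  intro N hN u hu σ
  have hv : u ^ 2 ≠ 0 := pow_ne_zero 2 hu.1
  have ha : Adm N (u ^ 2) := ⟨hv, fun k hk _ => hu.2 k hk⟩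
  have h1 := opD_run hN hv σ (fun _ => 1) _ Front.empty [] hD.1 rfl
  rw [join_nil] at h1
  have h2 : val (datJ N (u ^ 2)) (.birth 0 b :: w) σ =
      opD (datJ N (u ^ 2)) (.birth 0 b :: w) Front.empty (fun _ => 1) σ := rfl
  rw [h2, h1, trW_cons, run_app, run_one]
  congr 1
  set R : List (Fin N) → ℂ := run N (u ^ 2) (trW w) (fun _ => 1) with hR
  have h3 : (trP (.birth 0 b)).act N (u ^ 2) R [] =
      ∑ x : Fin N, (kap N (u ^ 2) (Fin.rev x : Fin N))⁻¹ * R [x, Fin.rev x] := by
    show ∑ p : Fin N × Fin N, cap N (u ^ 2) p * R ([].take 0 ++ p.1 :: p.2 :: [].drop 0) = _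
    exact sum_cap (u ^ 2) fun x y => R [x, y]
  rw [h3]
  have h4 : ∀ x y : Fin N, ent (u ^ 2) (cut (.birth 0 b :: w)) x y =
      (kap N (u ^ 2) (y : Fin N))⁻¹ * R [x, Fin.rev y] := by
    intro x y
    show run N (u ^ 2) (trW w ++ [.cap 1]) _ [x] = _
    rw [run_app, run_one]
    show ∑ p : Fin N × Fin N, cap N (u ^ 2) p *
      run N (u ^ 2) (trW w) (fun s => if s = [y] then 1 else 0)
        (([x] : List (Fin N)).take 1 ++ p.1 :: p.2 :: ([x] : List (Fin N)).drop 1) = _
    have h5 := sum_cap (u ^ 2) fun z z' : Fin N =>
      run N (u ^ 2) (trW w) (fun s => if s = [y] then 1 else 0) ([x, z] ++ [z'])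
    refine h5.trans ?_
    have h6 : ∀ z : Fin N, run N (u ^ 2) (trW w) (fun s => if s = [y] then 1 else 0)
        ([x, z] ++ [Fin.rev z]) = (if Fin.rev z = y then 1 else 0) * R [x, z] := by
      intro z
      rw [run_pass [Fin.rev z] w _ hw _ [x, z] rfl,
        run_ext w _ hw _ (fun t => ∑ p ∈ ({()} : Finset Unit),
          (fun _ => if Fin.rev z = y then (1 : ℂ) else 0) p *
          (fun (_ : Unit) (_ : List (Fin N)) => (1 : ℂ)) p t) (by
            intro t ht
            rw [h0] at ht
            rw [List.eq_nil_of_length_eq_zero ht]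
            simp) [x, z] rfl, run_sum]
      simp [hR]
    simp only [h6]
    rw [sum_eq_single (Fin.rev y)]
    · simp
    · intro z _ hz
      rw [if_neg, zero_mul, mul_zero]
      rintro rfl
      exact hz (Fin.rev_rev z).symm
    · simp
  have h7 : ∀ x : Fin N, R [x, Fin.rev x] =
      kap N (u ^ 2) (x : Fin N) * jones N (cut (.birth 0 b :: w)) (u ^ 2) := by
    intro x
    have h8 := h4 x x
    rw [ent_scalar hu, if_pos rfl] at h8
    rw [h8, ← mul_assoc, mul_inv_cancel₀ (kap_ne hu _), one_mul]
  unfold qd
  rw [sum_mul]
  refine sum_congr rfl fun x _ => ?_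
  rw [h7, ← mul_assoc]
  congr 1
  have h9 := Pool.Agent.N566.VV.kap_ratio hN ha x
  rw [kap_kap, kap_kap] at h9
  exact h9

end

end Pool.Agent.L7h82.VV
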