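import Pool.Agent.L7h82.VV.BraidD
import Pool.Agent.L7h82.VV.CloD
import Pool.Agent.N566.VV.Knots

/-!
# Connected sums and towers of cables: a class of knots with given simplicial volumes

Sliced oriented diagrams as in `Pool.Agent.H835R2.Knot.Defs`; `closure`, `IsTangle`, `IsSum` in
`Pool.Agent.L7h82.VV.CloD`; `braidW` in `Pool.Agent.L7h82.VV.BraidD`; `Volumes` in
`Pool.Agent.N566.VV.Knots`.
-/

set_option autoImplicit false

namespace Pool.Agent.L7h82.VV

open Pool.Agent.H835R2.Knot (Word Isotopic circle)
open Pool.Agent.N566.VV (Volumes)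

/-! ### Braid words -/

/-- The permutation of a braid word on `n` strands; the letter `(k, true)` is the generator `s_k`
(strands number `k` and `k + 1`, counted from `0`), the letter `(k, false)` its inverse. -/
def permOf (n : ℕ) (w : List (ℕ × Bool)) : Equiv.Perm (Fin n) :=
  (w.map fun g => if h : g.1 + 1 < n then
    Equiv.swap (⟨g.1, by omega⟩ : Fin n) ⟨g.1 + 1, h⟩ else 1).prod

/-- `w` is a braid word on `n + 1` strands and its closure is a knot: the permutation is one cycle
through all strands. -/
def OneCycle (n : ℕ) (w : List (ℕ × Bool)) : Prop :=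
  (∀ g ∈ w, g.1 < n) ∧ ∀ x : Fin (n + 1), ∃ k : ℕ, (permOf (n + 1) w ^ k) 0 = x

/-- The writhe. -/
def writhe (w : List (ℕ × Bool)) : ℤ := (w.map fun g => if g.2 then (1 : ℤ) else -1).sum

/-- The braid word `∏_{i<m} (s_{2i} s_{2i+1}^{-1})^2` on `2 m + 1` strands, whose closure is the
connected sum of `m` figure-eight knots. -/
def figWord (m : ℕ) : List (ℕ × Bool) :=
  (List.range m).flatMap fun i => [(2 * i, true), (2 * i + 1, false), (2 * i, true),
    (2 * i + 1, false)]

/-- The word `w`, moved to the right by `d` strands. -/
def shift (d : ℕ) (w : List (ℕ × Bool)) : List (ℕ × Bool) := w.map fun g => (g.1 + d, g.2)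

/-- The two-cable of a braid word: every strand is doubled. -/
def twoCable (w : List (ℕ × Bool)) : List (ℕ × Bool) :=
  w.flatMap fun g => [(2 * g.1 + 1, g.2), (2 * g.1, g.2), (2 * g.1 + 2, g.2), (2 * g.1 + 1, g.2)]

/-- `t` half twists of the first two strands. -/
def twist (t : ℤ) : List (ℕ × Bool) := List.replicate t.natAbs (0, decide (0 < t))

/-- The braid word, on `2 (n + 2 m) + 2` strands, of the `(2, s)`-cable of the connected sum of `m`
figure-eight knots and of the closure of `w` on `n + 1` strands: this sum is the closure of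
`figWord m ++ shift (2 * m) w`, which has the writhe of `w`, so that `s - 2 * writhe w` half
twists added to its two-cable give the `(2, s)`-cable. -/
def cableWord (w : List (ℕ × Bool)) (m : ℕ) (s : ℤ) : List (ℕ × Bool) :=
  twoCable (figWord m ++ shift (2 * m) w) ++ twist (s - 2 * writhe w)

/-- One floor `(m, s)`: the knot `K`, closure of the braid word `K.2` on `K.1 + 1` strands, is
replaced by the `(2, s)`-cable of its connected sum with `m` figure-eight knots. -/
def floor (p : ℕ × ℤ) (K : ℕ × List (ℕ × Bool)) : ℕ × List (ℕ × Bool) :=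
  (2 * (K.1 + 2 * p.1) + 1, cableWord K.2 p.1 p.2)

/-- The tower over `K` with the list of floors `l` (the first one in the list is the top floor). -/
def tower (l : List (ℕ × ℤ)) (K : ℕ × List (ℕ × Bool)) : ℕ × List (ℕ × Bool) := l.foldr floor K

/-- The number of figure-eight knots in a tower. -/
def figs (l : List (ℕ × ℤ)) : ℕ := (l.map Prod.fst).sum

/-- Lobachevsky's function `Λ(x) = -∫_0^x log |2 sin t| dt`. -/
noncomputable def Lob (x : ℝ) : ℝ := -∫ t in (0 : ℝ)..x, Real.log |2 * Real.sin t|

/-- The hyperbolic volume of the figure-eight knot complement, `4 Λ(π/6) = 6 Λ(π/3) = 2.0298…`. -/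
noncomputable def vol41 : ℝ := 4 * Lob (Real.pi / 6)

/-- `2^{r+2} π log 2 · (number of letters of w)`, for towers with `r` floors over the closure of `w`;
it is `0` for the unknot, `w = []`. -/
noncomputable def crude (w : List (ℕ × Bool)) (r : ℕ) : ℝ :=
  2 * Real.pi * (2 * 2 ^ r * Real.log 2 * w.length)

/-- The class of knots with their simplicial volumes (sums of the volumes of the hyperbolic pieces of
the JSJ decomposition of the complement):
* the unknot, with volume `0`;
* the knots `D` of the two classes `Volumes K M D S` (arborescent knots, knots on the polyhedra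
  `(2 k)*`), with their hyperbolic volumes `V`, the maxima of the volumes `S` of the angle structures;
* connected sums;
* towers: let the closure of the braid word `w` (on `n + 1` strands) be a knot of the class of volume
  `V`, and let `l` be a nonempty list of floors `(m, s)`, `s` odd, such that on every floor `m ≥ 1` and
  `V + m vol(4_1) > c`, and on the bottom floor `V + m vol(4_1) > c + vol(4_1)`, where `c = crude w r`,
  `r` the number of floors (for the unknot, `w = []`, this means `m ≥ 1` on every floor and `m ≥ 2` on
  the bottom floor); the volume is `V + M vol(4_1)`, `M` the number of figure-eight knots. -/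
inductive HasVolume (K : ℕ) (M : ℕ → ℕ) : Word → ℝ → Prop
  | unknot (D : Word) : Isotopic circle D → HasVolume K M D 0
  | hyperbolic (D : Word) (S : Set ℝ) (V : ℝ) : Volumes K M D S → IsGreatest S V →
      HasVolume K M D V
  | sum (D₁ D₂ D : Word) (V₁ V₂ : ℝ) : HasVolume K M D₁ V₁ → HasVolume K M D₂ V₂ →
      IsSum D₁ D₂ D → HasVolume K M D (V₁ + V₂)
  | tower (n : ℕ) (w : List (ℕ × Bool)) (V : ℝ) (l : List (ℕ × ℤ)) (hl : l ≠ []) (D : Word) :
      OneCycle n w → HasVolume K M (braidW n w) V →
      (∀ p ∈ l, Odd p.2 ∧ 1 ≤ p.1 ∧ crude w l.length < V + p.1 * vol41) →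
      crude w l.length + vol41 < V + (l.getLast hl).1 * vol41 →
      Isotopic (braidW (tower l (n, w)).1 (tower l (n, w)).2) D →
      HasVolume K M D (V + figs l * vol41)

end Pool.Agent.L7h82.VV
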