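import Pool.Agent.L7h82.VV.Braid
import Pool.Agent.L7h82.VV.TowerD

/-!
# The closure of a braid whose permutation is one cycle is a knot diagram
-/

set_option autoImplicit false

namespace Pool.Agent.L7h82.VV

open Pool.Agent.H835R2.Knot (Word Front Fits run comps IsKnot up dn sw)
open Pool.Agent.N566.VV (letW)

/-! ### cyclic maps -/

/-- every number less than `m` is reached from `0` -/
def Cyc (m : ℕ) (π : ℕ → ℕ) : Prop :=
  (∀ q, q < m → π q < m) ∧ ∀ x, x < m → ∃ k, 1 ≤ k ∧ π^[k] 0 = x

lemma iter_fix {π : ℕ → ℕ} {a : ℕ} (h : π a = a) (k : ℕ) : π^[k] a = a :=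
  Function.iterate_fixed h k

lemma cyc_ne {m : ℕ} {π : ℕ → ℕ} (h : Cyc (m + 2) π) : π (m + 1) ≠ m + 1 := by
  intro hf
  obtain ⟨k, -, hk⟩ := h.2 (m + 1) (by omega)
  obtain ⟨k₀, h1, h0⟩ := h.2 0 (by omega)
  have h2 : ∀ j : ℕ, π^[j * k₀] 0 = 0 := by
    intro j
    rw [mul_comm, Function.iterate_mul]
    exact iter_fix h0 j
  have h3 := h2 k
  obtain ⟨e, he⟩ : ∃ e, k * k₀ = e + k := ⟨k * k₀ - k, by
    have : k ≤ k * k₀ := Nat.le_mul_of_pos_right k (by omega)
    omega⟩
  rw [he, Function.iterate_add_apply, hk, iter_fix hf] at h3
  omega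

lemma cyc_del {m : ℕ} {π : ℕ → ℕ} (h : Cyc (m + 2) π) :
    Cyc (m + 1) (fun q => if π q = m + 1 then π (m + 1) else π q) := by
  have hne := cyc_ne h
  have hlt : π (m + 1) < m + 1 := by
    have := h.1 (m + 1) (by omega)
    omega
  constructor
  · intro q hq
    show (if π q = m + 1 then π (m + 1) else π q) < m + 1
    have h1 := h.1 q (by omega)
    split_ifs with h2
    · exact hlt
    · omega
  · have key : ∀ k : ℕ, 1 ≤ k → ∀ x, x < m + 1 → π^[k] 0 = x →
        ∃ k', 1 ≤ k' ∧ (fun q => if π q = m + 1 then π (m + 1) else π q)^[k'] 0 = x := by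
      intro k
      induction k using Nat.strong_induction_on with
      | _ k ih =>
        intro hk x hx hkx
        obtain ⟨j, rfl⟩ : ∃ j, k = j + 1 := ⟨k - 1, by omega⟩
        rw [Function.iterate_succ_apply'] at hkx
        set y := π^[j] 0 with hy
        rcases Nat.eq_zero_or_pos j with h0 | h0
        · subst h0
          refine ⟨1, le_rfl, ?_⟩
          simp only [Function.iterate_zero, id_eq] at hy
          show (if π 0 = m + 1 then π (m + 1) else π 0) = x
          rw [hy] at hkx
          rw [if_neg (by omega), hkx]
        · have hyb : y < m + 2 := by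
            have : ∀ i, π^[i] 0 < m + 2 := by
              intro i
              induction i with
              | zero => simp
              | succ i ih => rw [Function.iterate_succ_apply']; exact h.1 _ ih
            exact this j
          rcases Nat.lt_or_ge y (m + 1) with h1 | h1
          · obtain ⟨k', hk', e⟩ := ih j (by omega) h0 y h1 rfl
            refine ⟨k' + 1, by omega, ?_⟩
            rw [Function.iterate_succ_apply', e]
            show (if π y = m + 1 then π (m + 1) else π y) = x
            rw [if_neg (by omega), hkx]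
          · have h2 : y = m + 1 := by omega
            obtain ⟨i, rfl⟩ : ∃ i, j = i + 1 := ⟨j - 1, by omega⟩
            rw [Function.iterate_succ_apply'] at hy
            set z := π^[i] 0 with hz
            have hzb : z < m + 1 := by
              have hz2 : z < m + 2 := by
                have : ∀ i, π^[i] 0 < m + 2 := by
                  intro i
                  induction i with
                  | zero => simp
                  | succ i ih => rw [Function.iterate_succ_apply']; exact h.1 _ ih
                exact this i
              rcases Nat.lt_or_ge z (m + 1) with h3 | h3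
              · exact h3
              · exfalso
                have h4 : z = m + 1 := by omega
                rw [h4] at hy
                omega
            rcases Nat.eq_zero_or_pos i with h3 | h3
            · refine ⟨1, le_rfl, ?_⟩
              have h5 : z = 0 := by
                rw [hz, h3]
                rfl
              rw [h5] at hy
              show (if π 0 = m + 1 then π (m + 1) else π 0) = x
              rw [if_pos (by omega), ← hkx, h2]
            · obtain ⟨k', hk', e⟩ := ih i (by omega) h3 z hzb rfl
              refine ⟨k' + 1, by omega, ?_⟩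
              rw [Function.iterate_succ_apply', e]
              show (if π z = m + 1 then π (m + 1) else π z) = x
              rw [if_pos (by omega), ← hkx, h2]
    intro x hx
    obtain ⟨k, hk, e⟩ := h.2 x (by omega)
    exact key k hk x hx e

/-! ### fronts -/

/-- the fronts of closures of braids on `m` strands -/
structure Fr (A : Front) (m : ℕ) (π : ℕ → ℕ) : Prop where
  n : A.n = 2 * m
  dir : ∀ p, p < 2 * m → A.dir p = decide (p < m)
  l : ∀ p, p < m → A.fin p = p
  r : ∀ q, q < m → A.fin (2 * m - 1 - q) = π q

lemma fr_births : ∀ (m j : ℕ) (A : Front), Fr A j id → Fits (birthsW j m) A ∧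
    Fr (run (birthsW j m) A) (j + m) id ∧ comps (birthsW j m) A = 0 := by
  intro m
  induction m with
  | zero => intro j A h; exact ⟨trivial, h, rfl⟩
  | succ m ih =>
    intro j A h
    have h1 : Fr ((Pool.Agent.H835R2.Knot.Piece.birth j true).act A) (j + 1) id := by
      constructor
      · show A.n + 2 = _
        rw [h.n]
        ring
      · intro p hp
        show (if p < j then A.dir p else if p = j then true else if p = j + 1 then !true
          else A.dir (p - 2)) = _
        split_ifs with a b c
        · rw [h.dir p (by omega)]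
          simp only [decide_eq_decide]
          omega
        · simp
          omega
        · simp
          omega
        · rw [h.dir (p - 2) (by omega)]
          simp only [decide_eq_decide]
          omega
      · intro p hp
        show (if p < j then up j (A.fin p) else if p = j ∨ p = j + 1 then
          j else up j (A.fin (p - 2))) = p
        split_ifs with a b
        · rw [h.l p a]
          unfold up
          rw [if_pos a]
        · omega
        · omega
      · intro q hq
        show (if 2 * (j + 1) - 1 - q < j then up j (A.fin (2 * (j + 1) - 1 - q)) else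
          if 2 * (j + 1) - 1 - q = j ∨ 2 * (j + 1) - 1 - q = j + 1 then
          j else up j (A.fin (2 * (j + 1) - 1 - q - 2))) = q
        split_ifs with a b
        · omega
        · omega
        · have e : 2 * (j + 1) - 1 - q - 2 = 2 * j - 1 - q := by omega
          rw [e, h.r q (by omega)]
          unfold up
          simp only [id_eq]
          rw [if_pos (by omega)]
    obtain ⟨i1, i2, i3⟩ := ih (j + 1) _ h1
    rw [births_succ]
    refine ⟨⟨?_, i1⟩, ?_, ?_⟩
    · show j ≤ A.n
      rw [h.n]
      omega
    · show Fr (run (birthsW (j + 1) m) _) _ id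
      rw [show j + (m + 1) = j + 1 + m by ring]
      exact i2
    · show 0 + comps (birthsW (j + 1) m) _ = 0
      rw [i3]

lemma sw_lt {k m p : ℕ} (hk : k + 1 < m) : sw k p < m ↔ p < m := by
  unfold sw
  split_ifs <;> omega

lemma sw_sw (k p : ℕ) : sw k (sw k p) = p := by
  unfold sw
  split_ifs <;> omega

lemma fr_letter {A : Front} {m : ℕ} {π : ℕ → ℕ} (h : Fr A m π) (g : ℕ × Bool)
    (hk : g.1 + 1 < m) : (letW g).Fits A ∧ Fr ((letW g).act A) m (fun q => sw g.1 (π q)) ∧
      (letW g).closes A = false := by
  obtain ⟨k, b⟩ := g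
  have key : Fr ⟨A.n, fun p => A.dir (sw k p), fun p => sw k (A.fin (sw k p))⟩ m
      (fun q => sw k (π q)) := by
    constructor
    · exact h.n
    · intro p hp
      show A.dir (sw k p) = _
      rw [h.dir _ ((sw_lt (show k + 1 < 2 * m by simp only at hk; omega)).2 hp)]
      simp only [decide_eq_decide]
      exact sw_lt hk
    · intro p hp
      show sw k (A.fin (sw k p)) = p
      rw [h.l _ ((sw_lt hk).2 hp), sw_sw]
    · intro q hq
      show sw k (A.fin (sw k (2 * m - 1 - q))) = _
      have e : sw k (2 * m - 1 - q) = 2 * m - 1 - q := by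
        unfold sw
        simp only at hk
        rw [if_neg (by omega), if_neg (by omega)]
      rw [e, h.r q hq]
  cases b
  · refine ⟨?_, key, rfl⟩
    show k + 2 ≤ A.n
    rw [h.n]
    simp only at hk
    omega
  · refine ⟨?_, key, rfl⟩
    show k + 2 ≤ A.n
    rw [h.n]
    simp only at hk
    omega

/-- the permutation of a braid word, from top to bottom -/
def iterW : List (ℕ × Bool) → ℕ → ℕ
  | [], q => q
  | g :: w, q => iterW w (sw g.1 q)

lemma fr_letters {m : ℕ} : ∀ (w : List (ℕ × Bool)), (∀ g ∈ w, g.1 + 1 < m) → ∀ (A : Front)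
    (π : ℕ → ℕ), Fr A m π → Fits (w.map letW) A ∧
      Fr (run (w.map letW) A) m (fun q => iterW w (π q)) ∧ comps (w.map letW) A = 0 := by
  intro w
  induction w with
  | nil => intro _ A π h; exact ⟨trivial, h, rfl⟩
  | cons g w ih =>
    intro hw A π h
    obtain ⟨h1, h2, h3⟩ := fr_letter h g (hw g List.mem_cons_self)
    obtain ⟨i1, i2, i3⟩ := ih (fun g' hg' => hw g' (List.mem_cons_of_mem _ hg')) _ _ h2
    refine ⟨⟨h1, i1⟩, i2, ?_⟩
    show (if (letW g).closes A = true then 1 else 0) + comps (w.map letW) _ = 0
    rw [h3, i3]
    rfl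

lemma deaths_top (m : ℕ) : deathsW 0 (m + 1) = .death m :: deathsW 0 m := by
  unfold deathsW
  rw [List.range_succ, List.map_append, List.reverse_append]
  simp

lemma fr_deaths : ∀ (m : ℕ) (A : Front) (π : ℕ → ℕ), Fr A (m + 1) π → Cyc (m + 1) π →
    Fits (deathsW 0 (m + 1)) A ∧ (run (deathsW 0 (m + 1)) A).n = 0 ∧
      comps (deathsW 0 (m + 1)) A = 1 := by
  intro m
  induction m with
  | zero =>
    intro A π h hc
    have h0 : π 0 = 0 := by
      have := hc.1 0 (by omega)
      omega
    have d0 : A.dir 0 = true := by rw [h.dir 0 (by omega)]; rfl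
    have d1 : A.dir 1 = false := by rw [h.dir 1 (by omega)]; rfl
    have f1 : A.fin 1 = 0 := by
      have := h.r 0 (by omega)
      rw [h0] at this
      exact this
    refine ⟨⟨⟨?_, ?_⟩, trivial⟩, ?_, ?_⟩
    · show 0 + 2 ≤ A.n
      rw [h.n]
    · show A.dir (0 + 1) = !A.dir 0
      rw [d0, d1]
      rfl
    · show A.n - 2 = 0
      rw [h.n]
    · show (if decide (A.fin (A.inn 0) = A.out 0) = true then 1 else 0) + 0 = 1
      have e1 : A.inn 0 = 1 := by
        unfold Front.inn
        rw [if_pos d0]
      have e2 : A.out 0 = 0 := by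
        unfold Front.out
        rw [if_pos d0]
      rw [e1, e2, f1]
      rfl
  | succ m ih =>
    intro A π h hc
    have hne := cyc_ne hc
    have hlt : π (m + 1) < m + 1 := by
      have := hc.1 (m + 1) (by omega)
      omega
    have d0 : A.dir (m + 1) = true := by
      rw [h.dir (m + 1) (by omega)]
      simp
    have d1 : A.dir (m + 2) = false := by
      rw [h.dir (m + 2) (by omega)]
      simp
    have e1 : A.inn (m + 1) = m + 2 := by
      unfold Front.inn
      rw [if_pos d0]
    have e2 : A.out (m + 1) = m + 1 := by
      unfold Front.out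
      rw [if_pos d0]
    have f1 : A.fin (m + 2) = π (m + 1) := by
      have := h.r (m + 1) (by omega)
      rw [show 2 * (m + 1 + 1) - 1 - (m + 1) = m + 2 by omega] at this
      exact this
    have hfr : Fr ((Pool.Agent.H835R2.Knot.Piece.death (m + 1)).act A) (m + 1)
        (fun q => if π q = m + 1 then π (m + 1) else π q) := by
      constructor
      · show A.n - 2 = _
        rw [h.n]
        omega
      · intro p hp
        show A.dir (up (m + 1) p) = _
        unfold up
        split_ifs with a
        · rw [h.dir p (by omega)]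
          simp only [decide_eq_decide]
          omega
        · rw [h.dir (p + 2) (by omega)]
          simp only [decide_eq_decide]
          omega
      · intro p hp
        show (if A.fin (up (m + 1) p) = A.out (m + 1) then dn (m + 1) (A.fin (A.inn (m + 1)))
          else dn (m + 1) (A.fin (up (m + 1) p))) = p
        have u1 : up (m + 1) p = p := by
          unfold up
          rw [if_pos hp]
        rw [u1, h.l p (by omega), e2, if_neg (by omega)]
        unfold dn
        rw [if_pos hp]
      · intro q hq
        show (if A.fin (up (m + 1) (2 * (m + 1) - 1 - q)) = A.out (m + 1) then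
          dn (m + 1) (A.fin (A.inn (m + 1)))
          else dn (m + 1) (A.fin (up (m + 1) (2 * (m + 1) - 1 - q)))) =
          if π q = m + 1 then π (m + 1) else π q
        have u1 : up (m + 1) (2 * (m + 1) - 1 - q) = 2 * (m + 1 + 1) - 1 - q := by
          unfold up
          rw [if_neg (by omega)]
          omega
        rw [u1, h.r q (by omega), e2, e1, f1]
        have hq2 := hc.1 q (by omega)
        split_ifs with a
        · unfold dn
          rw [if_pos hlt]
        · unfold dn
          rw [if_pos (by omega)]
    obtain ⟨i1, i2, i3⟩ := ih _ _ hfr (cyc_del hc)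
    rw [deaths_top]
    refine ⟨⟨⟨?_, ?_⟩, i1⟩, i2, ?_⟩
    · show m + 1 + 2 ≤ A.n
      rw [h.n]
      omega
    · show A.dir (m + 1 + 1) = !A.dir (m + 1)
      rw [d0, d1]
      rfl
    · show (if decide (A.fin (A.inn (m + 1)) = A.out (m + 1)) = true then 1 else 0) +
        comps (deathsW 0 (m + 1)) _ = 1
      rw [e1, e2, f1, i3, decide_eq_false hne]
      rfl

/-! ### the permutation -/

lemma iterW_perm (n : ℕ) : ∀ (w : List (ℕ × Bool)), (∀ g ∈ w, g.1 < n) → ∀ x : Fin (n + 1),
    (((permOf (n + 1) w)⁻¹ x : Fin (n + 1)) : ℕ) = iterW w x := by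
  intro w
  induction w with
  | nil =>
    intro _ x
    simp [permOf, iterW]
  | cons g w ih =>
    intro hw x
    have hg := hw g List.mem_cons_self
    have hg' : g.1 + 1 < n + 1 := by omega
    have e : permOf (n + 1) (g :: w) =
        Equiv.swap (⟨g.1, by omega⟩ : Fin (n + 1)) ⟨g.1 + 1, hg'⟩ * permOf (n + 1) w := by
      unfold permOf
      rw [List.map_cons, List.prod_cons, dif_pos hg']
    rw [e, mul_inv_rev, Equiv.swap_inv, Equiv.Perm.mul_apply,
      ih fun g' hg' => hw g' (List.mem_cons_of_mem _ hg')]
    show iterW w _ = iterW w (sw g.1 x)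
    congr 1
    unfold sw
    rw [Equiv.swap_apply_def]
    by_cases h1 : x = ⟨g.1, by omega⟩
    · rw [if_pos h1, h1, if_pos rfl]
    · rw [if_neg h1]
      have h1' : ¬ (x : ℕ) = g.1 := fun h => h1 (Fin.ext h)
      rw [if_neg h1']
      by_cases h2 : x = ⟨g.1 + 1, hg'⟩
      · rw [if_pos h2, h2, if_pos rfl]
      · rw [if_neg h2]
        have h2' : ¬ (x : ℕ) = g.1 + 1 := fun h => h2 (Fin.ext h)
        rw [if_neg h2']

lemma cyc_of_oneCycle {n : ℕ} {w : List (ℕ × Bool)} (h : OneCycle n w) :
    Cyc (n + 1) (iterW w) := by
  obtain ⟨hw, hc⟩ := h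
  have key : ∀ k : ℕ, ((((permOf (n + 1) w)⁻¹) ^ k) (0 : Fin (n + 1)) : ℕ) = (iterW w)^[k] 0 := by
    intro k
    induction k with
    | zero => simp
    | succ k ih =>
      rw [pow_succ', Equiv.Perm.mul_apply, iterW_perm n w hw, ih, Function.iterate_succ_apply']
  constructor
  · intro q hq
    rw [← iterW_perm n w hw ⟨q, hq⟩]
    exact Fin.is_lt _
  · intro x hx
    obtain ⟨k, hk⟩ := hc ⟨x, hx⟩
    set P := permOf (n + 1) w with hP
    have hd : 0 < orderOf P := orderOf_pos P
    have hle : k < orderOf P * (k + 1) := by nlinarith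
    refine ⟨orderOf P * (k + 1) - k, by omega, ?_⟩
    rw [← key]
    have e : (P⁻¹) ^ (orderOf P * (k + 1) - k) = P ^ k := by
      have h1 : (P⁻¹) ^ (orderOf P * (k + 1) - k) * (P⁻¹) ^ k = 1 := by
        rw [← pow_add, Nat.sub_add_cancel hle.le, inv_pow, pow_mul, pow_orderOf_eq_one, one_pow,
          inv_one]
      rw [inv_pow P k, mul_inv_eq_one] at h1
      exact h1
    rw [e, hk]

lemma fits_app : ∀ (w w' : Word) (A : Front), Fits (w ++ w') A ↔ Fits w A ∧ Fits w' (run w A) := by
  intro w
  induction w with
  | nil => intro w' A; simp [Fits, run]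
  | cons p w ih =>
    intro w' A
    show (p.Fits A ∧ Fits (w ++ w') (p.act A)) ↔
      ((p.Fits A ∧ Fits w (p.act A)) ∧ Fits w' (run w (p.act A)))
    rw [ih, and_assoc]

lemma run_app' : ∀ (w w' : Word) (A : Front), run (w ++ w') A = run w' (run w A) := by
  intro w
  induction w with
  | nil => intro w' A; rfl
  | cons p w ih => intro w' A; exact ih w' (p.act A)

lemma comps_app : ∀ (w w' : Word) (A : Front),
    comps (w ++ w') A = comps w A + comps w' (run w A) := by
  intro w
  induction w with
  | nil => intro w' A; show comps w' A = 0 + comps w' A; rw [zero_add]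
  | cons p w ih =>
    intro w' A
    show (if p.closes A = true then 1 else 0) + comps (w ++ w') (p.act A) =
      (if p.closes A = true then 1 else 0) + comps w (p.act A) + comps w' (run w (p.act A))
    rw [ih, add_assoc]

/-- the closure of a braid word whose permutation is one cycle is a knot diagram -/
theorem knot_braid {n : ℕ} {w : List (ℕ × Bool)} (h : OneCycle n w) : IsKnot (braidW n w) := by
  have h0 : Fr Front.empty 0 id := ⟨rfl, by intro p hp; omega, by intro p hp; omega,
    by intro p hp; omega⟩
  obtain ⟨a1, a2, a3⟩ := fr_births (n + 1) 0 _ h0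
  rw [zero_add] at a2
  obtain ⟨b1, b2, b3⟩ := fr_letters w (fun g hg => by have := h.1 g hg; omega) _ _ a2
  obtain ⟨c1, c2, c3⟩ := fr_deaths n _ _ b2 (by
    have := cyc_of_oneCycle h
    simpa using this)
  rw [braidW_eq]
  refine ⟨⟨?_, ?_⟩, ?_⟩
  · rw [fits_app, fits_app]
    exact ⟨a1, b1, c1⟩
  · rw [run_app', run_app']
    exact c2
  · rw [comps_app, comps_app, a3, b3, c3]

end Pool.Agent.L7h82.VV
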