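import Pool.Agent.L7h82.VV.Small

/-!
# Every knot diagram is isotopic to the closure of a (1,1)-tangle diagram with the same crossings
-/

set_option autoImplicit false

namespace Pool.Agent.L7h82.VV

open Pool.Agent.H835R2.Knot (Word Front Fits run IsKnot Isotopic Piece Closed Step Move)

/-- the same strands -/
def Agree (F G : Front) : Prop := F.n = G.n ∧ ∀ p, p < F.n → G.dir p = F.dir p

/-- `d` more strands to the right -/
def Ext (d : ℕ) (F G : Front) : Prop := G.n = F.n + d ∧ ∀ p, p < F.n → G.dir p = F.dir p

lemma ext_zero {F G : Front} : Ext 0 F G ↔ Agree F G := by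
  unfold Ext Agree
  simp only [add_zero]
  constructor <;> rintro ⟨h1, h2⟩ <;> exact ⟨h1.symm, h2⟩

lemma ext_piece {d : ℕ} {F G : Front} (h : Ext d F G) {p : Piece} (hp : p.Fits F) :
    p.Fits G ∧ Ext d (p.act F) (p.act G) ∧
      ∀ j, j < d → (p.act G).dir ((p.act F).n + j) = G.dir (F.n + j) := by
  obtain ⟨h1, h2⟩ := h
  cases p with
  | birth i b =>
    have hi : i ≤ F.n := hp
    refine ⟨by show i ≤ G.n; omega, ⟨by show G.n + 2 = F.n + 2 + d; omega, fun p hp' => ?_⟩,
      fun j _ => ?_⟩
    · have hp2 : p < F.n + 2 := hp'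
      show (if p < i then G.dir p else if p = i then b else if p = i + 1 then !b
        else G.dir (p - 2)) = (if p < i then F.dir p else if p = i then b else if p = i + 1 then !b
        else F.dir (p - 2))
      split_ifs
      · exact h2 p (by omega)
      · rfl
      · rfl
      · exact h2 _ (by omega)
    · show (if F.n + 2 + j < i then G.dir (F.n + 2 + j) else if F.n + 2 + j = i then b else
        if F.n + 2 + j = i + 1 then !b else G.dir (F.n + 2 + j - 2)) = _
      rw [if_neg (by omega), if_neg (by omega), if_neg (by omega)]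
      congr 1
      omega
  | death i =>
    have hi : i + 2 ≤ F.n := hp.1
    refine ⟨⟨by show i + 2 ≤ G.n; omega, ?_⟩,
      ⟨by show G.n - 2 = F.n - 2 + d; omega, fun p hp' => ?_⟩, fun j _ => ?_⟩
    · rw [h2 _ (by omega), h2 _ (by omega)]
      exact hp.2
    · have hp2 : p < F.n - 2 := hp'
      show G.dir (Pool.Agent.H835R2.Knot.up i p) = F.dir (Pool.Agent.H835R2.Knot.up i p)
      refine h2 _ ?_
      unfold Pool.Agent.H835R2.Knot.up
      split_ifs <;> omega
    · show G.dir (Pool.Agent.H835R2.Knot.up i (F.n - 2 + j)) = _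
      unfold Pool.Agent.H835R2.Knot.up
      rw [if_neg (by omega)]
      congr 1
      omega
  | pos i =>
    have hi : i + 2 ≤ F.n := hp
    refine ⟨by show i + 2 ≤ G.n; omega, ⟨h1, fun p hp' => ?_⟩, fun j _ => ?_⟩
    · have hp2 : p < F.n := hp'
      show G.dir (Pool.Agent.H835R2.Knot.sw i p) = F.dir (Pool.Agent.H835R2.Knot.sw i p)
      refine h2 _ ?_
      unfold Pool.Agent.H835R2.Knot.sw
      split_ifs <;> omega
    · show G.dir (Pool.Agent.H835R2.Knot.sw i (F.n + j)) = _
      unfold Pool.Agent.H835R2.Knot.sw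
      rw [if_neg (by omega), if_neg (by omega)]
  | neg i =>
    have hi : i + 2 ≤ F.n := hp
    refine ⟨by show i + 2 ≤ G.n; omega, ⟨h1, fun p hp' => ?_⟩, fun j _ => ?_⟩
    · have hp2 : p < F.n := hp'
      show G.dir (Pool.Agent.H835R2.Knot.sw i p) = F.dir (Pool.Agent.H835R2.Knot.sw i p)
      refine h2 _ ?_
      unfold Pool.Agent.H835R2.Knot.sw
      split_ifs <;> omega
    · show G.dir (Pool.Agent.H835R2.Knot.sw i (F.n + j)) = _
      unfold Pool.Agent.H835R2.Knot.sw
      rw [if_neg (by omega), if_neg (by omega)]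

lemma ext_word {d : ℕ} : ∀ (w : Word) {F G : Front}, Ext d F G → Fits w F →
    Fits w G ∧ Ext d (run w F) (run w G) ∧
      ∀ j, j < d → (run w G).dir ((run w F).n + j) = G.dir (F.n + j) := by
  intro w
  induction w with
  | nil => intro F G h _; exact ⟨trivial, h, fun _ _ => rfl⟩
  | cons p w ih =>
    intro F G h hw
    obtain ⟨h1, h2, h3⟩ := ext_piece h hw.1
    obtain ⟨h4, h5, h6⟩ := ih h2 hw.2
    exact ⟨⟨h1, h4⟩, h5, fun j hj => (h6 j hj).trans (h3 j hj)⟩

lemma act_n {p : Piece} {F : Front} (hp : p.Fits F) :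
    (p.act F).n = F.n + p.outs - p.ins ∧ p.index + p.ins ≤ F.n := by
  cases p with
  | birth i b => exact ⟨rfl, hp⟩
  | death i => exact ⟨rfl, hp.1⟩
  | pos i => exact ⟨rfl, hp⟩
  | neg i => exact ⟨rfl, hp⟩

/-- a minimum of the two strands on the right of a diagram, at any height -/
lemma fits_mid {F G : Front} (h : Ext 2 F G) (hd : G.dir (F.n + 1) = !G.dir (F.n + 0))
    (u v : Word) (hw : Fits (u ++ v) F) : Fits (u ++ .death (run u F).n :: v) G ∧
      (run (u ++ .death (run u F).n :: v) G).n = (run (u ++ v) F).n := by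
  rw [fits_app'] at hw
  obtain ⟨h1, h2, h3⟩ := ext_word u h hw.1
  have hda : (run u G).dir ((run u F).n + 1) = !(run u G).dir (run u F).n := by
    have e1 := h3 1 (by norm_num)
    have e2 := h3 0 (by norm_num)
    rw [add_zero] at e2
    rw [e1, e2]
    exact hd
  have hfit : (Piece.death (run u F).n).Fits (run u G) := by
    refine ⟨?_, hda⟩
    have := h2.1
    omega
  have hag : Ext 0 (run u F) ((Piece.death (run u F).n).act (run u G)) := by
    refine ⟨?_, fun p hp => ?_⟩
    · show (run u G).n - 2 = _
      have := h2.1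
      omega
    · show (run u G).dir (Pool.Agent.H835R2.Knot.up (run u F).n p) = _
      rw [show Pool.Agent.H835R2.Knot.up (run u F).n p = p from if_pos hp]
      exact h2.2 p hp
  obtain ⟨h4, h5, -⟩ := ext_word v hag hw.2
  refine ⟨(fits_app' _ _ _).2 ⟨h1, hfit, h4⟩, ?_⟩
  rw [front_app, front_app]
  show (run v ((Piece.death (run u F).n).act (run u G))).n = _
  rw [h5.1]
  rfl

lemma slide_down {F G : Front} (h : Ext 2 F G) (hd : G.dir (F.n + 1) = !G.dir (F.n + 0))
    (x : Word) (hx : Fits x Front.empty) (hG : run x Front.empty = G) (w : Word)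
    (hw : Fits w F) (h0 : (run w F).n = 0) : ∀ (v u : Word), u ++ v = w →
      Isotopic (x ++ (u ++ .death (run u F).n :: v)) (x ++ (w ++ [.death 0])) := by
  have hcl : ∀ u v : Word, u ++ v = w → Closed (x ++ (u ++ .death (run u F).n :: v)) := by
    intro u v huv
    have h1 := fits_mid h hd u v (by rw [huv]; exact hw)
    refine ⟨(fits_app' _ _ _).2 ⟨hx, by rw [hG]; exact h1.1⟩, ?_⟩
    rw [front_app, hG, h1.2, huv, h0]
  intro v
  induction v with
  | nil =>
    intro u hu
    rw [List.append_nil] at hu
    subst hu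
    rw [h0]
    exact Relation.EqvGen.refl _
  | cons p v ih =>
    intro u hu
    have hu' : (u ++ [p]) ++ v = w := by rw [← hu]; simp
    refine Relation.EqvGen.trans _ _ _ (Relation.EqvGen.symm _ _ ?_) (ih (u ++ [p]) hu')
    have hfit : p.Fits (run u F) := by
      rw [← hu, fits_app'] at hw
      exact hw.2.1
    obtain ⟨e1, e2⟩ := act_n hfit
    have e3 : run (u ++ [p]) F = p.act (run u F) := by rw [front_app]; rfl
    have hs : Step (x ++ u ++ [p, .death (p.act (run u F)).n] ++ v)
        (x ++ u ++ [.death (run u F).n, p] ++ v) := by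
      refine Step.mk (x ++ u) _ _ v ?_ ?_ ?_
      · have hm := Move.exchange p (.death (run u F).n) e2
        rw [e1]
        exact hm
      · have := hcl (u ++ [p]) v hu'
        rw [e3] at this
        simpa using this
      · have := hcl u (p :: v) hu
        simpa using this
    have hs' := Relation.EqvGen.rel _ _ hs
    rw [e3]
    simpa using hs'

/-- **Cutting open a closed diagram.** -/
theorem closure_open {b : Bool} {w : Word} (hD : IsKnot (.birth 0 b :: w)) :
    IsTangle b (.birth 1 (!b) :: w) ∧ IsKnot (closure b (.birth 1 (!b) :: w)) ∧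
      Isotopic (closure b (.birth 1 (!b) :: w)) (.birth 0 b :: w) := by
  set F : Front := (Piece.birth 0 b).act Front.empty with hF
  have hw : Fits w F := hD.1.1.2
  have h0 : (run w F).n = 0 := hD.1.2
  have hFn : F.n = 2 := rfl
  have hF0 : F.dir 0 = b := rfl
  have hF1 : F.dir 1 = !b := rfl
  -- the tangle
  have ht : IsTangle b (.birth 1 (!b) :: w) := by
    have hext : Ext 1 F ((Piece.birth 1 (!b)).act (oneStrand b)) := by
      refine ⟨rfl, fun p hp => ?_⟩
      rw [hFn] at hp
      interval_cases p
      · rfl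
      · rfl
    obtain ⟨h1, h2, -⟩ := ext_word w hext hw
    refine ⟨⟨le_rfl, h1⟩, ?_⟩
    show (run w ((Piece.birth 1 (!b)).act (oneStrand b))).n = 1
    rw [h2.1, h0]
  set G : Front := (Piece.birth 1 (!b)).act F with hG
  have hext : Ext 2 F G := by
    refine ⟨rfl, fun p hp => ?_⟩
    rw [hFn] at hp
    interval_cases p
    · rfl
    · rfl
  have hd : G.dir (F.n + 1) = !G.dir (F.n + 0) := by
    show (!b) = !(!(!b))
    rw [Bool.not_not]
  have hx : Fits [Piece.birth 0 b, Piece.birth 1 (!b)] Front.empty :=
    ⟨Nat.zero_le _, by show 1 ≤ 2; norm_num, trivial⟩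
  have hs := slide_down hext hd [.birth 0 b, .birth 1 (!b)] hx rfl w hw h0 w [] rfl
  have hz : Step ([.birth 0 b] ++ [.birth 1 (!b), .death (1 + 1)] ++ w) ([.birth 0 b] ++ [] ++ w) := by
    refine Step.mk _ _ _ _ (Move.zigzag₁ 1 (!b)) ?_ ?_
    · have h1 := fits_mid hext hd [] w hw
      refine ⟨⟨Nat.zero_le _, by show 1 ≤ 2; norm_num, h1.1⟩, ?_⟩
      have h2 := h1.2
      show (run (.death 2 :: w) G).n = 0
      exact h2.trans h0
    · exact hD.1
  have hiso : Isotopic (closure b (.birth 1 (!b) :: w)) (.birth 0 b :: w) := by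
    refine Relation.EqvGen.trans _ _ _ (Relation.EqvGen.symm _ _ ?_) (Relation.EqvGen.rel _ _ hz)
    exact hs
  exact ⟨ht, (Pool.Agent.H835R2.Knot.isotopic_knot hiso).2 hD, hiso⟩

/-- the strand on the right, followed upwards -/
lemma low_right : ∀ (L R : List Block) (F : Front),
    (∀ i σ, Block.twist i σ 0 ∉ L) → Fits (blocks L) F →
    low (some (run (blocks L) F).n) (L.reverse ++ R) =
      (L.map Block.rate).sum + low (some F.n) R := by
  intro L
  induction L with
  | nil => intro R F _ _; simp [blocks, run]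
  | cons P L ih =>
    intro R F h0 hf
    have h0' : ∀ i σ, Block.twist i σ 0 ∉ L := fun i σ h => h0 i σ (List.mem_cons_of_mem _ h)
    rw [blocks_cons, fits_app'] at hf
    rw [blocks_cons, front_app, List.reverse_cons, List.append_assoc]
    have key : up (some (run P.word F).n) P = (some F.n, P.rate) := by
      cases P with
      | max i b =>
        have h1 : i ≤ F.n := hf.1.1
        show (if i + 1 < F.n + 2 then some (F.n + 2 - 2) else
          if F.n + 2 < i then some (F.n + 2) else none, (0 : ℝ)) = (some F.n, 0)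
        rw [if_pos (by omega)]
        rfl
      | min i =>
        have h1 : i + 2 ≤ F.n := hf.1.1.1
        show (some (if i ≤ F.n - 2 then F.n - 2 + 2 else F.n - 2), (0 : ℝ)) = (some F.n, 0)
        rw [if_pos (by omega), show F.n - 2 + 2 = F.n by omega]
      | twist i σ m =>
        obtain ⟨h1, h2⟩ := fits_rep m F hf.1
        have hm : 1 ≤ m := by
          rcases Nat.eq_zero_or_pos m with h | h
          · exact absurd (by rw [h]; exact List.mem_cons_self) (h0 i σ)
          · exact h
        have h3 : (run (Block.twist i σ m).word F).n = F.n := h2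
        rw [h3]
        have h4 := h1 hm
        show (if i + 1 < F.n ∨ F.n < i then (some F.n, VV.rate m) else _) = _
        rw [if_pos (Or.inl (by omega))]
        rfl
    have e := ih (P :: R) (run P.word F) h0' hf.2
    show low _ (L.reverse ++ (P :: R)) = _
    rw [e]
    show _ + ((up (some (run P.word F).n) P).2 + low (up (some (run P.word F).n) P).1 R) = _
    rw [key, List.map_cons, List.sum_cons]
    ring

/-- the first piece of a closed diagram is a maximum -/
lemma first_block {L : List Block} (h0 : ∀ i σ, Block.twist i σ 0 ∉ L) (hk : IsKnot (blocks L)) :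
    ∃ (b : Bool) (L' : List Block), L = .max 0 b :: L' := by
  cases L with
  | nil =>
    have h := hk.2
    exact absurd h (by decide)
  | cons P L =>
    have hf : Fits (P.word ++ blocks L) Front.empty := hk.1.1
    rw [fits_app'] at hf
    cases P with
    | max i b =>
      have h1 : i ≤ 0 := hf.1.1
      obtain rfl : i = 0 := by omega
      exact ⟨b, L, rfl⟩
    | min i =>
      have h1 : i + 2 ≤ 0 := hf.1.1.1
      omega
    | twist i σ m =>
      obtain ⟨h1, -⟩ := fits_rep m _ hf.1
      have hm : 1 ≤ m := by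
        rcases Nat.eq_zero_or_pos m with h | h
        · exact absurd (by rw [h]; exact List.mem_cons_self) (h0 i σ)
        · exact h
      have h2 : i + 2 ≤ 0 := h1 hm
      omega

/-- **The bound by twist regions**, for every diagram. -/
theorem hasBound_blocks {L : List Block} (h0 : ∀ i σ, Block.twist i σ 0 ∉ L)
    (hk : IsKnot (blocks L)) : HasBound (blocks L) (L.map Block.rate).sum := by
  obtain ⟨b, L', rfl⟩ := first_block h0 hk
  have h0' : ∀ i σ, Block.twist i σ 0 ∉ L' := fun i σ h => h0 i σ (List.mem_cons_of_mem _ h)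
  have hk' : IsKnot (.birth 0 b :: blocks L') := hk
  obtain ⟨h1, h2, h3⟩ := closure_open hk'
  have hw : Fits (blocks L') ((Piece.birth 0 b).act Front.empty) := hk'.1.1.2
  have hn : (run (blocks L') ((Piece.birth 0 b).act Front.empty)).n = 0 := hk'.1.2
  refine ⟨b, [], .max 1 (!b) :: L', fun i σ h => ?_, h1, h2, h3, ?_⟩
  · rcases List.mem_cons.1 h with h | h
    · exact absurd h (by simp)
    · exact h0' i σ h
  · have e := low_right L' [.max 1 (!b)] ((Piece.birth 0 b).act Front.empty) h0' hw
    rw [hn] at e
    rw [List.reverse_cons, e, List.map_cons, List.sum_cons]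
    show (0 : ℝ) + _ = 0 + (_ + (0 + 0))
    ring

/-- the crossings of a word, as blocks -/
def ofWord (w : Word) : List Block := w.map fun p => match p with
  | .birth i b => .max i b
  | .death i => .min i
  | .pos i => .twist i true 1
  | .neg i => .twist i false 1

lemma blocks_ofWord (w : Word) : blocks (ofWord w) = w := by
  induction w with
  | nil => rfl
  | cons p w ih =>
    have e : blocks (ofWord (p :: w)) = _ ++ blocks (ofWord w) := rfl
    rw [e, ih]
    cases p <;> rfl

lemma ofWord_zero (w : Word) (i : ℕ) (σ : Bool) : Block.twist i σ 0 ∉ ofWord w := by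
  intro h
  obtain ⟨p, -, hp⟩ := List.mem_map.1 h
  cases p <;> simp at hp

lemma rate_ofWord (w : Word) : ((ofWord w).map Block.rate).sum =
    Pool.Agent.H835R2.Knot.crossings w * rate 1 := by
  induction w with
  | nil => simp [ofWord, Pool.Agent.H835R2.Knot.crossings]
  | cons p w ih =>
    have e : ofWord (p :: w) = _ :: ofWord w := rfl
    have e2 : ∀ p : Piece, Pool.Agent.H835R2.Knot.crossings (p :: w) =
        Pool.Agent.H835R2.Knot.crossings w + if p.isCrossing then 1 else 0 := fun p => by
      unfold Pool.Agent.H835R2.Knot.crossings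
      rw [List.countP_cons]
    rw [e, List.map_cons, List.sum_cons, ih, e2]
    cases p with
    | birth i b => simp [Block.rate, Piece.isCrossing]
    | death i => simp [Block.rate, Piece.isCrossing]
    | pos i => simp [Block.rate, Piece.isCrossing]; ring
    | neg i => simp [Block.rate, Piece.isCrossing]; ring

/-- **The bound by crossings**, for every diagram. -/
theorem hasBound_crossings {D : Word} (hk : IsKnot D) :
    ∃ B : ℝ, HasBound D B ∧ B ≤ Pool.Agent.H835R2.Knot.crossings D * v8 := by
  have h := hasBound_blocks (L := ofWord D) (ofWord_zero D) (by rw [blocks_ofWord]; exact hk)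
  rw [blocks_ofWord, rate_ofWord] at h
  refine ⟨_, h, mul_le_mul_of_nonneg_left ?_ (Nat.cast_nonneg _)⟩
  unfold rate
  refine (min_le_left _ _).trans ?_
  simp

end Pool.Agent.L7h82.VV
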