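import Pool.Agent.W709.QAT.Stm
import Pool.Agent.N547.VV.Tangle

/-!
# The operator of a (1,1)-tangle is a scalar

The operators of the pieces of diagrams (`Pool.Agent.W709.QAT`) commute with the generator `F` of
`U_q(sl_2)` and preserve the weights.
-/

set_option autoImplicit false

namespace Pool.Agent.L7h82.VV

open Pool.Agent.H550R3.Jones (br brf crossP crossN Gen irr tens WM IsInt W)
open Pool.Agent.W709.QAT (Piece Diag run jones kap cup cap)
open Finset Matrix

section

variable {N : ℕ}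

/-- the action of `F` on the functions of lists -/
noncomputable def Fop (v : ℂ) : List (Fin N) → (List (Fin N) → ℂ) → ℂ
  | [], _ => 0
  | a :: r, f => ∑ x, (irr v N).F a x * f (x :: r) +
      v ^ (-(irr v N).wt a) * Fop v r (fun t => f (a :: t))

/-- the weight of a list -/
noncomputable def wtL (v : ℂ) : List (Fin N) → ℤ
  | [] => 0
  | a :: r => (irr v N).wt a + wtL v r

lemma Fop_sum {v : ℂ} {κ : Type} (S : Finset κ) (c : κ → ℂ) (h : κ → List (Fin N) → ℂ) :
    ∀ s : List (Fin N), Fop v s (fun t => ∑ p ∈ S, c p * h p t) = ∑ p ∈ S, c p * Fop v s (h p) := by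
  intro s
  induction s generalizing h with
  | nil => simp [Fop]
  | cons a r ih =>
    simp only [Fop]
    rw [ih (fun p t => h p (a :: t))]
    simp only [mul_sum, mul_add, sum_add_distrib]
    rw [sum_comm]
    congr 1
    · refine sum_congr rfl fun p _ => sum_congr rfl fun x _ => ?_
      ring
    · refine sum_congr rfl fun p _ => ?_
      ring

lemma Fop_mul {v : ℂ} (c : ℂ) (h : List (Fin N) → ℂ) (s : List (Fin N)) :
    Fop v s (fun t => c * h t) = c * Fop v s h := by
  have := Fop_sum (v := v) ({()} : Finset Unit) (fun _ => c) (fun _ => h) s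
  simpa using this

lemma Fop_zero {v : ℂ} (s : List (Fin N)) : Fop v s (fun _ => 0) = 0 := by
  have := Fop_mul (v := v) 0 (fun _ => 0) s
  simpa using this

lemma two_F {v : ℂ} (a b : Fin N) (g : Fin N × Fin N → ℂ) :
    ((tens v (irr v N) (irr v N)).F *ᵥ g) (a, b) =
      ∑ x, (irr v N).F a x * g (x, b) +
        v ^ (-(irr v N).wt a) * ∑ x, (irr v N).F b x * g (a, x) := by
  simp only [Matrix.mulVec, dotProduct, Fintype.sum_prod_type, tens, WM.K, Matrix.add_apply,
    Matrix.kroneckerMap_apply, Matrix.diagonal_apply, Matrix.one_apply, add_mul,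
    sum_add_distrib]
  congr 1
  · refine sum_congr rfl fun l _ => ?_
    rw [sum_eq_single b]
    · simp
    · intro c _ hc; simp [Ne.symm hc]
    · simp
  · rw [sum_comm, mul_sum]
    refine sum_congr rfl fun y _ => ?_
    rw [sum_eq_single a]
    · simp; ring
    · intro c _ hc; simp [Ne.symm hc]
    · simp

/-- on the first two places -/
lemma Fop_two {v : ℂ} (hv : v ≠ 0) (a b : Fin N) (r : List (Fin N)) (f : List (Fin N) → ℂ) :
    Fop v (a :: b :: r) f =
      ((tens v (irr v N) (irr v N)).F *ᵥ fun q => f (q.1 :: q.2 :: r)) (a, b) +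
      v ^ (-((irr v N).wt a + (irr v N).wt b)) * Fop v r (fun t => f (a :: b :: t)) := by
  rw [two_F]
  simp only [Fop]
  rw [neg_add, zpow_add₀ hv]
  ring

/-! ### the invariant vector and the invariant form -/

lemma kap_eq (v : ℂ) (k : ℕ) :
    kap N v k = Pool.Agent.N566.VV.cup N v k / brf v (N - 1) := by
  unfold kap Pool.Agent.N566.VV.cup
  ring

lemma sum_iff (a b : Fin N) : (a : ℕ) + b = N - 1 ↔ b = Fin.rev a := by
  rw [Fin.ext_iff, Fin.val_rev]
  omega

lemma cup_rev (v : ℂ) (a b : Fin N) : cup N v (a, b) = if b = Fin.rev a then kap N v a else 0 := by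
  unfold cup
  simp only [sum_iff]

lemma cap_rev (v : ℂ) (a b : Fin N) :
    cap N v (a, b) = if b = Fin.rev a then (kap N v b)⁻¹ else 0 := by
  unfold cap
  simp only [sum_iff]

lemma wt_rev' (v : ℂ) (a : Fin N) : (irr v N).wt (Fin.rev a) = -(irr v N).wt a :=
  Pool.Agent.N547.VV.wt_rev v N a

/-- the relation between the coefficients of the invariant vector -/
lemma kap_rel {u : ℂ} (hu : Gen u) (a s : Fin N) :
    (irr (u ^ 2) N).F a s * kap N (u ^ 2) s =
      -((u ^ 2) ^ (-(irr (u ^ 2) N).wt a) * kap N (u ^ 2) a *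
        (irr (u ^ 2) N).F (Fin.rev s) (Fin.rev a)) := by
  have h := Pool.Agent.N547.VV.S2 hu N a s
  rw [kap_eq, kap_eq]
  linear_combination (brf (u ^ 2) (N - 1))⁻¹ * h

lemma kap_ne {u : ℂ} (hu : Gen u) (k : ℕ) : kap N (u ^ 2) k ≠ 0 := by
  rw [kap_eq]
  exact div_ne_zero (Pool.Agent.N547.VV.cup_ne hu N k) (Pool.Agent.H559R3.J.brf_ne hu _)

lemma cup_inv {u : ℂ} (hu : Gen u) (a b : Fin N) :
    ((tens (u ^ 2) (irr (u ^ 2) N) (irr (u ^ 2) N)).F *ᵥ fun q => cup N (u ^ 2) q) (a, b) = 0 := by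
  rw [two_F]
  have e1 : ∑ x, (irr (u ^ 2) N).F a x * cup N (u ^ 2) (x, b) =
      (irr (u ^ 2) N).F a (Fin.rev b) * kap N (u ^ 2) (Fin.rev b : Fin N) := by
    rw [sum_eq_single (Fin.rev b)]
    · rw [cup_rev, if_pos (Fin.rev_rev b).symm]
    · intro x _ hx
      rw [cup_rev, if_neg, mul_zero]
      rintro rfl
      exact hx (Fin.rev_rev x).symm
    · simp
  have e2 : ∑ x, (irr (u ^ 2) N).F b x * cup N (u ^ 2) (a, x) =
      (irr (u ^ 2) N).F b (Fin.rev a) * kap N (u ^ 2) a := by
    rw [sum_eq_single (Fin.rev a)]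
    · rw [cup_rev, if_pos rfl]
    · intro x _ hx
      rw [cup_rev, if_neg hx, mul_zero]
    · simp
  rw [e1, e2, kap_rel hu, Fin.rev_rev]
  ring

lemma cap_inv {u : ℂ} (hu : Gen u) (g : Fin N × Fin N → ℂ) :
    ∑ p : Fin N × Fin N, cap N (u ^ 2) p *
      ((tens (u ^ 2) (irr (u ^ 2) N) (irr (u ^ 2) N)).F *ᵥ g) p = 0 := by
  have hv : u ^ 2 ≠ 0 := pow_ne_zero 2 hu.1
  have key : ∀ h : Fin N → Fin N → ℂ, ∑ p : Fin N × Fin N, cap N (u ^ 2) p * h p.1 p.2 =
      ∑ x : Fin N, (kap N (u ^ 2) (Fin.rev x : Fin N))⁻¹ * h x (Fin.rev x) := by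
    intro h
    rw [Fintype.sum_prod_type]
    refine sum_congr rfl fun x _ => ?_
    rw [sum_eq_single (Fin.rev x)]
    · rw [cap_rev, if_pos rfl]
    · intro y _ hy
      rw [cap_rev, if_neg hy, zero_mul]
    · simp
  rw [key fun a b => ((tens (u ^ 2) (irr (u ^ 2) N) (irr (u ^ 2) N)).F *ᵥ g) (a, b)]
  simp only [two_F, mul_add, sum_add_distrib, mul_sum]
  have e1 : ∑ x : Fin N, ∑ y : Fin N, (kap N (u ^ 2) (Fin.rev x : Fin N))⁻¹ *
      ((irr (u ^ 2) N).F x y * g (y, Fin.rev x)) =
      ∑ y : Fin N, ∑ x : Fin N, (kap N (u ^ 2) (x : Fin N))⁻¹ *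
      ((irr (u ^ 2) N).F (Fin.rev x) y * g (y, x)) := by
    rw [sum_comm]
    refine sum_congr rfl fun y _ => ?_
    have h := Equiv.sum_comp Fin.revPerm (fun x : Fin N => (kap N (u ^ 2) (x : Fin N))⁻¹ *
      ((irr (u ^ 2) N).F (Fin.rev x) y * g (y, x)))
    rw [← h]
    refine sum_congr rfl fun x _ => ?_
    simp only [Fin.revPerm_apply, Fin.rev_rev]
  rw [e1, ← sum_add_distrib]
  refine sum_eq_zero fun y _ => ?_
  rw [← sum_add_distrib]
  refine sum_eq_zero fun z _ => ?_
  have h := kap_rel hu (Fin.rev y) z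
  rw [Fin.rev_rev, wt_rev', neg_neg] at h
  have h1 := kap_ne (N := N) hu (z : ℕ)
  have h2 := kap_ne (N := N) hu ((Fin.rev y : Fin N) : ℕ)
  have h3 : (u ^ 2) ^ (-(irr (u ^ 2) N).wt y) * (u ^ 2) ^ ((irr (u ^ 2) N).wt y) = 1 := by
    rw [← zpow_add₀ hv, neg_add_cancel, zpow_zero]
  field_simp
  linear_combination (g (y, z) * (u ^ 2) ^ (-(irr (u ^ 2) N).wt y)) * h -
    (kap N (u ^ 2) (Fin.rev y : Fin N) * (irr (u ^ 2) N).F (Fin.rev z) y * g (y, z)) * h3

/-! ### linearity -/

lemma act_sum {v : ℂ} {κ : Type} (P : Piece) (S : Finset κ) (c : κ → ℂ)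
    (h : κ → List (Fin N) → ℂ) (s : List (Fin N)) :
    P.act N v (fun t => ∑ p ∈ S, c p * h p t) s = ∑ p ∈ S, c p * P.act N v (h p) s := by
  cases P with
  | cup i =>
    simp only [Piece.act]
    rcases s.drop i with _ | ⟨a, _ | ⟨b, r⟩⟩
    · simp
    · simp
    · simp only [mul_sum]
      exact sum_congr rfl fun p _ => by ring
  | cap i =>
    simp only [Piece.act, mul_sum]
    rw [sum_comm]
    exact sum_congr rfl fun p _ => sum_congr rfl fun q _ => by ring
  | twist i σ m =>
    simp only [Piece.act]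
    rcases s.drop i with _ | ⟨a, _ | ⟨b, r⟩⟩
    · simp
    · simp
    · simp only [mul_sum]
      rw [sum_comm]
      exact sum_congr rfl fun p _ => sum_congr rfl fun q _ => by ring

lemma act_mul {v : ℂ} (P : Piece) (c : ℂ) (h : List (Fin N) → ℂ) (s : List (Fin N)) :
    P.act N v (fun t => c * h t) s = c * P.act N v h s := by
  have := act_sum (v := v) P ({()} : Finset Unit) (fun _ => c) (fun _ => h) s
  simpa using this

lemma act_add {v : ℂ} (P : Piece) (g h : List (Fin N) → ℂ) (s : List (Fin N)) :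
    P.act N v (fun t => g t + h t) s = P.act N v g s + P.act N v h s := by
  have := act_sum (v := v) P (Finset.univ : Finset Bool) (fun _ => 1)
    (fun b => if b then g else h) s
  simpa using this

lemma run_sum {v : ℂ} {κ : Type} (S : Finset κ) (c : κ → ℂ) (D : Diag) :
    ∀ (h : κ → List (Fin N) → ℂ) (s : List (Fin N)),
    run N v D (fun t => ∑ p ∈ S, c p * h p t) s = ∑ p ∈ S, c p * run N v D (h p) s := by
  induction D with
  | nil => intro h s; rfl
  | cons P D ih =>
    intro h s
    have e : P.act N v (fun t => ∑ p ∈ S, c p * h p t) =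
        fun t => ∑ p ∈ S, c p * P.act N v (h p) t := funext fun t => act_sum P S c h t
    show run N v D (P.act N v (fun t => ∑ p ∈ S, c p * h p t)) s =
      ∑ p ∈ S, c p * run N v D (P.act N v (h p)) s
    rw [e]
    exact ih (fun p => P.act N v (h p)) s

/-! ### the pieces commute with `F` -/

/-- moving a piece to the right by one place -/
def Piece.sh : Piece → Piece
  | .cup i => .cup (i + 1)
  | .cap i => .cap (i + 1)
  | .twist i σ m => .twist (i + 1) σ m

lemma act_sh {v : ℂ} (P : Piece) (f : List (Fin N) → ℂ) (c : Fin N) (t : List (Fin N)) :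
    (Piece.sh P).act N v f (c :: t) = P.act N v (fun u => f (c :: u)) t := by
  cases P with
  | cup i => rfl
  | cap i => rfl
  | twist i σ m => rfl

/-- the operator of the piece commutes with `F` -/
def Comm (v : ℂ) (P : Piece) : Prop := ∀ (f : List (Fin N) → ℂ) (s : List (Fin N)),
  Fop v s (P.act N v f) = P.act N v (fun t => Fop v t f) s

lemma comm_sh {v : ℂ} {P : Piece} (h : Comm (N := N) v P)
    (h0 : ∀ f : List (Fin N) → ℂ, (Piece.sh P).act N v (fun t => Fop v t f) [] = 0) :
    Comm (N := N) v (Piece.sh P) := by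
  intro f s
  cases s with
  | nil => rw [h0]; rfl
  | cons c t =>
    rw [act_sh]
    simp only [Fop, act_sh]
    rw [act_add, act_sum, act_mul, h]

/-! #### crossings -/

lemma comm_mat {v : ℂ} (hv : v ≠ 0) {M : Matrix (Fin N × Fin N) (Fin N × Fin N) ℂ}
    (hM : IsInt (W v N) (W v N) M) (a b : Fin N) (r : List (Fin N)) (f : List (Fin N) → ℂ)
    (g : List (Fin N) → ℂ)
    (hg : ∀ (x y : Fin N) (t : List (Fin N)), g (x :: y :: t) =
      ∑ p : Fin N × Fin N, M (x, y) p * f (p.1 :: p.2 :: t)) :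
    Fop v (a :: b :: r) g = ∑ p : Fin N × Fin N, M (a, b) p * Fop v (p.1 :: p.2 :: r) f := by
  have e1 : (fun q : Fin N × Fin N => g (q.1 :: q.2 :: r)) =
      M *ᵥ fun q => f (q.1 :: q.2 :: r) := by
    funext q
    exact hg q.1 q.2 r
  have e2 : (fun t => g (a :: b :: t)) = fun t => ∑ p : Fin N × Fin N, M (a, b) p *
      (fun (p : Fin N × Fin N) (t : List (Fin N)) => f (p.1 :: p.2 :: t)) p t := by
    funext t
    exact hg a b t
  rw [Fop_two hv, e1, e2, Fop_sum, mulVec_mulVec]
  have e3 : (tens v (irr v N) (irr v N)).F * M = M * (tens v (irr v N) (irr v N)).F := hM.f.symm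
  rw [e3, ← mulVec_mulVec, mul_sum]
  rw [Matrix.mulVec, dotProduct, ← sum_add_distrib]
  refine sum_congr rfl fun p _ => ?_
  obtain ⟨x, y⟩ := p
  rw [Fop_two hv]
  by_cases h0 : M (a, b) (x, y) = 0
  · rw [h0]; ring
  · have h1 := hM.k _ _ h0
    have h2 : (irr v N).wt a + (irr v N).wt b = (irr v N).wt x + (irr v N).wt y := h1
    rw [h2]
    ring

lemma comm_twist {u : ℂ} (hu : Gen u) (i : ℕ) (σ : Bool) (m : ℕ) :
    Comm (N := N) (u ^ 2) (.twist i σ m) := by
  have hv : u ^ 2 ≠ 0 := pow_ne_zero 2 hu.1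
  induction i with
  | zero =>
    intro f s
    have hM : IsInt (W (u ^ 2) N) (W (u ^ 2) N)
        ((if σ then crossP N (u ^ 2) else crossN N (u ^ 2)) ^ m) := by
      apply Pool.Agent.N547.VV.isInt_pow
      split_ifs
      · exact Pool.Agent.N547.VV.crossP_int hu N
      · exact Pool.Agent.N547.VV.crossN_int hu N
    rcases s with _ | ⟨a, _ | ⟨b, r⟩⟩
    · rfl
    · simp [Fop, Piece.act]
    · exact comm_mat hv hM a b r f _ fun x y t => rfl
  | succ i ih =>
    exact comm_sh ih fun f => rfl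

lemma comm_cup {u : ℂ} (hu : Gen u) (i : ℕ) : Comm (N := N) (u ^ 2) (.cup i) := by
  have hv : u ^ 2 ≠ 0 := pow_ne_zero 2 hu.1
  induction i with
  | zero =>
    intro f s
    rcases s with _ | ⟨a, _ | ⟨b, r⟩⟩
    · rfl
    · simp [Fop, Piece.act]
    · rw [Fop_two hv]
      have e1 : (fun q : Fin N × Fin N => Piece.act N (u ^ 2) (.cup 0) f (q.1 :: q.2 :: r)) =
          f r • fun q => cup N (u ^ 2) q := by
        funext q
        simp [Piece.act]
        ring
      have e2 : (fun t : List (Fin N) => Piece.act N (u ^ 2) (.cup 0) f (a :: b :: t)) =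
          fun t => cup N (u ^ 2) (a, b) * f t := rfl
      rw [e1, e2, Matrix.mulVec_smul, Fop_mul, Pi.smul_apply, cup_inv hu, smul_zero, zero_add]
      show _ = cup N (u ^ 2) (a, b) * Fop (u ^ 2) r f
      rw [cup_rev]
      split_ifs with h
      · rw [h, wt_rev']
        simp
      · simp
  | succ i ih =>
    exact comm_sh ih fun f => rfl

lemma comm_cap {u : ℂ} (hu : Gen u) (i : ℕ) : Comm (N := N) (u ^ 2) (.cap i) := by
  have hv : u ^ 2 ≠ 0 := pow_ne_zero 2 hu.1
  induction i with
  | zero =>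
    intro f s
    show Fop (u ^ 2) s (fun t => ∑ p : Fin N × Fin N, cap N (u ^ 2) p *
      (fun (p : Fin N × Fin N) (t : List (Fin N)) => f (p.1 :: p.2 :: t)) p t) =
      ∑ p : Fin N × Fin N, cap N (u ^ 2) p * Fop (u ^ 2) (p.1 :: p.2 :: s) f
    rw [Fop_sum]
    have h := cap_inv hu (fun q => f (q.1 :: q.2 :: s))
    rw [← add_zero (∑ p : Fin N × Fin N, _), ← h, ← sum_add_distrib]
    refine sum_congr rfl fun p _ => ?_
    obtain ⟨x, y⟩ := p
    rw [Fop_two hv, cap_rev]
    split_ifs with h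
    · rw [h, wt_rev']
      simp
      ring
    · simp
  | succ i ih =>
    refine comm_sh ih fun f => ?_
    have e : ∀ g : List (Fin N) → ℂ, (Piece.sh (.cap i)).act N (u ^ 2) g [] =
        (Piece.cap i).act N (u ^ 2) g [] := by
      intro g
      simp [Piece.sh, Piece.act]
    rw [e, ← ih f []]
    rfl

lemma comm_all {u : ℂ} (hu : Gen u) (P : Piece) : Comm (N := N) (u ^ 2) P := by
  cases P with
  | cup i => exact comm_cup hu i
  | cap i => exact comm_cap hu i
  | twist i σ m => exact comm_twist hu i σ m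

lemma run_F {u : ℂ} (hu : Gen u) (D : Diag) : ∀ (f : List (Fin N) → ℂ) (s : List (Fin N)),
    Fop (u ^ 2) s (run N (u ^ 2) D f) = run N (u ^ 2) D (fun t => Fop (u ^ 2) t f) s := by
  induction D with
  | nil => intro f s; rfl
  | cons P D ih =>
    intro f s
    have e := ih (P.act N (u ^ 2) f) s
    have e2 : (fun t => Fop (u ^ 2) t (P.act N (u ^ 2) f)) =
        P.act N (u ^ 2) (fun t => Fop (u ^ 2) t f) := funext fun t => comm_all hu P f t
    rw [e2] at e
    exact e

/-! ### weights -/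

lemma wtL_app (v : ℂ) (l r : List (Fin N)) : wtL v (l ++ r) = wtL v l + wtL v r := by
  induction l with
  | nil => simp [wtL]
  | cons a l ih => simp only [List.cons_append, wtL, ih]; ring

lemma act_wt {u : ℂ} (hu : Gen u) (P : Piece) (ψ : ℤ → ℂ) (f : List (Fin N) → ℂ)
    (s : List (Fin N)) : P.act N (u ^ 2) (fun t => ψ (wtL (u ^ 2) t) * f t) s =
      ψ (wtL (u ^ 2) s) * P.act N (u ^ 2) f s := by
  cases P with
  | cup i =>
    simp only [Piece.act]
    rcases h : s.drop i with _ | ⟨a, _ | ⟨b, r⟩⟩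
    · simp
    · simp
    · simp only
      rw [cup_rev]
      split_ifs with hb
      · have e : wtL (u ^ 2) s = wtL (u ^ 2) (s.take i ++ r) := by
          conv_lhs => rw [← List.take_append_drop i s, h]
          rw [wtL_app, wtL_app]
          simp only [wtL, hb, wt_rev']
          ring
        rw [e]
        ring
      · simp
  | cap i =>
    simp only [Piece.act, mul_sum]
    refine sum_congr rfl fun p _ => ?_
    obtain ⟨x, y⟩ := p
    rw [cap_rev]
    split_ifs with hb
    · have e : wtL (u ^ 2) (s.take i ++ x :: y :: s.drop i) = wtL (u ^ 2) s := by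
        conv_rhs => rw [← List.take_append_drop i s]
        rw [wtL_app, wtL_app]
        simp only [wtL, hb, wt_rev']
        ring
      rw [e]
      ring
    · simp
  | twist i σ m =>
    have hM : IsInt (W (u ^ 2) N) (W (u ^ 2) N)
        ((if σ then crossP N (u ^ 2) else crossN N (u ^ 2)) ^ m) := by
      apply Pool.Agent.N547.VV.isInt_pow
      split_ifs
      · exact Pool.Agent.N547.VV.crossP_int hu N
      · exact Pool.Agent.N547.VV.crossN_int hu N
    simp only [Piece.act]
    rcases h : s.drop i with _ | ⟨a, _ | ⟨b, r⟩⟩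
    · simp
    · simp
    · simp only [mul_sum]
      refine sum_congr rfl fun p _ => ?_
      obtain ⟨x, y⟩ := p
      by_cases h0 : ((if σ then crossP N (u ^ 2) else crossN N (u ^ 2)) ^ m) (a, b) (x, y) = 0
      · rw [h0]; ring
      · have h1 : (irr (u ^ 2) N).wt a + (irr (u ^ 2) N).wt b =
            (irr (u ^ 2) N).wt x + (irr (u ^ 2) N).wt y := hM.k _ _ h0
        have e : wtL (u ^ 2) (s.take i ++ x :: y :: r) = wtL (u ^ 2) s := by
          conv_rhs => rw [← List.take_append_drop i s, h]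
          rw [wtL_app, wtL_app]
          simp only [wtL]
          linarith
        simp only
        rw [e]
        ring

lemma run_wt {u : ℂ} (hu : Gen u) (ψ : ℤ → ℂ) (D : Diag) : ∀ (f : List (Fin N) → ℂ)
    (s : List (Fin N)), run N (u ^ 2) D (fun t => ψ (wtL (u ^ 2) t) * f t) s =
      ψ (wtL (u ^ 2) s) * run N (u ^ 2) D f s := by
  induction D with
  | nil => intro f s; rfl
  | cons P D ih =>
    intro f s
    have e : P.act N (u ^ 2) (fun t => ψ (wtL (u ^ 2) t) * f t) =
        fun t => ψ (wtL (u ^ 2) t) * P.act N (u ^ 2) f t := funext fun t => act_wt hu P ψ f t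
    show run N (u ^ 2) D (P.act N (u ^ 2) (fun t => ψ (wtL (u ^ 2) t) * f t)) s =
      ψ (wtL (u ^ 2) s) * run N (u ^ 2) D (P.act N (u ^ 2) f) s
    rw [e]
    exact ih _ s

/-! ### the operator on one strand -/

/-- the entries of the operator on one strand -/
noncomputable def ent (v : ℂ) (D : Diag) (x y : Fin N) : ℂ :=
  run N v D (fun s => if s = [y] then 1 else 0) [x]

lemma ent_ne {u : ℂ} (hu : Gen u) (D : Diag) {x y : Fin N} (h : x ≠ y) :
    ent (u ^ 2) D x y = 0 := by
  have h1 := run_wt hu (fun k => if k = (irr (u ^ 2) N).wt y then 0 else 1) D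
    (fun s => if s = [y] then 1 else 0) [x]
  have h2 : (fun t : List (Fin N) => (if wtL (u ^ 2) t = (irr (u ^ 2) N).wt y then (0 : ℂ) else 1) *
      (if t = [y] then 1 else 0)) = fun t => ∑ p ∈ (∅ : Finset Unit), (fun _ => (0 : ℂ)) p *
        (fun (_ : Unit) (_ : List (Fin N)) => (0 : ℂ)) p t := by
    funext t
    rw [Finset.sum_empty]
    by_cases ht : t = [y]
    · rw [ht, if_pos (by simp [wtL]), zero_mul]
    · rw [if_neg ht, mul_zero]
  have h2' : (fun t : List (Fin N) => (fun k => if k = (irr (u ^ 2) N).wt y then (0 : ℂ) else 1)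
      (wtL (u ^ 2) t) * (if t = [y] then 1 else 0)) = fun t => ∑ p ∈ (∅ : Finset Unit),
        (fun _ => (0 : ℂ)) p * (fun (_ : Unit) (_ : List (Fin N)) => (0 : ℂ)) p t := h2
  rw [h2', run_sum, Finset.sum_empty] at h1
  have h3 : wtL (u ^ 2) [x] ≠ (irr (u ^ 2) N).wt y := by
    simp only [wtL, irr]
    intro h4
    apply h
    ext
    omega
  simp only [if_neg h3, one_mul] at h1
  exact h1.symm

lemma Fop_len (v : ℂ) : ∀ (s : List (Fin N)) (f : List (Fin N) → ℂ),
    (∀ t : List (Fin N), t.length = s.length → f t = 0) → Fop v s f = 0 := by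
  intro s
  induction s with
  | nil => intro f _; rfl
  | cons a r ih =>
    intro f hf
    simp only [Fop]
    rw [ih _ fun t ht => hf (a :: t) (by simp [ht]), mul_zero, add_zero]
    exact sum_eq_zero fun x _ => by rw [hf (x :: r) rfl, mul_zero]

lemma Fop_single (v : ℂ) (y : Fin N) : (fun s : List (Fin N) => Fop v s fun t =>
    if t = [y] then 1 else 0) = fun s => ∑ z : Fin N, (irr v N).F z y *
      (fun (z : Fin N) (s : List (Fin N)) => if s = [z] then 1 else 0) z s := by
  funext s
  rcases s with _ | ⟨a, _ | ⟨b, r⟩⟩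
  · simp [Fop]
  · simp only [Fop, mul_zero, add_zero]
    rw [sum_eq_single y, sum_eq_single a]
    · simp
    · intro z _ hz
      simp [Ne.symm hz]
    · simp
    · intro z _ hz
      simp [hz]
    · simp
  · rw [Fop_len]
    · simp
    · intro t ht
      rw [if_neg]
      rintro rfl
      simp at ht

/-- Schur's lemma -/
theorem ent_scalar {u : ℂ} (hu : Gen u) (D : Diag) (x y : Fin N) :
    ent (u ^ 2) D x y = if x = y then jones N D (u ^ 2) else 0 := by
  split_ifs with hxy
  · subst hxy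
    have hN : 0 < N := lt_of_le_of_lt (Nat.zero_le _) x.2
    have hj : jones N D (u ^ 2) = ent (u ^ 2) D ⟨0, hN⟩ ⟨0, hN⟩ := by
      unfold jones ent
      rw [dif_pos hN]
    rw [hj]
    have key : ∀ k : ℕ, ∀ hk : k < N, ent (u ^ 2) D ⟨k, hk⟩ ⟨k, hk⟩ =
        ent (u ^ 2) D ⟨0, hN⟩ ⟨0, hN⟩ := by
      intro k
      induction k with
      | zero => intro _; rfl
      | succ k ih =>
        intro hk
        have hk' : k < N := by omega
        rw [← ih hk']
        have h := run_F hu D (fun s : List (Fin N) => if s = [⟨k, hk'⟩] then 1 else 0)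
          [⟨k + 1, hk⟩]
        rw [Fop_single, run_sum] at h
        simp only [Fop, mul_zero, add_zero] at h
        have e1 : ∑ z : Fin N, (irr (u ^ 2) N).F ⟨k + 1, hk⟩ z *
            run N (u ^ 2) D (fun s => if s = [⟨k, hk'⟩] then 1 else 0) [z] =
            (irr (u ^ 2) N).F ⟨k + 1, hk⟩ ⟨k, hk'⟩ *
              ent (u ^ 2) D ⟨k, hk'⟩ ⟨k, hk'⟩ := by
          rw [sum_eq_single ⟨k, hk'⟩]
          · rfl
          · intro z _ hz
            have := ent_ne hu D hz
            unfold ent at this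
            rw [this, mul_zero]
          · simp
        have e2 : ∑ z : Fin N, (irr (u ^ 2) N).F z ⟨k, hk'⟩ *
            run N (u ^ 2) D (fun s => if s = [z] then 1 else 0) [⟨k + 1, hk⟩] =
            (irr (u ^ 2) N).F ⟨k + 1, hk⟩ ⟨k, hk'⟩ *
              ent (u ^ 2) D ⟨k + 1, hk⟩ ⟨k + 1, hk⟩ := by
          rw [sum_eq_single ⟨k + 1, hk⟩]
          · rfl
          · intro z _ hz
            have := ent_ne hu D (Ne.symm hz)
            unfold ent at this
            rw [this, mul_zero]
          · simp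
        rw [e1, e2] at h
        have hF : (irr (u ^ 2) N).F ⟨k + 1, hk⟩ ⟨k, hk'⟩ ≠ 0 := by
          simp only [irr, if_true]
          exact hu.2 (k + 1) (Nat.succ_pos k)
        exact (mul_left_cancel₀ hF h).symm
    exact key x x.2
  · exact ent_ne hu D hxy

end

end Pool.Agent.L7h82.VV
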