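import Pool.Agent.L7h82.VV.SmallD
import Pool.Agent.L7h82.VV.Clo

/-!
# Upper bounds for the growth of the Kashaev invariants of all knots
-/

set_option autoImplicit false

namespace Pool.Agent.L7h82.VV

open Pool.Agent.W709.QAT (Diag run jones)
open Pool.Agent.H835R2.Knot (Word Front Fits IsKnot Isotopic)
open Pool.Agent.N566.VV (rt ev)
open Finset Filter Topology

/-- the piece of the library -/
def trB : Block → Pool.Agent.W709.QAT.Piece
  | .max i _ => .cap i
  | .min i => .cup i
  | .twist i σ m => .twist i σ m

/-- the diagram of the library, from bottom to top -/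
def trL (L : List Block) : Diag := (L.map trB).reverse

lemma lob_eq (x : ℝ) : Lobach x = GapVol.lob x := rfl

lemma rate_eq (m : ℕ) : rate m = Pool.Agent.W709.QAT.rate m := by
  unfold rate Pool.Agent.W709.QAT.rate v3 v8
  rw [lob_eq, lob_eq]
  congr 1
  ring

lemma half_eq : 2 * v3 = Pool.Agent.R807.Cut.half := by
  unfold v3 Pool.Agent.R807.Cut.half
  rw [lob_eq, GapVol.lob_dup]
  ring

lemma prate_eq (P : Block) : P.rate = Pool.Agent.R807.Cut.prate (trB P) := by
  cases P with
  | max i b => rfl
  | min i => rfl
  | twist i σ m => exact rate_eq m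

lemma up_eq (o : Option ℕ) (P : Block) : up o P = Pool.Agent.R807.Cut.up o (trB P) := by
  cases o with
  | none => simp only [up, Pool.Agent.R807.Cut.up, prate_eq]
  | some p =>
    cases P with
    | max i b => rfl
    | min i => rfl
    | twist i σ m => simp only [up, trB, Pool.Agent.R807.Cut.up, rate_eq, half_eq]

lemma down_eq (o : Option ℕ) (P : Block) : down o P = Pool.Agent.R807.Cut.down o (trB P) := by
  cases o with
  | none => simp only [down, Pool.Agent.R807.Cut.down, prate_eq]
  | some p =>
    cases P with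
    | max i b => rfl
    | min i => rfl
    | twist i σ m => simp only [down, trB, Pool.Agent.R807.Cut.down, rate_eq, half_eq]

lemma low_eq (L : List Block) : ∀ o, low o L = Pool.Agent.R807.Cut.low o (L.map trB) := by
  induction L with
  | nil => intro o; rfl
  | cons P L ih =>
    intro o
    simp only [low, List.map_cons, Pool.Agent.R807.Cut.low, ih, up_eq]

lemma high_eq (L : List Block) : ∀ o, high o L = Pool.Agent.R807.Cut.high o (L.map trB) := by
  induction L with
  | nil => intro o; rfl
  | cons P L ih =>
    intro o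
    simp only [high, List.map_cons, Pool.Agent.R807.Cut.high, ih, down_eq]

/-! ### twist regions -/

section

variable {N : ℕ}

lemma twist_ext {v : ℂ} {i m : ℕ} {σ : Bool} {R R' : List (Fin N) → ℂ} {s : List (Fin N)}
    (hs : i + 2 ≤ s.length) (h : ∀ t : List (Fin N), t.length = s.length → R t = R' t) :
    (Pool.Agent.W709.QAT.Piece.twist i σ m).act N v R s =
      (Pool.Agent.W709.QAT.Piece.twist i σ m).act N v R' s := by
  obtain ⟨l, t, x, y, rfl, rfl⟩ := split2 hs
  simp only [Pool.Agent.W709.QAT.Piece.act]
  rw [List.take_left, List.drop_left]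
  simp only
  refine sum_congr rfl fun q _ => ?_
  rw [h]
  simp

lemma run_rep (v : ℂ) (G : List (Fin N) → ℂ) (i : ℕ) (σ : Bool) : ∀ (m : ℕ) (s : List (Fin N)),
    i + 2 ≤ s.length → run N v (List.replicate m (.twist i σ 1)) G s =
      (Pool.Agent.W709.QAT.Piece.twist i σ m).act N v G s := by
  intro m
  induction m with
  | zero =>
    intro s hs
    obtain ⟨l, t, x, y, rfl, rfl⟩ := split2 hs
    simp only [Pool.Agent.W709.QAT.Piece.act]
    rw [List.take_left, List.drop_left]
    simp only [pow_zero, Matrix.one_apply, ite_mul, one_mul, zero_mul]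
    rw [Finset.sum_ite_eq]
    simp [run]
  | succ m ih =>
    intro s hs
    rw [List.replicate_succ', run_app, run_one,
      twist_ext hs fun t ht => ih t (by rw [ht]; exact hs)]
    exact Pool.Agent.W613.QAT.pow N v G i m σ s hs

lemma blocks_cons (P : Block) (L : List Block) : blocks (P :: L) = P.word ++ blocks L := rfl

lemma trL_cons (P : Block) (L : List Block) : trL (P :: L) = trL L ++ [trB P] := by
  unfold trL
  rw [List.map_cons, List.reverse_cons]

lemma trW_rep (p : Pool.Agent.H835R2.Knot.Piece) (m : ℕ) :
    trW (List.replicate m p) = List.replicate m (trP p) := by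
  unfold trW
  rw [List.map_replicate, List.reverse_replicate]

/-- fitting pieces of a twist region -/
lemma fits_rep {i : ℕ} {σ : Bool} : ∀ (m : ℕ) (A : Front),
    Fits (List.replicate m (if σ then .pos i else .neg i)) A →
      (1 ≤ m → i + 2 ≤ A.n) ∧
      (Pool.Agent.H835R2.Knot.run (List.replicate m (if σ then .pos i else .neg i)) A).n = A.n := by
  intro m
  induction m with
  | zero => intro A _; exact ⟨by omega, rfl⟩
  | succ m ih =>
    intro A h
    rw [List.replicate_succ] at h ⊢
    obtain ⟨h1, h2⟩ := h
    obtain ⟨-, h3⟩ := ih _ h2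
    cases σ
    · exact ⟨fun _ => h1, h3⟩
    · exact ⟨fun _ => h1, h3⟩

lemma fits_app' : ∀ (w w' : Word) (A : Front), Fits (w ++ w') A ↔
    Fits w A ∧ Fits w' (Pool.Agent.H835R2.Knot.run w A) := by
  intro w
  induction w with
  | nil => intro w' A; simp [Fits, Pool.Agent.H835R2.Knot.run]
  | cons p w ih =>
    intro w' A
    show (p.Fits A ∧ Fits (w ++ w') (p.act A)) ↔
      ((p.Fits A ∧ Fits w (p.act A)) ∧ Fits w' (Pool.Agent.H835R2.Knot.run w (p.act A)))
    rw [ih, and_assoc]

lemma front_app : ∀ (w w' : Word) (A : Front), Pool.Agent.H835R2.Knot.run (w ++ w') A =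
    Pool.Agent.H835R2.Knot.run w' (Pool.Agent.H835R2.Knot.run w A) := by
  intro w
  induction w with
  | nil => intro w' A; rfl
  | cons p w ih => intro w' A; exact ih w' (p.act A)

lemma run_blocks (v : ℂ) (f : List (Fin N) → ℂ) : ∀ (L : List Block) (A : Front)
    (s : List (Fin N)), (∀ i σ, Block.twist i σ 0 ∉ L) → Fits (blocks L) A → s.length = A.n →
      run N v (trW (blocks L)) f s = run N v (trL L) f s := by
  intro L
  induction L with
  | nil => intro A s _ _ _; rfl
  | cons P L ih =>
    intro A s h0 hf hs
    have h0' : ∀ i σ, Block.twist i σ 0 ∉ L := fun i σ h => h0 i σ (List.mem_cons_of_mem _ h)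
    rw [blocks_cons, fits_app'] at hf
    rw [blocks_cons, trW_app, run_app, trL_cons, run_app, run_one]
    cases P with
    | max i b =>
      show (trP (.birth i b)).act N v _ s = (trP (.birth i b)).act N v _ s
      exact act_ext hf.1.1 (fun t ht => ih _ t h0' hf.2 ht) hs
    | min i =>
      show (trP (.death i)).act N v _ s = (trP (.death i)).act N v _ s
      exact act_ext hf.1.1 (fun t ht => ih _ t h0' hf.2 ht) hs
    | twist i σ m =>
      obtain ⟨h1, h2⟩ := fits_rep m A hf.1
      have hm : 1 ≤ m := by
        rcases Nat.eq_zero_or_pos m with h | h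
        · exact absurd (by rw [h]; exact List.mem_cons_self) (h0 i σ)
        · exact h
      have hi := h1 hm
      have e : trW (Block.twist i σ m).word = List.replicate m (.twist i σ 1) := by
        show trW (List.replicate m _) = _
        rw [trW_rep]
        cases σ <;> rfl
      rw [e, run_rep v _ i σ m s (by rw [hs]; exact hi)]
      refine twist_ext (by rw [hs]; exact hi) fun t ht => ih _ t h0' hf.2 ?_
      rw [ht, hs]
      exact h2.symm

end

lemma valid_blocks : ∀ (L : List Block) (A : Front), (∀ i σ, Block.twist i σ 0 ∉ L) →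
    Fits (blocks L) A → Pool.Agent.R807.Cut.Valid
      (Pool.Agent.H835R2.Knot.run (blocks L) A).n (trL L) A.n := by
  intro L
  induction L with
  | nil => intro A _ _; rfl
  | cons P L ih =>
    intro A h0 hf
    have h0' : ∀ i σ, Block.twist i σ 0 ∉ L := fun i σ h => h0 i σ (List.mem_cons_of_mem _ h)
    rw [blocks_cons, fits_app'] at hf
    rw [blocks_cons, front_app, trL_cons]
    have h := ih _ h0' hf.2
    unfold Pool.Agent.R807.Cut.Valid at h ⊢
    rw [List.foldl_append, h]
    show (trB P).strands (Pool.Agent.H835R2.Knot.run P.word A).n = some A.n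
    cases P with
    | max i b =>
      have h1 : i ≤ A.n := hf.1.1
      show (if i + 2 ≤ A.n + 2 then some (A.n + 2 - 2) else none) = _
      rw [if_pos (by omega)]
      rfl
    | min i =>
      have h1 : i + 2 ≤ A.n := hf.1.1.1
      show (if i ≤ A.n - 2 then some (A.n - 2 + 2) else none) = _
      rw [if_pos (by omega)]
      congr 1
      omega
    | twist i σ m =>
      obtain ⟨h1, h2⟩ := fits_rep m A hf.1
      have hm : 1 ≤ m := by
        rcases Nat.eq_zero_or_pos m with h | h
        · exact absurd (by rw [h]; exact List.mem_cons_self) (h0 i σ)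
        · exact h
      have h3 : (Pool.Agent.H835R2.Knot.run (Block.twist i σ m).word A).n = A.n := h2
      rw [h3]
      show (if i + 2 ≤ A.n then some A.n else none) = _
      rw [if_pos (h1 hm)]

/-- the growth of the Kashaev invariants is bounded by the contributions of the blocks -/
theorem upB_of {D : Word} {B : ℝ} (h : HasBound D B) : UpB D B := by
  obtain ⟨b, L₁, L₂, h0, ht, hk, hi, rfl⟩ := h
  refine upB_iso ⟨hk, fun ε hε => ?_⟩ hi
  have hone := one_of ht
  set L := L₁ ++ L₂ with hL
  have hsplit : trL L = (L₂.reverse.map trB) ++ (L₁.map trB).reverse := by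
    unfold trL
    rw [hL, List.map_append, List.reverse_append, List.map_reverse]
  have hval := valid_blocks L _ h0 ht.1
  rw [ht.2] at hval
  have hcl : Pool.Agent.W709.QAT.Closed ((L₂.reverse.map trB) ++ (L₁.map trB).reverse) := by
    rw [← hsplit]
    exact hval
  have hlim := Pool.Agent.R807.Cut.lim_cut _ _ hcl ε hε
  filter_upwards [odd_atTop.eventually hlim] with k hk'
  have hN : Odd (2 * k + 1) := ⟨k, rfl⟩
  have e1 : ‖kash (closure b (blocks L)) (2 * k + 1)‖ =
      ‖jones (2 * k + 1) (trL L) (rt (2 * k + 1))‖ := by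
    rw [← norm_of hk (col_of (colE_closure hone hk.1)) hN (cont_jones _ hN)]
    congr 1
    unfold jones
    rw [dif_pos hN.pos, dif_pos hN.pos]
    exact run_blocks _ _ L _ [⟨0, hN.pos⟩] h0 ht.1 rfl
  rw [e1, hsplit, low_eq, high_eq]
  rw [List.reverse_reverse] at hk'
  have e2 : 2 * Real.pi * (Real.log ‖jones (2 * k + 1) (List.map trB L₂.reverse ++
      (List.map trB L₁).reverse) (rt (2 * k + 1))‖ / ((2 * k + 1 : ℕ) : ℝ)) =
      2 * Real.pi / ((2 * k + 1 : ℕ) : ℝ) * Real.log ‖jones (2 * k + 1)
        (List.map trB L₂.reverse ++ (List.map trB L₁).reverse)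
        (Pool.Agent.W715.VC.rt (2 * k + 1))‖ := by
    show 2 * Real.pi * (Real.log ‖jones (2 * k + 1) _ (Pool.Agent.W715.VC.rt (2 * k + 1))‖ / _) = _
    ring
  rw [e2]
  linarith

end Pool.Agent.L7h82.VV
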