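import Pool.Agent.L7h82.VV.CloD

/-!
# Diagrams with twist regions and the bound of the growth rate

A (1,1)-tangle diagram is described by the list of its blocks, from top to bottom: maxima, minima and
twist regions (rows of crossings of two neighbouring strands).
-/

set_option autoImplicit false

namespace Pool.Agent.L7h82.VV

open Pool.Agent.H835R2.Knot (Word)

/-- The blocks of a diagram: a maximum (direction `b` of its left strand, `true` = downwards), a
minimum, a twist region of `m` crossings of the strands `i` and `i + 1`, all of them `pos i`
(`σ = true`) or all `neg i`. -/
inductive Block
  | max (i : ℕ) (b : Bool)
  | min (i : ℕ)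
  | twist (i : ℕ) (σ : Bool) (m : ℕ)

/-- the pieces of a block -/
def Block.word : Block → Word
  | .max i b => [.birth i b]
  | .min i => [.death i]
  | .twist i σ m => List.replicate m (if σ then .pos i else .neg i)

/-- the diagram with the given blocks, from top to bottom -/
def blocks (L : List Block) : Word := (L.map Block.word).flatten

/-- Lobachevsky's function `Λ(x) = -∫_0^x log |2 sin t| dt`. -/
noncomputable def Lobach (x : ℝ) : ℝ := -∫ t in (0 : ℝ)..x, Real.log |2 * Real.sin t|

/-- the volume of the regular ideal tetrahedron, `1.01494…` -/
noncomputable def v3 : ℝ := 3 * Lobach (Real.pi / 3)

/-- the volume of the regular ideal octahedron, `3.66386…` -/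
noncomputable def v8 : ℝ := 8 * Lobach (Real.pi / 4)

/-- the contribution of a twist region of `m` crossings -/
noncomputable def rate (m : ℕ) : ℝ := Min.min (m * v8) (10 * v3)

/-- the contribution of a block -/
noncomputable def Block.rate : Block → ℝ
  | .twist _ _ m => VV.rate m
  | _ => 0

/-- A strand which enters the block from above at the position `p` is followed downwards as long as it
passes under.  The first entry is its position below the block, or `none` if it turns back in a
minimum, passes over the crossing, or meets a twist region with `m ≠ 1` crossings; from then on it is
no longer followed.  The second entry is the contribution of the block: `0` for a crossing where the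
strand passes under, `2 v_3` for a crossing where it passes over, `rate m` for all other twist
regions, `0` for maxima and minima. -/
noncomputable def down : Option ℕ → Block → Option ℕ × ℝ
  | none, P => (none, P.rate)
  | some p, .max i _ => (some (if i ≤ p then p + 2 else p), 0)
  | some p, .min i => (if i + 1 < p then some (p - 2) else if p < i then some p else none, 0)
  | some p, .twist i σ m =>
      if i + 1 < p ∨ p < i then (some p, VV.rate m)
      else if m = 1 then
        (if p = i then (if σ then (some (i + 1), 0) else (none, 2 * v3))
        else (if σ then (none, 2 * v3) else (some i, 0)))
      else (none, VV.rate m)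

/-- A strand which enters the block from below at the position `p` is followed upwards as long as it
passes over; conventions as in `down`, with over and under, minima and maxima exchanged. -/
noncomputable def up : Option ℕ → Block → Option ℕ × ℝ
  | none, P => (none, P.rate)
  | some p, .min i => (some (if i ≤ p then p + 2 else p), 0)
  | some p, .max i _ => (if i + 1 < p then some (p - 2) else if p < i then some p else none, 0)
  | some p, .twist i σ m =>
      if i + 1 < p ∨ p < i then (some p, VV.rate m)
      else if m = 1 then
        (if p = i then (if σ then (some (i + 1), 0) else (none, 2 * v3))
        else (if σ then (none, 2 * v3) else (some i, 0)))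
      else (none, VV.rate m)

/-- the sum of the contributions, following a strand from above; the list runs from top to bottom -/
noncomputable def high : Option ℕ → List Block → ℝ
  | _, [] => 0
  | o, P :: L => (down o P).2 + high (down o P).1 L

/-- the sum of the contributions, following a strand from below; the list runs from bottom to top -/
noncomputable def low : Option ℕ → List Block → ℝ
  | _, [] => 0
  | o, P :: L => (up o P).2 + low (up o P).1 L

/-- `D` is a diagram of a knot which is isotopic to the closure of a (1,1)-tangle diagram with the
blocks `L₁`, followed by the blocks `L₂`, and `B` is the sum of the contributions of the blocks, where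
the upper end of the open strand is followed through `L₁` as long as it passes under, and the lower end
is followed through `L₂` as long as it passes over (from below). -/
def HasBound (D : Word) (B : ℝ) : Prop :=
  ∃ (b : Bool) (L₁ L₂ : List Block), (∀ i σ, Block.twist i σ 0 ∉ L₁ ++ L₂) ∧
    IsTangle b (blocks (L₁ ++ L₂)) ∧
    Pool.Agent.H835R2.Knot.IsKnot (closure b (blocks (L₁ ++ L₂))) ∧
    Pool.Agent.H835R2.Knot.Isotopic (closure b (blocks (L₁ ++ L₂))) D ∧
    B = high (some 0) L₁ + low (some 0) L₂.reverse

end Pool.Agent.L7h82.VV
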